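import Pool.Agent.H8.FX.Cls
import Pool.Agent.H34.ES.Alt

/-! # FX.AltX : from the group `AAX` back to cycles: `N • clsX X R = 0` gives `N • altX R ∈ RatX k X` (complete)

As `H34/ES/Alt.lean`. -/

namespace FX

open ES H68.BB

variable {K : Type} [Field K] {s c k : ℕ} {X : XD K s c}

/-- permute the rows by `σ` and replace the points in `J` by `o` -/
private def mvX (F : Type) [Zero F] [One F] (σ : Equiv.Perm (Fin k)) (J : Finset (Fin k × Fin c)) (R : Fin k → Row s c F) :
    Fin k → Row s c F :=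
  fun i => ⟨(R (σ i)).β, fun j => if (i, j) ∈ J then o s F else (R (σ i)).P j⟩

private theorem mvX_allOn (hX : X.Ok) (σ : Equiv.Perm (Fin k)) (J : Finset (Fin k × Fin c))
    {S : Multiset (Fin k → Row s c (Om K))} (h : AllOnX X S) : AllOnX X (S.map (mvX (Om K) σ J)) := by
  intro R hR i
  obtain ⟨Q, hQ, rfl⟩ := Multiset.mem_map.1 hR
  have h1 := h Q hQ (σ i)
  refine ⟨h1.ne, h1.I, fun j => ?_, fun j => ?_⟩
  · show OnW (X.W j) (if (i, j) ∈ J then o s (Om K) else (Q (σ i)).P j)
    split_ifs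
    · exact OnW_o (hX.W j) _
    · exact h1.on j
  · show Over X.v (Q (σ i)).β (if (i, j) ∈ J then o s (Om K) else (Q (σ i)).P j).β
    split_ifs
    · exact Or.inl rfl
    · exact h1.ov j

private theorem mvX_gal (σ : Equiv.Perm (Fin k)) (J : Finset (Fin k × Fin c))
    {S : Multiset (Fin k → Row s c (Om K))} (h : GalX S) : GalX (S.map (mvX (Om K) σ J)) := by
  intro τ
  conv_rhs => rw [← h τ]
  rw [Multiset.map_map, Multiset.map_map]
  refine Multiset.map_congr rfl fun R _ => ?_
  funext i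
  simp only [Function.comp_apply, mvX]
  refine Row.ext rfl ?_
  funext j
  show (if (i, j) ∈ J then o s (Om K) else (R (σ i)).P j).map τ = if (i, j) ∈ J then o s (Om K) else ((R (σ i)).P j).map τ
  split_ifs
  · unfold ES.Pt.map o
    ext
    · exact map_zero τ
    · exact map_one τ
    · exact map_one τ
  · rfl

private theorem Sp_oX (W : Wm K s) (π : Place K (Om K)) : Sp W π (o s (Om K)) (o s K) := by
  refine Sp_fin (Or.inr (Or.inl one_ne_zero)) (fun i => ?_) ?_ ?_
  · exact Rd.zero
  · exact Rd.one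
  · exact Rd.one

private theorem mvX_rel (σ : Equiv.Perm (Fin k)) (J : Finset (Fin k × Fin c)) {π : Place K (Om K)}
    {S : Multiset (Fin k → Row s c (Om K))} {C : Multiset (Fin k → Row s c K)} (h : Multiset.Rel (SpX X π) S C) :
    Multiset.Rel (SpX X π) (S.map (mvX (Om K) σ J)) (C.map (mvX K σ J)) := by
  rw [Multiset.rel_map]
  refine Multiset.Rel.mono h fun R _ r _ hRr => ?_
  intro i
  refine ⟨(hRr (σ i)).β, fun j => ?_⟩
  show Sp (X.W j) π (if (i, j) ∈ J then o s (Om K) else (R (σ i)).P j) (if (i, j) ∈ J then o s K else (r (σ i)).P j)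
  split_ifs
  · exact Sp_oX _ π
  · exact (hRr (σ i)).P j

/-- the additive map with `ptX R ↦ altX R` -/
private noncomputable def A0 (k s c : ℕ) (K : Type) [Field K] : CycX k s c K →ₗ[ℤ] CycX k s c K :=
  Finsupp.linearCombination ℤ (altX (K := K) (s := s) (c := c) (k := k))

private theorem A0_pt (R : Fin k → Row s c K) : A0 k s c K (ptX R) = altX R := by
  unfold A0 ptX
  rw [Finsupp.linearCombination_single, one_smul]

private theorem A0_cyc (C : Multiset (Fin k → Row s c K)) :
    A0 k s c K (cycX C) = ∑ σ : Equiv.Perm (Fin k), ((Equiv.Perm.sign σ : ℤ)) ^ c •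
      ∑ J : Finset (Fin k × Fin c), (-1 : ℤ) ^ J.card • cycX (C.map (mvX K σ J)) := by
  induction C using Multiset.induction_on with
  | empty => simp [cycX]
  | cons R C ih =>
    have e1 : ∀ (Q : Fin k → Row s c K) (d : Multiset (Fin k → Row s c K)), cycX (Q ::ₘ d) = ptX Q + cycX d := by
      intro Q d
      unfold cycX
      rw [Multiset.map_cons, Multiset.sum_cons]
    rw [e1, map_add, A0_pt, ih]
    simp only [Multiset.map_cons, e1, smul_add, Finset.sum_add_distrib]
    rfl

private theorem A0_gen (hX : X.Ok) {z : CycX k s c K} (hz : z ∈ RatX k X) : A0 k s c K z ∈ RatX k X := by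
  unfold RatX at hz
  induction hz using AddSubgroup.closure_induction with
  | mem z hz =>
    obtain ⟨S, π, π', C, C', hS, hG, h1, h2, rfl⟩ := hz
    rw [map_sub, A0_cyc, A0_cyc, ← Finset.sum_sub_distrib]
    refine AddSubgroup.sum_mem _ fun σ _ => ?_
    rw [← smul_sub, ← Finset.sum_sub_distrib]
    refine AddSubgroup.zsmul_mem _ (AddSubgroup.sum_mem _ fun J _ => ?_) _
    rw [← smul_sub]
    refine AddSubgroup.zsmul_mem _ (AddSubgroup.subset_closure ?_) _
    exact ⟨S.map (mvX (Om K) σ J), π, π', C.map (mvX K σ J), C'.map (mvX K σ J), mvX_allOn hX σ J hS, mvX_gal σ J hG,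
      mvX_rel σ J h1, mvX_rel σ J h2, rfl⟩
  | zero => rw [map_zero]; exact AddSubgroup.zero_mem _
  | add x y _ _ hx hy => rw [map_add]; exact AddSubgroup.add_mem _ hx hy
  | neg x _ hx => rw [map_neg]; exact AddSubgroup.neg_mem _ hx

theorem prodX_o {R : Fin k → Row s c K} {i₀ : Fin k} {j₀ : Fin c} (h : (R i₀).P j₀ = o s K) : prodX R = 0 := by
  unfold prodX
  have hp : ∀ J J' : Finset (Fin k × Fin c), (∀ x, x ≠ (i₀, j₀) → (x ∈ J ↔ x ∈ J')) → rep J R = rep J' R := by
    intro J J' hJ
    funext i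
    refine Row.ext rfl ?_
    funext j
    show (if (i, j) ∈ J then o s K else (R i).P j) = if (i, j) ∈ J' then o s K else (R i).P j
    by_cases hx : (i, j) = (i₀, j₀)
    · obtain ⟨rfl, rfl⟩ := Prod.mk.inj hx
      rw [h, ite_self, ite_self]
    · simp only [hJ _ hx]
  refine Finset.sum_involution (fun J _ => if (i₀, j₀) ∈ J then J.erase (i₀, j₀) else insert (i₀, j₀) J) ?_ ?_ ?_ ?_
  · intro J _
    split_ifs with hJ
    · have hc : J.card = (J.erase (i₀, j₀)).card + 1 := (Finset.card_erase_add_one hJ).symm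
      rw [hp (J.erase (i₀, j₀)) J (fun x hx => by
        rw [Finset.mem_erase]
        exact ⟨fun h => h.2, fun h => ⟨hx, h⟩⟩), hc, pow_succ, ← add_smul]
      simp
    · have hc : (insert (i₀, j₀) J).card = J.card + 1 := Finset.card_insert_of_notMem hJ
      rw [hp (insert (i₀, j₀) J) J (fun x hx => by
        rw [Finset.mem_insert]
        exact ⟨fun h => h.resolve_left hx, fun h => Or.inr h⟩), hc, pow_succ, ← add_smul]
      simp
  · intro J _ _ he
    split_ifs at he with hJ
    · rw [← he] at hJ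
      exact Finset.notMem_erase _ _ hJ
    · rw [← he] at hJ
      exact hJ (Finset.mem_insert_self _ _)
  · intro J _
    exact Finset.mem_univ _
  · intro J _
    by_cases hJ : (i₀, j₀) ∈ J
    · rw [if_pos hJ, if_neg (Finset.notMem_erase _ _), Finset.insert_erase hJ]
    · rw [if_neg hJ, if_pos (Finset.mem_insert_self _ _), Finset.erase_insert hJ]

theorem altX_o {R : Fin k → Row s c K} {i₀ : Fin k} {j₀ : Fin c} (h : (R i₀).P j₀ = o s K) : altX R = 0 := by
  unfold altX
  refine Finset.sum_eq_zero fun σ _ => ?_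
  rw [prodX_o (i₀ := σ.symm i₀) (j₀ := j₀) (by rw [Equiv.apply_symm_apply, h]), smul_zero]

theorem altX_perm (R : Fin k → Row s c K) (τ : Equiv.Perm (Fin k)) :
    altX (fun i => R (τ i)) = ((Equiv.Perm.sign τ : ℤ)) ^ c • altX R := by
  unfold altX
  rw [Finset.smul_sum]
  refine Fintype.sum_equiv (Equiv.mulLeft τ) _ _ fun σ => ?_
  rw [Equiv.coe_mulLeft, smul_smul, Equiv.Perm.sign_mul, ← mul_pow]
  congr 2
  rw [Units.val_mul, ← mul_assoc, ← Units.val_mul, Int.units_mul_self, Units.val_one, one_mul]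

private theorem A0_rel (hX : X.Ok) {z : CycX k s c K} (hz : z ∈ RelX k X) : A0 k s c K z ∈ RatX k X := by
  unfold RelX at hz
  induction hz using AddSubgroup.closure_induction with
  | mem z hz =>
    rcases hz with (hz | ⟨R, ⟨i, j, hi⟩, rfl⟩) | ⟨R, σ, rfl⟩
    · exact A0_gen hX hz
    · rw [A0_pt, altX_o hi]
      exact AddSubgroup.zero_mem _
    · rw [map_sub, map_smul, A0_pt, A0_pt, altX_perm, sub_self]
      exact AddSubgroup.zero_mem _
  | zero => rw [map_zero]; exact AddSubgroup.zero_mem _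
  | add x y _ _ hx hy => rw [map_add]; exact AddSubgroup.add_mem _ hx hy
  | neg x _ hx => rw [map_neg]; exact AddSubgroup.neg_mem _ hx

theorem altX_mem (hX : X.Ok) {R : Fin k → Row s c K} {N : ℕ} (h : N • clsX X R = 0) : N • altX R ∈ RatX k X := by
  have h1 : N • ptX R ∈ RelX k X := by
    rw [← QuotientAddGroup.eq_zero_iff]
    exact h
  have h2 := A0_rel hX h1
  rwa [map_nsmul, A0_pt] at h2

/-- torsion of all classes gives the statement for `altX` -/
theorem altX_of_tors (hX : X.Ok) {R : Fin k → Row s c K} (h : IsOfFinAddOrder (clsX X R)) :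
    ∃ N : ℕ, 0 < N ∧ N • altX R ∈ RatX k X := by
  obtain ⟨N, hN, h⟩ := isOfFinAddOrder_iff_nsmul_eq_zero.1 h
  exact ⟨N, hN, altX_mem hX h⟩

end FX
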