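import Pool.Agent.H67.EX.PiM

/-! # EX.PiU : products of multisets: binds, changing one factor, sums over products -/

namespace ES

variable {α β : Type}

theorem piM_bind {c : ℕ} (A : Fin c → Multiset α) (g : Fin c → α → Multiset β) :
    piM c (fun i => (A i).bind (g i)) = (piM c A).bind fun q => piM c (fun i => g i (q i)) := by
  induction c with
  | zero =>
    show ({Fin.elim0} : Multiset (Fin 0 → β)) = Multiset.bind {Fin.elim0} _
    rw [Multiset.singleton_bind]
    rfl
  | succ c ih =>
    rw [piM_succ, piM_succ, Multiset.bind_assoc, Multiset.bind_assoc]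
    refine Multiset.bind_congr fun a _ => ?_
    rw [Multiset.bind_map]
    have h := ih (Fin.tail A) (Fin.tail g)
    have e : Fin.tail (fun i => (A i).bind (g i)) = fun i => (Fin.tail A i).bind (Fin.tail g i) := rfl
    rw [e, h]
    have e2 : ∀ q : Fin c → α, piM (c + 1) (fun i => g i (Fin.cons (α := fun _ => α) a q i)) =
        (g 0 a).bind fun b => (piM c (fun i => Fin.tail g i (q i))).map (Fin.cons (α := fun _ => β) b) := by
      intro q
      rw [piM_succ]
      rfl
    rw [Multiset.bind_congr (fun q _ => e2 q), Multiset.bind_bind]
    refine Multiset.bind_congr fun b _ => ?_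
    rw [Multiset.map_bind]

theorem piM_update {c : ℕ} (D : Fin c → Multiset α) (j : Fin c) (A : Multiset α) (b : α) :
    piM c (Function.update D j A) =
      (piM c (Function.update D j {b})).bind fun P => A.map fun a => Function.update P j a := by
  induction c with
  | zero => exact j.elim0
  | succ c ih =>
    refine Fin.cases ?_ (fun j => ?_) j
    · rw [piM_succ, piM_succ, Function.update_self, Function.update_self, Multiset.singleton_bind, Multiset.bind_map,
        Fin.tail_update_zero, Fin.tail_update_zero]
      rw [Multiset.bind_map_comm]
      refine Multiset.bind_congr fun t _ => ?_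
      refine Multiset.map_congr rfl fun a _ => ?_
      rw [Fin.update_cons_zero]
    · rw [piM_succ, piM_succ, Function.update_of_ne (Fin.succ_ne_zero j).symm, Function.update_of_ne (Fin.succ_ne_zero j).symm,
        Multiset.bind_assoc]
      refine Multiset.bind_congr fun d _ => ?_
      rw [Fin.tail_update_succ, Fin.tail_update_succ, ih (Fin.tail D) j, Multiset.map_bind, Multiset.bind_map]
      refine Multiset.bind_congr fun t _ => ?_
      rw [Multiset.map_map]
      refine Multiset.map_congr rfl fun a _ => ?_
      simp only [Function.comp]
      rw [Fin.cons_update]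

/-- the sum of `φ` over a product of multisets -/
noncomputable def sumV {G : Type} [AddCommMonoid G] {c : ℕ} (φ : (Fin c → α) → G) (D : Fin c → Multiset α) : G :=
  ((piM c D).map φ).sum

theorem sumV_update {G : Type} [AddCommMonoid G] {c : ℕ} (φ : (Fin c → α) → G) (D : Fin c → Multiset α) (j : Fin c) (A : Multiset α)
    (b : α) : sumV φ (Function.update D j A) =
      ((piM c (Function.update D j {b})).map fun P => (A.map fun a => φ (Function.update P j a)).sum).sum := by
  unfold sumV
  rw [piM_update D j A b, Multiset.map_bind, Multiset.sum_bind]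
  congr 1
  refine Multiset.map_congr rfl fun P _ => ?_
  rw [Multiset.map_map]
  rfl

theorem sumV_bind {G : Type} [AddCommMonoid G] {c : ℕ} (φ : (Fin c → β) → G) (A : Fin c → Multiset α) (g : Fin c → α → Multiset β) :
    sumV φ (fun i => (A i).bind (g i)) = ((piM c A).map fun q => sumV φ (fun i => g i (q i))).sum := by
  unfold sumV
  rw [piM_bind, Multiset.map_bind, Multiset.sum_bind]

theorem sumV_map {G : Type} [AddCommMonoid G] {c : ℕ} (φ : (Fin c → β) → G) (A : Fin c → Multiset α) (g : Fin c → α → β) :
    sumV φ (fun i => (A i).map (g i)) = sumV (fun f => φ (fun i => g i (f i))) A := by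
  unfold sumV
  rw [piM_map, Multiset.map_map]
  rfl

end ES
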