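import Pool.Agent.H67.EX.MachH

/-! # EX.Tr : the same vertices over other base vectors with the same labels

`trL k β' f`: the list `f` with the base vectors `β'`. -/

namespace ES

open Polynomial H68.BB

section
variable {s s' : ℕ} {F : Type} [Field F]

/-- the list `f` with the base vectors `β'` -/
noncomputable def trL {k : ℕ} (β' : Fin k → Fin s' → F) (f : List (Lk s F)) : List (Lk s' F) :=
  List.ofFn fun i : Fin k => (β' i, (nth f i).2)

variable {k : ℕ} (β' : Fin k → Fin s' → F)

theorem trL_fst (f : List (Lk s F)) : (trL β' f).map Prod.fst = List.ofFn β' := by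
  unfold trL
  rw [List.map_ofFn]
  rfl

theorem trL_length (f : List (Lk s F)) : (trL β' f).length = k := by
  unfold trL
  rw [List.length_ofFn]

theorem trL_snd {f : List (Lk s F)} (hf : f.length = k) : (trL β' f).map Prod.snd = f.map Prod.snd := by
  unfold trL
  rw [List.map_ofFn]
  refine List.ext_getElem (by rw [List.length_ofFn, List.length_map, hf]) ?_
  intro i h1 h2
  rw [List.getElem_ofFn, List.getElem_map]
  have hi : i < f.length := by rw [List.length_map] at h2; exact h2
  simp only [Function.comp]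
  unfold nth
  rw [List.getD_eq_getElem _ _ hi]

theorem nth_trL (f : List (Lk s F)) (i : Fin k) : nth (trL β' f) i = (β' i, (nth f i).2) := by
  conv_lhs => unfold nth trL
  rw [List.getD_eq_getElem _ _ (by rw [List.length_ofFn]; exact i.2), List.getElem_ofFn]

theorem trL_trL {s'' : ℕ} (β'' : Fin k → Fin s'' → F) (f : List (Lk s F)) : trL β'' (trL β' f) = trL β'' f := by
  unfold trL
  congr 1
  funext i
  have h := nth_trL β' f i
  unfold trL at h
  rw [h]

theorem tup_trL (f : List (Lk s F)) (ζ : Fin k → F) :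
    tup k (trL β' f) ζ = fun i => ⟨β' i, (tup k f ζ i).x, (tup k f ζ i).y⟩ := by
  funext i
  unfold tup
  rw [nth_trL]
  rfl

theorem nth_fst {β : Fin k → Fin s → F} {f : List (Lk s F)} (hf : f.map Prod.fst = List.ofFn β) (i : Fin k) :
    (nth f i).1 = β i := by
  have hlen : f.length = k := by
    have h := congrArg List.length hf
    rwa [List.length_map, List.length_ofFn] at h
  have h1 : (f.map Prod.fst)[(i : ℕ)]'(by rw [List.length_map, hlen]; exact i.2) = β i := by
    rw [List.getElem_of_eq hf, List.getElem_ofFn]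
  unfold nth
  rw [List.getD_eq_getElem _ _ (by rw [hlen]; exact i.2), ← h1, List.getElem_map]

theorem trL_self {β : Fin k → Fin s → F} {f : List (Lk s F)} (hf : f.map Prod.fst = List.ofFn β) : trL β f = f := by
  have hlen : f.length = k := by
    have h := congrArg List.length hf
    rwa [List.length_map, List.length_ofFn] at h
  unfold trL
  refine List.ext_getElem (by rw [List.length_ofFn, hlen]) ?_
  intro i h1 h2
  rw [List.getElem_ofFn]
  have hi : i < k := by rw [← hlen]; exact h2
  refine Prod.ext ?_ ?_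
  · have := nth_fst hf ⟨i, hi⟩
    rw [← this]
    unfold nth
    rw [List.getD_eq_getElem _ _ h2]
  · show (nth f (⟨i, hi⟩ : Fin k)).2 = _
    unfold nth
    rw [List.getD_eq_getElem _ _ h2]

end

section
variable {K : Type} [Field K] {s s' k : ℕ} {W : Wm K s} {W' : Wm K s'} {β : Fin k → Fin s → K} {β' : Fin k → Fin s' → K}

/-- the labels over `β` and `β'` agree -/
def SameLab (W : Wm K s) (W' : Wm K s') (β : Fin k → Fin s → K) (β' : Fin k → Fin s' → K) : Prop :=
  ∀ i, (lab W (β i) : K × K) = lab W' (β' i)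

theorem SameLab.symm (h : SameLab W W' β β') : SameLab W' W β' β := fun i => (h i).symm

theorem SameLab.mul (h : SameLab W W' β β') (p : Fin k → Fin k) :
    ((List.ofFn (fun i => β (p i)) : List (Fin s → K)) : Multiset (Fin s → K)).map (lab W) =
      ((List.ofFn (fun i => β' (p i)) : List (Fin s' → K)) : Multiset (Fin s' → K)).map (lab W' : (Fin s' → K) → K × K) := by
  rw [Multiset.map_coe, Multiset.map_coe, List.map_ofFn, List.map_ofFn]
  congr 2
  funext i
  exact h (p i)

theorem trL_lab (h : SameLab W W' β β') (p : Fin k → Fin k) {f : List (Lk s K)} (hf : f.map Prod.fst = List.ofFn fun i => β (p i))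
    (hl : ∀ g ∈ f, g.2.ab = lab W g.1) : ∀ g ∈ trL (fun i => β' (p i)) f, g.2.ab = lab W' g.1 := by
  intro g hg
  unfold trL at hg
  obtain ⟨i, rfl⟩ := (List.mem_ofFn' _ _).1 hg
  have hlen : f.length = k := by
    have h := congrArg List.length hf
    rwa [List.length_map, List.length_ofFn] at h
  have hmem : nth f i ∈ f := by
    unfold nth
    rw [List.getD_eq_getElem _ _ (by rw [hlen]; exact i.2)]
    exact List.getElem_mem _
  show (nth f i).2.ab = lab W' (β' (p i))
  rw [hl _ hmem, nth_fst hf i]
  exact h (p i)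

/-- transport of good factorisations; the two states have the same point and the same matrix -/
theorem trL_gfac (h : SameLab W W' β β') {p : Fin k → Fin k} {m : Ms s K} {m' : Ms s' K}
    (hm : m.B = ((List.ofFn β : List (Fin s → K)) : Multiset (Fin s → K)))
    (hm' : m'.B = ((List.ofFn β' : List (Fin s' → K)) : Multiset (Fin s' → K)))
    (hp : Function.Bijective p)
    (hy : m'.y = m.y) (hM : m'.M = m.M) {w v : K} {f : List (Lk s K)} (hf : f.map Prod.fst = List.ofFn fun i => β (p i))
    (hg : GFac W k m w v f) : GFac W' k m' w v (trL (fun i => β' (p i)) f) := by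
  have hlen : f.length = k := by
    have h := congrArg List.length hf
    rwa [List.length_map, List.length_ofFn] at h
  have hmul : m'.B.map (lab W') = m.B.map (lab W) := by
    rw [hm, hm']
    exact (h.mul id).symm
  obtain ⟨⟨h1, h2, ⟨c, hc, hX⟩, ht⟩, hw, hv, hm0, hps, hgood⟩ := hg
  refine ⟨⟨?_, trL_lab h p hf h2, ⟨c, hc, ?_⟩, ?_⟩, hw, hv, ?_, ?_, ?_⟩
  · rw [trL_fst, hm']
    apply Multiset.coe_eq_coe.2
    exact Equiv.Perm.ofFn_comp_perm (Equiv.ofBijective p hp) β'
  · rw [trL_snd _ hlen, hX, hM]
  · rw [trL_snd _ hlen, ht, hy]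
  · rw [hy]
    exact hm0
  · rw [hy]
    exact hps
  · rw [trL_snd _ hlen, hmul]
    exact hgood

theorem trL_A (h : SameLab W W' β β') {m : Ms s K} {m' : Ms s' K}
    (hm : m.B = ((List.ofFn β : List (Fin s → K)) : Multiset (Fin s → K)))
    (hm' : m'.B = ((List.ofFn β' : List (Fin s' → K)) : Multiset (Fin s' → K))) : m'.A W' = m.A W := by
  unfold Ms.A
  have h1 := congrArg (fun B : Multiset (K × K) => (B.map Prod.fst).prod) (h.mul id)
  simp only [Multiset.map_map] at h1
  rw [hm, hm']
  exact h1.symm

theorem trL_onS (h : SameLab W W' β β') {m : Ms s K} {m' : Ms s' K}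
    (hm : m.B = ((List.ofFn β : List (Fin s → K)) : Multiset (Fin s → K)))
    (hm' : m'.B = ((List.ofFn β' : List (Fin s' → K)) : Multiset (Fin s' → K)))
    (hx : m'.x = m.x) (hy : m'.y = m.y) (hM : m'.M = m.M) (hI : ∀ i, ∀ q ∈ W'.I, ev q (β' i) = 0) (h0 : ∀ i, β' i ≠ 0)
    (ho : OnS W k m) : OnS W' k m' := by
  have hmul : m'.B.map (lab W') = m.B.map (lab W) := by
    rw [hm, hm']
    exact (h.mul id).symm
  refine ⟨?_, ?_, ?_, ?_⟩
  · intro b hb
    rw [hm'] at hb
    obtain ⟨i, rfl⟩ := (List.mem_ofFn' _ _).1 (Multiset.mem_coe.1 hb)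
    exact hI i
  · intro b hb
    rw [hm'] at hb
    obtain ⟨i, rfl⟩ := (List.mem_ofFn' _ _).1 (Multiset.mem_coe.1 hb)
    exact h0 i
  · rw [hmul, hM]
    exact ho.st
  · rw [hx, hy, hM, trL_A h hm hm']
    exact ho.eqy

theorem trL_sepB (h : SameLab W W' β β')
    (hs : SepB W ((List.ofFn β : List (Fin s → K)) : Multiset (Fin s → K))) :
    SepB W' ((List.ofFn β' : List (Fin s' → K)) : Multiset (Fin s' → K)) := by
  intro l hl
  have h1 := hs (List.ofFn β) rfl
  have h2 : (List.ofFn β').map (lab W' : (Fin s' → K) → K × K) = (List.ofFn β).map (lab W) := by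
    rw [List.map_ofFn, List.map_ofFn]
    congr 1
    funext i
    exact (h i).symm
  have h3 : (l.map (lab W' : (Fin s' → K) → K × K)).Perm ((List.ofFn β').map (lab W')) := (Multiset.coe_eq_coe.1 hl).map _
  rw [h2] at h3
  have hsym : ∀ {x y : K × K}, Sep x y → Sep y x := fun h => Ne.symm h
  exact (h3.pairwise_iff hsym).2 h1

end

end ES
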