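import Pool.Agent.H67.EX.MsX
import Pool.Agent.H67.EX.PiU
import Pool.Agent.H67.EX.Tr
import Pool.Agent.H8.FX.Theta
import Pool.Agent.H34.ES.Cs1R

/-! # EX.CsX : good factorisations of all columns with the same cusps have the same class, in every common order (`CSX`)

`theta` column by column and `gfac_psi` in the fibre models. -/

namespace ES

section
variable {α : Type}

/-- a list which is a permutation of the values of an injective function -/
theorem perm_ofFn {k : ℕ} {f : Fin k → α} (hf : Function.Injective f) {l : List α}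
    (h : (l : Multiset α) = ((List.ofFn f : List α) : Multiset α)) : ∃ p : Equiv.Perm (Fin k), l = List.ofFn fun i => f (p i) := by
  have hperm := Multiset.coe_eq_coe.1 h
  have hlen : l.length = k := by rw [hperm.length_eq, List.length_ofFn]
  have hnd : l.Nodup := hperm.nodup_iff.2 (List.nodup_ofFn.2 hf)
  have hex : ∀ i : Fin k, ∃ j : Fin k, f j = l[(i : ℕ)]'(by rw [hlen]; exact i.2) := by
    intro i
    have h1 : l[(i : ℕ)]'(by rw [hlen]; exact i.2) ∈ List.ofFn f := hperm.mem_iff.1 (List.getElem_mem _)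
    exact (List.mem_ofFn' _ _).1 h1
  choose g hg using hex
  have hinj : Function.Injective g := by
    intro i j hij
    have h1 : l[(i : ℕ)]'(by rw [hlen]; exact i.2) = l[(j : ℕ)]'(by rw [hlen]; exact j.2) := by
      rw [← hg i, ← hg j, hij]
    exact Fin.ext ((hnd.getElem_inj_iff).1 h1)
  refine ⟨Equiv.ofBijective g (Finite.injective_iff_bijective.1 hinj), ?_⟩
  refine List.ext_getElem (by rw [List.length_ofFn, hlen]) ?_
  intro i h1 h2
  rw [List.getElem_ofFn]
  have hi : i < k := by rw [← hlen]; exact h1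
  exact (hg ⟨i, hi⟩).symm

theorem sumV_swap {G : Type} [AddCommGroup G] {c : ℕ} {φ : (Fin c → α) → G} {D D' : Fin c → Multiset α} {e : ℤ}
    (h : ∀ (j : Fin c) (E : Fin c → Multiset α), (∀ i, E i = D i ∨ E i = D' i) →
      sumV φ (Function.update E j (D j)) = e • sumV φ (Function.update E j (D' j))) : sumV φ D = e ^ c • sumV φ D' := by
  classical
  have key : ∀ S : Finset (Fin c), sumV φ D = e ^ S.card • sumV φ (fun i => if i ∈ S then D' i else D i) := by
    intro S
    induction S using Finset.induction_on with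
    | empty => simp
    | insert j S hj ih =>
      have h1 := h j (fun i => if i ∈ S then D' i else D i) (fun i => by
        by_cases hi : i ∈ S
        · right
          rw [if_pos hi]
        · left
          rw [if_neg hi])
      have e1 : Function.update (fun i => if i ∈ S then D' i else D i) j (D j) = fun i => if i ∈ S then D' i else D i := by
        funext i
        by_cases hi : i = j
        · subst hi
          rw [Function.update_self, if_neg hj]
        · rw [Function.update_of_ne hi]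
      have e2 : Function.update (fun i => if i ∈ S then D' i else D i) j (D' j) =
          fun i => if i ∈ insert j S then D' i else D i := by
        funext i
        by_cases hi : i = j
        · subst hi
          rw [Function.update_self, if_pos (Finset.mem_insert_self _ _)]
        · rw [Function.update_of_ne hi]
          by_cases h2 : i ∈ S
          · rw [if_pos h2, if_pos (Finset.mem_insert_of_mem h2)]
          · rw [if_neg h2, if_neg (by rw [Finset.mem_insert]; tauto)]
      rw [e1, e2] at h1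
      rw [ih, h1, Finset.card_insert_of_notMem hj, pow_succ, mul_smul]
  have h1 := key Finset.univ
  rw [Finset.card_univ, Fintype.card_fin] at h1
  simpa using h1

end

end ES

namespace FX

open ES H68.BB Polynomial

variable {K : Type} [Field K] [IsAlgClosed K] [CharZero K] {s c k : ℕ} {X : XD K s c}

/-- the labels of the fibre model -/
theorem fm_lab (X : XD K s c) (β : Fin k → Fin s → K) (j : Fin c) :
    SameLab (X.W j) (FMj X β j) β (fun i : Fin k => (bv (i : ℕ) : Fin 2 → K)) := by
  intro i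
  have h1 := FM_a (F := K) (fun i => ev (X.a j) (β i)) (fun i => ev (X.b j) (β i)) i
  have h2 := FM_b (F := K) (fun i => ev (X.a j) (β i)) (fun i => ev (X.b j) (β i)) i
  exact Prod.ext h1.symm h2.symm

theorem bv_ne {F : Type} [Field F] (i : ℕ) : (bv i : Fin 2 → F) ≠ 0 := fun h => one_ne_zero (congrFun h 0)

/-- the class of one column replaced by the points of a list, through the transport -/
theorem theta_psi {s' : ℕ} {β : Fin k → Fin s → K} {P : Fin c → Fin k → Pt s K} {j : Fin c}
    {θ : AA k (FMj X β j) →+ AAX k X}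
    (hθ : ∀ (σ : Equiv.Perm (Fin k)) (Q : Fin k → Pt 2 K), (∀ i, (Q i).β = bv ((σ i : Fin k) : ℕ)) →
      θ (cls (FMj X β j) Q) = (Equiv.Perm.sign σ : ℤ) • clsX X (rows β (Function.update P j
        (fun i => ⟨β i, (Q (σ.symm i)).x, (Q (σ.symm i)).y⟩)))) (p : Equiv.Perm (Fin k)) (f : List (Lk s' K)) :
    θ (Psi (FMj X β j) k (trL (fun i : Fin k => (bv ((p i : Fin k) : ℕ) : Fin 2 → K)) f)) =
      (Equiv.Perm.sign p : ℤ) • (((Z6 k K).val.map fun ζ => clsX X (rows β (Function.update P j
        (fun i => ⟨β i, (tup k f ζ (p.symm i)).x, (tup k f ζ (p.symm i)).y⟩)))).sum) := by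
  unfold Psi
  rw [map_sum, Finset.sum, ← Multiset.sum_map_zsmul]
  congr 1
  refine Multiset.map_congr rfl fun ζ _ => ?_
  rw [tup_trL, hθ p _ (fun i => rfl)]

/-- the points of a list of links with the right labels are on the surface -/
theorem tup_on {W : Wm K s} {β : Fin k → Fin s → K} {f : List (Lk s K)} (hf : f.map Prod.fst = List.ofFn β)
    (hI : ∀ i, ∀ q ∈ W.I, ev q (β i) = 0) (h0 : ∀ i, β i ≠ 0) (hl : ∀ g ∈ f, g.2.ab = lab W g.1) {ζ : Fin k → K} (hζ : ζ ∈ Z6 k K)
    (i : Fin k) : OnW W (tup k f ζ i) ∧ (tup k f ζ i).β = β i := by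
  classical
  have hlen : f.length = k := by
    have h := congrArg List.length hf
    rwa [List.length_map, List.length_ofFn] at h
  have hmem : nth f i ∈ f := by
    unfold nth
    rw [List.getD_eq_getElem _ _ (by rw [hlen]; exact i.2)]
    exact List.getElem_mem _
  have h6 : ζ i ^ 6 = 1 := by
    unfold Z6 at hζ
    rw [Finset.mem_filter, Fintype.mem_piFinset] at hζ
    have h1 := hζ.1 i
    unfold mu6 at h1
    rwa [Polynomial.mem_nthRootsFinset (by norm_num)] at h1
  have hb := nth_fst hf i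
  have h1 := hl _ hmem
  rw [hb, ← ab_rot _ h6] at h1
  have ha : (((nth f i).2.rot (ζ i)).w * ((nth f i).2.rot (ζ i)).v) ^ 2 = ev W.a (β i) := congrArg Prod.fst h1
  have hbb : (((nth f i).2.rot (ζ i)).w ^ 6 + ((nth f i).2.rot (ζ i)).v ^ 6 - ((nth f i).2.rot (ζ i)).y ^ 2) / 2 = ev W.b (β i) :=
    congrArg Prod.snd h1
  refine ⟨⟨Or.inl ?_, ?_, ?_⟩, hb⟩
  · show (nth f i).1 ≠ 0
    rw [hb]
    exact h0 i
  · intro q hq
    show ev q (nth f i).1 = 0
    rw [hb]
    exact hI i q hq
  · show ((nth f i).2.rot (ζ i)).y ^ 2 = (((nth f i).2.rot (ζ i)).w ^ 2 + ((nth f i).2.rot (ζ i)).v ^ 2) ^ 3 -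
      3 * ev W.a (nth f i).1 * (((nth f i).2.rot (ζ i)).w ^ 2 + ((nth f i).2.rot (ζ i)).v ^ 2) - 2 * ev W.b (nth f i).1
    rw [hb, ← ha, ← hbb]
    field_simp
    ring

omit [IsAlgClosed K] [CharZero K] in
/-- rows over `β` -/
theorem rows_onX {β : Fin k → Fin s → K} (hI : ∀ i, ∀ q ∈ X.I, ev q (β i) = 0) (h0 : ∀ i, β i ≠ 0) {P : Fin c → Fin k → Pt s K}
    (hP : ∀ j i, OnW (X.W j) (P j i) ∧ (P j i).β = β i) (i : Fin k) : OnX X (rows β P i) := by
  refine ⟨h0 i, hI i, fun j => (hP j i).1, fun j => Or.inr ⟨1, one_ne_zero, ?_⟩⟩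
  show (P j i).β = _
  rw [(hP j i).2]
  funext a
  rw [one_pow, one_mul]
  rfl

theorem csX (hX : X.Ok) (hk : 0 < k) (hc : 0 < c) (l : List (Fin s → K)) : CSX X k l := by
  classical
  intro m0 w v l' f f' hl hl' hm0 hsep hg hgl hg' hgl'
  have hlk : l.length = k := by
    have h1 := congrArg Multiset.card hl
    rw [Multiset.coe_card] at h1
    rw [h1, ← (hm0 ⟨0, hc⟩).st.card, Multiset.card_map]
    rfl
  obtain ⟨β, hβ⟩ : ∃ β : Fin k → Fin s → K, β = bas k l := ⟨_, rfl⟩
  have hlβ : l = List.ofFn β := by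
    refine List.ext_getElem (by rw [List.length_ofFn, hlk]) ?_
    intro i h1 h2
    rw [List.getElem_ofFn]
    have h3 : β (⟨i, by rw [← hlk]; exact h1⟩ : Fin k) = bas k l (⟨i, by rw [← hlk]; exact h1⟩ : Fin k) := by rw [hβ]
    refine Eq.trans ?_ h3.symm
    unfold bas
    rw [List.getD_eq_getElem _ _ h1]
  have hB : m0.B = ((List.ofFn β : List (Fin s → K)) : Multiset (Fin s → K)) := by rw [← hlβ, hl]
  have hinj : Function.Injective β := by
    have h1 := hsep ⟨0, hc⟩ (List.ofFn β) hB.symm
    rw [List.map_ofFn, List.pairwise_ofFn] at h1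
    intro i j hij
    by_contra hne
    rcases lt_or_gt_of_ne hne with h2 | h2
    · have h3 := h1 h2
      simp only [Function.comp] at h3
      rw [hij] at h3
      exact h3 rfl
    · have h3 := h1 h2
      simp only [Function.comp] at h3
      rw [hij] at h3
      exact h3 rfl
  obtain ⟨p, hp⟩ := perm_ofFn hinj (l := l') (by rw [hl', hB])
  have hI : ∀ i, ∀ q ∈ X.I, ev q (β i) = 0 := by
    intro i
    refine (hm0 ⟨0, hc⟩).I (β i) ?_
    show β i ∈ m0.B
    rw [hB]
    exact Multiset.mem_coe.2 ((List.mem_ofFn' _ _).2 ⟨i, rfl⟩)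
  have h0 : ∀ i, β i ≠ 0 := by
    intro i
    refine (hm0 ⟨0, hc⟩).ne (β i) ?_
    show β i ∈ m0.B
    rw [hB]
    exact Multiset.mem_coe.2 ((List.mem_ofFn' _ _).2 ⟨i, rfl⟩)
  have hfβ : ∀ j, (f j).map Prod.fst = List.ofFn β := fun j => by rw [hgl j, hlβ]
  have hf'β : ∀ j, (f' j).map Prod.fst = List.ofFn fun i => β (p i) := fun j => by rw [hgl' j, hp]
  -- the aligned points of `f'`
  let D : Fin c → Multiset (Fin k → Pt s K) := fun j => (Z6 k K).val.map (tup k (f j))
  let D' : Fin c → Multiset (Fin k → Pt s K) := fun j => (Z6 k K).val.map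
    (fun ζ i => ⟨β i, (tup k (f' j) ζ (p.symm i)).x, (tup k (f' j) ζ (p.symm i)).y⟩)
  let φ : (Fin c → Fin k → Pt s K) → AAX k X := fun P => clsX X (rows β P)
  have hD : ∀ j, ∀ Q ∈ D j, ∀ i, OnW (X.W j) (Q i) ∧ (Q i).β = β i := by
    intro j Q hQ i
    obtain ⟨ζ, hζ, rfl⟩ := Multiset.mem_map.1 hQ
    exact tup_on (hfβ j) hI h0 (hg j).mem.2.1 (Finset.mem_def.2 hζ) i
  have hD' : ∀ j, ∀ Q ∈ D' j, ∀ i, OnW (X.W j) (Q i) ∧ (Q i).β = β i := by
    intro j Q hQ i
    obtain ⟨ζ, hζ, rfl⟩ := Multiset.mem_map.1 hQ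
    obtain ⟨h1, h2⟩ := tup_on (W := X.W j) (β := fun i => β (p i)) (hf'β j) (fun i => hI (p i)) (fun i => h0 (p i))
      (hg' j).mem.2.1 (Finset.mem_def.2 hζ) (p.symm i)
    rw [Equiv.apply_symm_apply] at h2
    refine ⟨?_, rfl⟩
    have e : (⟨β i, (tup k (f' j) ζ (p.symm i)).x, (tup k (f' j) ζ (p.symm i)).y⟩ : Pt s K) = tup k (f' j) ζ (p.symm i) :=
      Pt.ext h2.symm rfl rfl
    show OnW (X.W j) (⟨β i, (tup k (f' j) ζ (p.symm i)).x, (tup k (f' j) ζ (p.symm i)).y⟩ : Pt s K)
    rw [e]
    exact h1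
  have hstep : ∀ (j : Fin c) (E : Fin c → Multiset (Fin k → Pt s K)), (∀ i, E i = D i ∨ E i = D' i) →
      sumV φ (Function.update E j (D j)) = (Equiv.Perm.sign p : ℤ) • sumV φ (Function.update E j (D' j)) := by
    intro j E hE
    -- a filler for the column `j`
    obtain ⟨Q0, hQ0⟩ : ∃ Q0, Q0 ∈ D j := by
      have h1 : (fun _ : Fin k => (1 : K)) ∈ Z6 k K := by
        unfold Z6
        rw [Finset.mem_filter, Fintype.mem_piFinset]
        refine ⟨fun _ => ?_, by simp⟩
        unfold mu6
        rw [Polynomial.mem_nthRootsFinset (by norm_num), one_pow]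
      exact ⟨_, Multiset.mem_map_of_mem _ (Finset.mem_def.1 h1)⟩
    rw [sumV_update φ E j (D j) Q0, sumV_update φ E j (D' j) Q0, ← Multiset.sum_map_zsmul]
    congr 1
    refine Multiset.map_congr rfl fun P hP => ?_
    have hPon : ∀ j' i, OnW (X.W j') (P j' i) ∧ (P j' i).β = β i := by
      intro j' i
      have h1 := mem_piM.1 hP j'
      by_cases hj : j' = j
      · subst hj
        rw [Function.update_self, Multiset.mem_singleton] at h1
        rw [h1]
        exact hD j' _ hQ0 i
      · rw [Function.update_of_ne hj] at h1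
        rcases hE j' with h2 | h2
        · rw [h2] at h1
          exact hD j' _ h1 i
        · rw [h2] at h1
          exact hD' j' _ h1 i
    obtain ⟨θ, hθ⟩ := theta hX hk (rows_onX hI h0 hPon) j
    have hlab := fm_lab X β j
    have hFI := FM_I (F := K) (fun i => ev (X.a j) (β i)) (fun i => ev (X.b j) (β i))
    let m' : Ms 2 K := ⟨((List.ofFn (fun i : Fin k => (bv (i : ℕ) : Fin 2 → K)) : List (Fin 2 → K)) : Multiset (Fin 2 → K)),
      m0.x j, m0.y j, m0.M j⟩
    have hOn' : OnS (FMj X β j) k m' := trL_onS (m := m0.st j) hlab hB rfl rfl rfl rfl hFI (fun i => bv_ne _) (hm0 j)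
    have hsep' : SepB (FMj X β j) m'.B := trL_sepB hlab (by rw [← hB]; exact hsep j)
    have hgf : GFac (FMj X β j) k m' (w j) (v j) (trL (fun i : Fin k => (bv (i : ℕ) : Fin 2 → K)) (f j)) :=
      trL_gfac (p := id) (m := m0.st j) hlab hB rfl Function.bijective_id rfl rfl (hfβ j) (hg j)
    have hgf' : GFac (FMj X β j) k m' (w j) (v j) (trL (fun i : Fin k => (bv ((p i : Fin k) : ℕ) : Fin 2 → K)) (f' j)) :=
      trL_gfac (p := p) (m := m0.st j) hlab hB rfl p.bijective rfl rfl (hf'β j) (hg' j)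
    have hFok := FM_ok hk (fun i => ev (X.a j) (β i)) (fun i => ev (X.b j) (β i))
    have hcs : CS1 (FMj X β j) k := fun f f' e h h1 h2 h3 h4 => cs1 hFok h h1 h2 h3 h4
    have hpsi := gfac_psi hcs hOn' hsep' hgf hgf'
    have t1 := theta_psi hθ 1 (f j)
    have t2 := theta_psi hθ p (f' j)
    rw [← hpsi] at t2
    have t3 := t1.symm.trans t2
    rw [Equiv.Perm.sign_one, Units.val_one, one_smul] at t3
    rw [Multiset.map_map, Multiset.map_map]
    refine Eq.trans ?_ t3
    congr 1
    refine Multiset.map_congr rfl fun ζ hζ => ?_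
    show clsX X (rows β (Function.update P j (tup k (f j) ζ))) = _
    congr 4
    funext i
    have h2 := (tup_on (hfβ j) hI h0 (hg j).mem.2.1 (Finset.mem_def.2 hζ) i).2
    exact Pt.ext h2 rfl rfl
  have hall := sumV_swap hstep
  have e1 : PsiX X k l f = sumV φ D := by
    show _ = sumV φ (fun j => (Z6 k K).val.map (tup k (f j)))
    rw [sumV_map]
    unfold PsiX sumV
    rw [piM_finset (fun _ : Fin c => Z6 k K), ← hβ]
    rfl
  have e2 : PsiX X k l' f' = ((Equiv.Perm.sign p : ℤ)) ^ c • sumV φ D' := by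
    show _ = ((Equiv.Perm.sign p : ℤ)) ^ c • sumV φ (fun j => (Z6 k K).val.map
      (fun ζ i => (⟨β i, (tup k (f' j) ζ (p.symm i)).x, (tup k (f' j) ζ (p.symm i)).y⟩ : Pt s K)))
    rw [sumV_map]
    unfold PsiX sumV
    rw [piM_finset (fun _ : Fin c => Z6 k K), ← Multiset.sum_map_zsmul, Finset.sum]
    congr 1
    refine Multiset.map_congr rfl fun ζ hζ => ?_
    rw [← clsX_perm]
    congr 1
    funext i
    have hbi : bas k l' i = β (p i) := by
      unfold bas
      rw [hp, List.getD_eq_getElem _ _ (by rw [List.length_ofFn]; exact i.2), List.getElem_ofFn]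
    unfold rows
    ext1
    · exact hbi
    · funext j
      have h2 := (tup_on (W := X.W j) (β := fun i => β (p i)) (hf'β j) (fun i => hI (p i)) (fun i => h0 (p i))
        (hg' j).mem.2.1 (Fintype.mem_piFinset.1 (Finset.mem_def.2 hζ) j) i).2
      refine Pt.ext h2 ?_ ?_
      · show _ = (tup k (f' j) (ζ j) (p.symm (p i))).x
        rw [Equiv.symm_apply_apply]
      · show _ = (tup k (f' j) (ζ j) (p.symm (p i))).y
        rw [Equiv.symm_apply_apply]
  rw [e2, e1, hall]

end FX
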