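import Pool.Agent.H67.EX.FamE
import Pool.Agent.H99.GC.Ext

/-! # FX.ExtX : from the rows over almost all base points to all rows over the chart (complete)

Normalise the points of the row (`clsX` does not change under scaling): `r = (bp b; (x_j, y_j))`.  `p = ∏ y_j + λ g` with `g` vanishing at `b` and not at the finitely many bad points; `fam_e`: all other zeros of `p^2 - ∏ R_j` are good, and all rows
over `b` with the same `x_j` and the same product of the `y_j` have the same image (`sol_const`, `clsX_neg`). -/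

namespace FX

open ES H68.BB GB Module

variable {K : Type} [Field K] [IsAlgClosed K] [CharZero K] {s c k : ℕ} {X : XD K s c} {R : Type} [CommRing R] [Algebra K R] {P : OnePt K R} (C : Cht X P)

omit [IsAlgClosed K] [CharZero K] in
private theorem ex_ker_le {b c : R →ₐ[K] K} (h : RingHom.ker b ≤ RingHom.ker c) : c = b := by
  refine AlgHom.ext fun z => ?_
  have h1 : z - algebraMap K R (b z) ∈ RingHom.ker b := by
    rw [RingHom.mem_ker, map_sub, AlgHom.commutes, Algebra.algebraMap_self_apply, sub_self]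
  have h2 := h h1
  rw [RingHom.mem_ker, map_sub, AlgHom.commutes, Algebra.algebraMap_self_apply] at h2
  exact sub_eq_zero.mp h2

omit [IsAlgClosed K] [CharZero K] in
private theorem ex_avoid (b : R →ₐ[K] K) (F : Finset (R →ₐ[K] K)) (hb : b ∉ F) :
    ∃ g : R, b g = 0 ∧ ∀ c ∈ F, c g ≠ 0 := by
  by_contra hcon
  push Not at hcon
  have h1 : ((RingHom.ker b : Ideal R) : Set R) ⊆
      ⋃ c ∈ (F : Set (R →ₐ[K] K)), ((RingHom.ker c : Ideal R) : Set R) := by
    intro g hg
    obtain ⟨c, hc, hcg⟩ := hcon g hg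
    exact Set.mem_biUnion hc hcg
  rw [Ideal.subset_union_prime b b (fun c _ _ _ => RingHom.ker_isPrime c)] at h1
  obtain ⟨c, hc, hle⟩ := h1
  rw [ex_ker_le hle] at hc
  exact hb hc

omit [CharZero K] in
private theorem ex_other (P : OnePt K R) (b : R →ₐ[K] K) : ∃ c : R →ₐ[K] K, c ≠ b := by
  obtain ⟨N, hN⟩ := P.big
  obtain ⟨f, hf, hd⟩ := hN (N + 1) (Nat.le_succ N)
  have h1 : P.Lt (P.deg f) (algebraMap K R (-(b f + 1))) := by
    right
    rw [P.deg_const, hd]
    exact Nat.succ_pos N
  have h2 := (add_lt P h1).1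
  have h3 : f + algebraMap K R (-(b f + 1)) ≠ 0 := by
    intro h0
    rw [h0, P.deg_zero, hd] at h2
    omega
  have h4 := zk_card P h3
  rw [h2, hd] at h4
  obtain ⟨c, hc⟩ := Multiset.card_pos_iff_exists_mem.mp (by rw [h4]; exact Nat.succ_pos N)
  refine ⟨c, ?_⟩
  rintro rfl
  have h5 := (mem_zk P h3 c).mp hc
  rw [map_add, AlgHom.commutes, Algebra.algebraMap_self_apply] at h5
  have h6 : (1 : K) = 0 := by linear_combination -h5
  exact one_ne_zero h6

omit [IsAlgClosed K] in
private theorem ex_quad {y d c : K} (hd : d ≠ 0) :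
    (Polynomial.C y + Polynomial.C d * Polynomial.X) ^ 2 + Polynomial.C c ≠ (0 : Polynomial K) := by
  intro h
  have h0 := congrArg (Polynomial.eval 0) h
  have h1 := congrArg (Polynomial.eval 1) h
  have h2 := congrArg (Polynomial.eval (-1)) h
  simp only [Polynomial.eval_add, Polynomial.eval_pow, Polynomial.eval_mul, Polynomial.eval_C, Polynomial.eval_X,
    Polynomial.eval_zero] at h0 h1 h2
  have h3 : (2 : K) * d ^ 2 = 0 := by linear_combination h1 + h2 - 2 * h0
  rcases mul_eq_zero.mp h3 with h4 | h4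
  · exact two_ne_zero h4
  · exact hd (pow_eq_zero_iff (two_ne_zero) |>.mp h4)

omit [IsAlgClosed K] [CharZero K] in
private theorem ex_one (W : Wm K s) (P : Pt s K) : P.smul W 1 = P := by
  unfold Pt.smul
  ext <;> simp

omit [CharZero K] in
/-- scaling the points of a tuple of rows -/
theorem cls_scale_all {T T' : Fin k → Row s c K} (hT : ∀ i, OnX X (T i)) (hβ : ∀ i, (T' i).β = (T i).β)
    (hP : ∀ i j, ∃ d : K, d ≠ 0 ∧ (T' i).P j = ((T i).P j).smul (X.W j) d) : clsX X T' = clsX X T := by
  obtain ⟨π, -, -⟩ := place_exists K 0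
  refine clsX_eq_of_sp (X := X) (S := fun i => (T i).map (algebraMap K (Om K))) (fun i => OnX_cst (hT i))
    (fun σ i => map_cstR σ (T i)) (π := π) (π' := π) (fun i => ?_) (fun i => SpR_cst π (hT i))
  have h := SpR_cst π (hT i)
  refine ⟨?_, fun j => ?_⟩
  · rw [hβ i]
    exact h.β
  · obtain ⟨d, hd, he⟩ := hP i j
    rw [he]
    exact Sp_smul (h.P j) hd

private theorem ex_sum {ι B' : Type} [AddCommGroup B'] (I : Multiset ι) (f : ι → B') (Φ : B')
    (h : ∀ q ∈ I, f q = 0 ∨ f q = Φ) (h1 : ∃ q ∈ I, f q = Φ) : ∃ M : ℕ, 0 < M ∧ (I.map f).sum = M • Φ := by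
  have key : ∀ I : Multiset ι, (∀ q ∈ I, f q = 0 ∨ f q = Φ) → ∃ M : ℕ, (I.map f).sum = M • Φ := by
    intro I
    induction I using Multiset.induction_on with
    | empty => exact fun _ => ⟨0, by simp⟩
    | cons q I ih =>
      intro hI
      obtain ⟨M, hM⟩ := ih fun q' hq' => hI q' (Multiset.mem_cons_of_mem hq')
      rw [Multiset.map_cons, Multiset.sum_cons, hM]
      rcases hI q (Multiset.mem_cons_self _ _) with h2 | h2
      · exact ⟨M, by rw [h2, zero_add]⟩
      · exact ⟨M + 1, by rw [h2, succ_nsmul']⟩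
  obtain ⟨q, hq, hf⟩ := h1
  obtain ⟨I', rfl⟩ := Multiset.exists_cons_of_mem hq
  obtain ⟨M, hM⟩ := key I' fun q' hq' => h q' (Multiset.mem_cons_of_mem hq')
  refine ⟨M + 1, Nat.succ_pos M, ?_⟩
  rw [Multiset.map_cons, Multiset.sum_cons, hM, hf, succ_nsmul']

theorem ext_x (hX : X.Ok) (hinf : ∃ j, dd (X.W j) C.inf = 0) {Q : Fin k → Row s c K} (hQ : ∀ l, OnX X (Q l)) (i : Fin k)
    {B' : Type} [AddCommGroup B'] (hB : ∀ (x : B') (n : ℕ), 0 < n → n • x = 0 → x = 0) (h : AAX k X →+ B')
    (hfin : {b : R →ₐ[K] K | ∃ r : Row s c K, OnX X r ∧ r.β = C.bp b ∧ h (clsX X (Function.update Q i r)) ≠ 0}.Finite)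
    {b : R →ₐ[K] K} {r : Row s c K} (hr : OnX X r) (hb : r.β = C.bp b) : h (clsX X (Function.update Q i r)) = 0 := by
  classical
  have hinfK : Infinite K := Infinite.of_injective (fun m : ℕ => (m : K)) Nat.cast_injective
  have hk : 0 < k := i.pos
  obtain ⟨j0, hinf⟩ := hinf
  have hupd : ∀ {r : Row s c K}, OnX X r → ∀ l, OnX X (Function.update Q i r l) := by
    intro r hr l
    by_cases hl : l = i
    · rw [hl, Function.update_self]
      exact hr
    · rw [Function.update_of_ne hl]
      exact hQ l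
  by_cases hz : ∃ j, (r.P j).β = 0
  · obtain ⟨j, hj⟩ := hz
    rw [clsX_zero hX (hupd hr) (i := i) (j := j) (by rw [Function.update_self]; exact hj), map_zero]
  push Not at hz
  have hbp : C.bp b ≠ 0 := by
    rw [← hb]
    exact hr.ne
  -- normalisation
  have hN : ∀ j, ∃ d x y : K, d ≠ 0 ∧ (r.P j).smul (X.W j) d = ⟨C.bp b, x, y⟩ := by
    intro j
    rcases hr.ov j with h0 | ⟨d, hd, he⟩
    · exact absurd h0 (hz j)
    · refine ⟨d⁻¹, ((r.P j).smul (X.W j) d⁻¹).x, ((r.P j).smul (X.W j) d⁻¹).y, inv_ne_zero hd, Pt.ext ?_ rfl rfl⟩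
      funext l
      show d⁻¹ ^ X.v l * (r.P j).β l = C.bp b l
      rw [he, hb]
      show d⁻¹ ^ X.v l * (d ^ X.v l * C.bp b l) = C.bp b l
      rw [← mul_assoc, ← mul_pow, inv_mul_cancel₀ hd, one_pow, one_mul]
  choose d x y hd hP using hN
  have hOnj : ∀ j, OnW (X.W j) (⟨C.bp b, x j, y j⟩ : Pt s K) := by
    intro j
    rw [← hP j]
    exact OnW_smul (hX.W j) (hr.on j) (hd j)
  have hy : ∀ j, y j ^ 2 = b (rhs C x j) := by
    intro j
    have h1 := (hOnj j).2.2
    rw [ev_rhs]
    change y j ^ 2 = x j ^ 3 - 3 * ev (X.W j).a (C.bp b) * x j - 2 * ev (X.W j).b (C.bp b) at h1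
    have h2 := ev_bp (C.col j) b (X.W j).a
    have h3 := ev_bp (C.col j) b (X.W j).b
    rw [Cht.col_bp] at h2 h3
    rw [h2, h3] at h1
    exact h1
  have hrow : ∀ y' : Fin c → K, (∀ j, y' j ^ 2 = b (rhs C x j)) → OnX X (rowc C b x y') := by
    intro y' hy'
    exact rowc_on C (x := x) hbp hy'
  have hcls : clsX X (Function.update Q i r) = clsX X (Function.update Q i (rowc C b x y)) := by
    symm
    refine cls_scale_all (hupd hr) (fun l => ?_) (fun l j => ?_)
    · by_cases hl : l = i
      · rw [hl, Function.update_self, Function.update_self]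
        exact hb.symm
      · rw [Function.update_of_ne hl, Function.update_of_ne hl]
    · by_cases hl : l = i
      · rw [hl, Function.update_self, Function.update_self]
        exact ⟨d j, hd j, (hP j).symm⟩
      · rw [Function.update_of_ne hl, Function.update_of_ne hl]
        exact ⟨1, one_ne_zero, (ex_one _ _).symm⟩
  rw [hcls]
  -- the function `p`
  have hbU : b ∉ C.U := by
    intro hbU
    apply hbp
    funext l
    change b (C.t l) = 0
    by_cases h0 : C.t l = 0
    · rw [h0, map_zero]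
    · have h1 := C.ord l h0
      have h2 : b ∈ X.v l • C.U := Multiset.mem_nsmul.mpr ⟨(hX.v l).ne', hbU⟩
      exact (mem_zk P h0 b).mp (Multiset.mem_of_le h1 h2)
  obtain ⟨c0, hc0⟩ := ex_other P b
  set F : Finset (R →ₐ[K] K) := ((hfin.toFinset ∪ C.U.toFinset) ∪ {c0}).erase b with hF
  obtain ⟨g, hbg, hg⟩ := ex_avoid b F (Finset.notMem_erase _ _)
  set w : K := ∏ j, y j with hw
  set Q' : R := ∏ j, rhs C x j with hQ'
  set q : (R →ₐ[K] K) → Polynomial K := fun c => (Polynomial.C w + Polynomial.C (c g) * Polynomial.X) ^ 2 +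
    Polynomial.C (-(c Q')) with hq
  obtain ⟨lam, hlam⟩ := Infinite.exists_notMem_finset (F.biUnion fun c => (q c).roots.toFinset)
  have hlq : ∀ c ∈ F, (q c).eval lam ≠ 0 := fun c hc hh => hlam (Finset.mem_biUnion.mpr ⟨c, hc,
    Multiset.mem_toFinset.mpr ((Polynomial.mem_roots (ex_quad (hg c hc))).mpr hh)⟩)
  set p : R := algebraMap K R w + lam • g with hp
  have hcp : ∀ c : R →ₐ[K] K, c p = w + lam * c g := by
    intro c
    rw [hp, map_add, AlgHom.commutes, Algebra.algebraMap_self_apply, map_smul, smul_eq_mul]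
  have hcN : ∀ c : R →ₐ[K] K, c (p ^ 2 - Q') = (q c).eval lam := by
    intro c
    rw [map_sub, map_pow, hcp, hq]
    simp only [Polynomial.eval_add, Polynomial.eval_mul, Polynomial.eval_C, Polynomial.eval_pow, Polynomial.eval_X]
    ring
  have hc0F : c0 ∈ F := Finset.mem_erase.mpr ⟨hc0, Finset.mem_union_right _ (Finset.mem_singleton_self c0)⟩
  have hN0 : p ^ 2 - Q' ≠ 0 := by
    intro h0
    have h1 := hlq c0 hc0F
    rw [← hcN, h0, map_zero] at h1
    exact h1 rfl
  have hzF : ∀ c ∈ zk K (p ^ 2 - Q'), c ∉ F := by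
    intro c hc hcF
    apply hlq c hcF
    rw [← hcN]
    exact (mem_zk P hN0 c).mp hc
  have hzb : ∀ c ∈ zk K (p ^ 2 - Q'), C.bp c ≠ 0 := by
    intro c hc
    by_cases hcb : c = b
    · rw [hcb]
      exact hbp
    · have hcU : c ∉ C.U := fun hcU => hzF c hc (Finset.mem_erase.mpr ⟨hcb, Finset.mem_union_left _ (Finset.mem_union_right _
        (Multiset.mem_toFinset.mpr hcU))⟩)
      obtain ⟨l, hl⟩ := C.nz c hcU
      exact fun h0 => hl (congrFun h0 l)
  have hbN : b ∈ zk K (p ^ 2 - Q') := by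
    rw [mem_zk P hN0, map_sub, map_pow, hcp, hbg, mul_zero, add_zero, hw, ← Finset.prod_pow, hQ', map_prod,
      Finset.prod_congr rfl fun j _ => hy j, sub_self]
  obtain ⟨I, hI1, hI2, hI3⟩ := fam_e C hX hk hinf hQ i x p hN0 hzb
  -- the rows over `b`
  set Φ : (Fin c → K) → B' := fun y' => h (clsX X (Function.update Q i (rowc C b x y'))) with hΦ
  have hyM : y ∈ solM (fun j => b (rhs C x j)) (b p) := by
    refine mem_solM.2 ⟨hy, ?_⟩
    rw [hcp, hbg, mul_zero, add_zero]
  have hconst : ∀ y' ∈ solM (fun j => b (rhs C x j)) (b p), Φ y' = Φ y := by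
    intro y' hy'
    refine sol_const (r := fun j => b (rhs C x j)) (q := b p) (fun N z hN hz => hB z N hN hz) Φ ?_ hy' hyM
    intro y'' j hy''
    have h1 := clsX_neg hX hk (hupd (hrow y'' hy'')) i j
    have h2 : setP (Function.update Q i (rowc C b x y'')) i j ((Function.update Q i (rowc C b x y'') i).P j).neg =
        Function.update Q i (rowc C b x (Function.update y'' j (-y'' j))) := by
      unfold setP
      funext l
      by_cases hl : l = i
      · rw [hl, Function.update_self, Function.update_self, Function.update_self]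
        refine Row.ext rfl ?_
        funext j'
        show Function.update (rowc C b x y'').P j ((rowc C b x y'').P j).neg j' = _
        by_cases hj : j' = j
        · subst hj
          rw [Function.update_self]
          refine Pt.ext rfl rfl ?_
          show -(y'' j') = Function.update y'' j' (-y'' j') j'
          rw [Function.update_self]
        · rw [Function.update_of_ne hj]
          refine Pt.ext rfl rfl ?_
          show y'' j' = Function.update y'' j (-y'' j) j'
          rw [Function.update_of_ne hj]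
      · rw [Function.update_of_ne hl, Function.update_of_ne hl, Function.update_of_ne hl]
    rw [h2] at h1
    show h _ = - h _
    rw [h1, map_neg]
  have hval : ∀ e ∈ I, (fun e : (R →ₐ[K] K) × (Fin c → K) => h (clsX X (Function.update Q i (rowc C e.1 x e.2)))) e = 0 ∨
      (fun e : (R →ₐ[K] K) × (Fin c → K) => h (clsX X (Function.update Q i (rowc C e.1 x e.2)))) e = Φ y := by
    rintro ⟨c1, y1⟩ he
    obtain ⟨h1, h2⟩ := hI1 _ he
    by_cases hcb : c1 = b
    · subst hcb
      exact Or.inr (hconst y1 h2)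
    · left
      by_contra hne
      apply hzF c1 h1
      refine Finset.mem_erase.mpr ⟨hcb, Finset.mem_union_left _ (Finset.mem_union_left _ (hfin.mem_toFinset.mpr ?_))⟩
      exact ⟨rowc C c1 x y1, rowc_on C (x := x) (hzb c1 h1) (mem_solM.1 h2).1, rfl, hne⟩
  obtain ⟨e, he, he1⟩ := hI2 b hbN
  have hexi : ∃ e ∈ I, (fun e : (R →ₐ[K] K) × (Fin c → K) => h (clsX X (Function.update Q i (rowc C e.1 x e.2)))) e = Φ y := by
    refine ⟨e, he, ?_⟩
    obtain ⟨h1, h2⟩ := hI1 _ he
    have h3 := hconst e.2 (by rw [he1] at h2; exact h2)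
    show h (clsX X (Function.update Q i (rowc C e.1 x e.2))) = Φ y
    rw [he1]
    exact h3
  obtain ⟨M, hM, hsum⟩ := ex_sum I _ (Φ y) hval hexi
  have h5 := congrArg h hI3
  rw [map_zero, map_multiset_sum, Multiset.map_map] at h5
  refine hB _ M hM ?_
  show M • Φ y = 0
  rw [← hsum]
  exact h5

end FX
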