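import Mathlib

/-! # FX.Sol : square roots of `r_j` with given product (complete) -/

namespace FX

variable {c : ℕ}

/-- the square roots `y_j` of the `r_j` with product `q` -/
def sol {F : Type} [Field F] (r : Fin c → F) (q : F) : Set (Fin c → F) := {y | (∀ j, y j ^ 2 = r j) ∧ ∏ j, y j = q}

theorem sol_fin {F : Type} [Field F] (r : Fin c → F) (q : F) : (sol r q).Finite := by
  have h1 : ∀ j, {y : F | y ^ 2 = r j}.Finite := by
    intro j
    refine (Polynomial.finite_setOf_isRoot (p := Polynomial.X ^ 2 - Polynomial.C (r j))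
      (Polynomial.X_pow_sub_C_ne_zero (by norm_num) _)).subset ?_
    intro y hy
    show (Polynomial.X ^ 2 - Polynomial.C (r j)).eval y = 0
    rw [Polynomial.eval_sub, Polynomial.eval_pow, Polynomial.eval_X, Polynomial.eval_C]
    exact sub_eq_zero.2 hy
  refine (Set.Finite.pi h1).subset ?_
  rintro y ⟨hy, -⟩ j -
  exact hy j

/-- the multiset of the solutions -/
noncomputable def solM {F : Type} [Field F] (r : Fin c → F) (q : F) : Multiset (Fin c → F) := (sol_fin r q).toFinset.val

theorem mem_solM {F : Type} [Field F] {r : Fin c → F} {q : F} {y : Fin c → F} : y ∈ solM r q ↔ (∀ j, y j ^ 2 = r j) ∧ ∏ j, y j = q := by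
  unfold solM
  rw [Finset.mem_val, Set.Finite.mem_toFinset]
  rfl

theorem solM_map {F : Type} [Field F] (σ : F ≃+* F) (r : Fin c → F) (q : F) :
    (solM r q).map (fun y j => σ (y j)) = solM (fun j => σ (r j)) (σ q) := by
  have hinj : Function.Injective (fun (y : Fin c → F) j => σ (y j)) := by
    intro y y' h
    funext j
    exact σ.injective (congrFun h j)
  refine (Multiset.Nodup.ext ?_ ?_).2 ?_
  · exact Multiset.Nodup.map hinj (Finset.nodup _)
  · exact Finset.nodup _
  · intro y
    rw [Multiset.mem_map, mem_solM]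
    constructor
    · rintro ⟨y', h, rfl⟩
      obtain ⟨h1, h2⟩ := mem_solM.1 h
      refine ⟨fun j => ?_, ?_⟩
      · rw [← map_pow, h1]
      · rw [← map_prod, h2]
    · rintro ⟨h1, h2⟩
      refine ⟨fun j => σ.symm (y j), mem_solM.2 ⟨fun j => ?_, ?_⟩, ?_⟩
      · rw [← map_pow, h1, RingEquiv.symm_apply_apply]
      · rw [← map_prod, h2, RingEquiv.symm_apply_apply]
      · funext j
        exact σ.apply_symm_apply _

theorem sol_ex {F : Type} [Field F] [IsAlgClosed F] (j0 : Fin c) {r : Fin c → F} {q : F} (h : q ^ 2 = ∏ j, r j) :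
    ∃ y, y ∈ solM r q := by
  have h1 : ∀ j, ∃ y : F, y ^ 2 = r j := fun j => IsAlgClosed.exists_pow_nat_eq (r j) (by norm_num)
  choose y hy using h1
  have h2 : (∏ j, y j) ^ 2 = q ^ 2 := by
    rw [← Finset.prod_pow, h]
    exact Finset.prod_congr rfl fun j _ => hy j
  rcases sq_eq_sq_iff_eq_or_eq_neg.1 h2 with h3 | h3
  · exact ⟨y, mem_solM.2 ⟨hy, h3⟩⟩
  · refine ⟨Function.update y j0 (-y j0), mem_solM.2 ⟨fun j => ?_, ?_⟩⟩
    · by_cases hj : j = j0
      · subst hj
        rw [Function.update_self, neg_sq, hy]
      · rw [Function.update_of_ne hj, hy]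
    · rw [Finset.prod_update_of_mem (Finset.mem_univ j0)]
      have h4 : ∏ j, y j = y j0 * ∏ j ∈ Finset.univ \ {j0}, y j :=
        Finset.prod_eq_mul_prod_sdiff_singleton j0 y (fun hh => absurd (Finset.mem_univ j0) hh)
      rw [h4] at h3
      rw [neg_mul, h3, neg_neg]

/-- a function on the solutions which changes sign with every coordinate is constant on `sol r q` -/
theorem sol_const {K : Type} [Field K] [CharZero K] {B' : Type} [AddCommGroup B'] (hB : ∀ (N : ℕ) (z : B'), 0 < N → N • z = 0 → z = 0)
    {r : Fin c → K} {q : K} (Φ : (Fin c → K) → B')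
    (hΦ : ∀ (y : Fin c → K) (j : Fin c), (∀ l, y l ^ 2 = r l) → Φ (Function.update y j (-y j)) = -Φ y) {y y' : Fin c → K}
    (hy : y ∈ solM r q) (hy' : y' ∈ solM r q) : Φ y = Φ y' := by
  obtain ⟨h1, h2⟩ := mem_solM.1 hy
  obtain ⟨h3, h4⟩ := mem_solM.1 hy'
  have hz : ∀ (w : Fin c → K) (j : Fin c), (∀ l, w l ^ 2 = r l) → w j = 0 → Φ w = 0 := by
    intro w j hw h0
    have h5 := hΦ w j hw
    rw [h0, neg_zero] at h5
    have h6 : Function.update w j 0 = w := by
      rw [← h0, Function.update_eq_self]
    rw [h6] at h5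
    refine hB 2 _ (by norm_num) ?_
    rw [two_nsmul]
    exact eq_neg_iff_add_eq_zero.1 h5
  by_cases h0 : ∃ j, y j = 0
  · obtain ⟨j, hj⟩ := h0
    have hj' : y' j = 0 := by
      have h5 := h3 j
      rw [← h1 j, hj, zero_pow (by norm_num)] at h5
      exact pow_eq_zero_iff (by norm_num) |>.1 h5
    rw [hz y j h1 hj, hz y' j h3 hj']
  · push Not at h0
    classical
    have hflip : ∀ S : Finset (Fin c), (∀ l, (if l ∈ S then -y l else y l) ^ 2 = r l) ∧
        Φ (fun l => if l ∈ S then -y l else y l) = (-1 : ℤ) ^ S.card • Φ y := by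
      intro S
      induction S using Finset.induction_on with
      | empty => exact ⟨fun l => by simp [h1 l], by simp⟩
      | insert a S ha ih =>
        obtain ⟨ih1, ih2⟩ := ih
        have e : (fun l => if l ∈ insert a S then -y l else y l) =
            Function.update (fun l => if l ∈ S then -y l else y l) a (-(fun l => if l ∈ S then -y l else y l) a) := by
          funext l
          by_cases hl : l = a
          · subst hl
            rw [Function.update_self]
            simp [ha]
          · rw [Function.update_of_ne hl]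
            simp [hl]
        refine ⟨fun l => ?_, ?_⟩
        · split_ifs
          · rw [neg_sq, h1]
          · exact h1 l
        · rw [e, hΦ _ a ih1, ih2, Finset.card_insert_of_notMem ha, pow_succ, mul_neg_one, neg_smul]
    have hyy : y' = fun l => if l ∈ Finset.univ.filter (fun j => y' j ≠ y j) then -y l else y l := by
      funext l
      simp only [Finset.mem_filter, Finset.mem_univ, true_and]
      by_cases hl : y' l = y l
      · rw [if_neg (by simpa using hl), hl]
      · rw [if_pos hl]
        have h5 : y' l ^ 2 = y l ^ 2 := by rw [h3, h1]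
        rcases sq_eq_sq_iff_eq_or_eq_neg.1 h5 with h6 | h6
        · exact absurd h6 hl
        · exact h6
    have hp : ∏ j, y' j = (-1) ^ (Finset.univ.filter (fun j => y' j ≠ y j)).card * ∏ j, y j := by
      conv_lhs => rw [hyy]
      have e : ∀ l, (if l ∈ Finset.univ.filter (fun j => y' j ≠ y j) then -y l else y l) =
          (if l ∈ Finset.univ.filter (fun j => y' j ≠ y j) then (-1 : K) else 1) * y l := by
        intro l
        split_ifs
        · rw [neg_one_mul]
        · rw [one_mul]
      rw [Finset.prod_congr rfl fun l _ => e l, Finset.prod_mul_distrib, Finset.prod_ite_mem, Finset.univ_inter, Finset.prod_const]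
    have hq : q ≠ 0 := by
      rw [← h2]
      exact Finset.prod_ne_zero_iff.2 fun j _ => h0 j
    rw [h4, h2] at hp
    have h7 : ((-1 : K)) ^ (Finset.univ.filter (fun j => y' j ≠ y j)).card = 1 := by
      apply mul_right_cancel₀ hq
      rw [← hp, one_mul]
    have h8 : Even (Finset.univ.filter (fun j => y' j ≠ y j)).card := by
      rcases Nat.even_or_odd (Finset.univ.filter (fun j => y' j ≠ y j)).card with h9 | h9
      · exact h9
      · rw [h9.neg_one_pow] at h7
        exact absurd h7 (by norm_num)
    have h10 := (hflip (Finset.univ.filter (fun j => y' j ≠ y j))).2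
    rw [← hyy, h8.neg_one_pow, one_smul] at h10
    exact h10.symm

end FX
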