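import Pool.Agent.H99.GC.Fam1
import Pool.Agent.H79.FX.Cht
import Pool.Agent.H8.FX.Slt
import Pool.Agent.H67.EX.Sol

/-! # FX.FamE : the rows over the curve `x_j` constant, `y_j^2 = R_j`, `∏ y_j = q` with moving `q` (complete)

`R_j = x_j^3 - 3 x_j A_j - 2 B_j ∈ R`, `N = (p + i - 1)^2 - ∏ R_j ∈ Om K ⊗ R` with `i = tt⁻¹`; rows `(bp β; (x_j, y_j))`, `β ∈ zr N`, `y_j^2 = β(R_j)`, `∏ y_j = β(p) + i - 1`.
At `π1` (`i ↦ 1`) `N` reduces to `p^2 - ∏ R_j`; at `π0` (`tt ↦ 0`) `tt^2 N` reduces to `1`: all `β` go to infinity. -/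

namespace FX

open ES H68.BB GB Module TensorProduct

open H67.KH (rd_cst sigma_cst sigma_tt)

variable {K : Type} [Field K] [IsAlgClosed K] {s c k : ℕ} {X : XD K s c} {R : Type} [CommRing R] [Algebra K R] {P : OnePt K R} (C : Cht X P)

/-- the row over a point of the chart with given affine coordinates -/
def rowc {F : Type} [Field F] [Algebra K F] (β : R →ₐ[K] F) (x y : Fin c → F) : Row s c F := ⟨C.bp β, fun j => ⟨C.bp β, x j, y j⟩⟩

/-- the right-hand side of the `j`-th equation at `x_j` -/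
noncomputable def rhs (x : Fin c → K) (j : Fin c) : R := algebraMap K R (x j ^ 3) - (3 * x j) • C.A j - (2 : K) • C.B j

omit [IsAlgClosed K] in
theorem over_self {F : Type} [Field F] (v : Fin s → ℕ) (β : Fin s → F) : Over v β β := by
  refine Or.inr ⟨1, one_ne_zero, ?_⟩
  funext i
  rw [one_pow, one_mul]

theorem ev_rhs {F : Type} [Field F] [Algebra K F] (β : R →ₐ[K] F) (x : Fin c → K) (j : Fin c) :
    β (rhs C x j) = algebraMap K F (x j) ^ 3 - 3 * β (C.A j) * algebraMap K F (x j) - 2 * β (C.B j) := by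
  unfold rhs
  rw [map_sub, map_sub, AlgHom.commutes, map_smul, map_smul, Algebra.smul_def, Algebra.smul_def, map_pow, map_mul, map_ofNat, map_ofNat]
  ring

theorem rowc_on {F : Type} [Field F] [Algebra K F] {β : R →ₐ[K] F} {x : Fin c → K} {y : Fin c → F} (h0 : C.bp β ≠ 0)
    (h : ∀ j, y j ^ 2 = β (rhs C x j)) : OnX X (rowc C β (fun j => algebraMap K F (x j)) y) := by
  refine ⟨h0, fun f hf => ?_, fun j => ?_, fun j => over_self _ _⟩
  · show ev f (C.bp β) = 0
    have h1 : ev f (C.bp β) = β (MvPolynomial.aeval C.t f) := MvPolynomial.comp_aeval_apply C.t β f |>.symm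
    rw [h1, C.I f hf, map_zero]
  · refine onW_bp (C.col j) (Or.inl h0) ?_
    have h1 := h j
    rw [ev_rhs] at h1
    exact h1

/-- a place where `β` is not integral: the base point specialises to the point at infinity -/
theorem spV_out {π : Place K (Om K)} {β : R →ₐ[K] Om K} {f : R} (hβ : β f ∉ π.V) (j0 : Fin c) : SpV X.v π (C.bp β) C.inf := by
  obtain ⟨c₁, hc₁, -, h1, h2⟩ := inf_scale P hβ
  refine ⟨inf_ne (C.col j0), c₁ ^ C.m, pow_ne_zero _ hc₁, ?_⟩
  intro i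
  have e : (c₁ ^ C.m) ^ X.v i * C.bp β i = c₁ ^ (C.m * X.v i) * β (C.t i) := by
    rw [← pow_mul]; rfl
  rw [e]
  unfold Cht.inf
  by_cases h0 : C.t i = 0
  · have e2 : (if P.deg (C.t i) = C.m * X.v i then P.lc (C.t i) else 0) = 0 := by
      rw [h0, P.lc_zero]; split_ifs <;> rfl
    rw [e2, h0, map_zero, mul_zero]
    exact Rd.zero
  · by_cases hd : P.deg (C.t i) = C.m * X.v i
    · rw [if_pos hd, ← hd]
      exact h1 _ h0
    · rw [if_neg hd]
      refine h2 _ _ (Or.inr ?_)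
      rcases C.deg i with h3 | h3
      · exact absurd h3 h0
      · omega

theorem bp_ne_of_out {π : Place K (Om K)} {β : R →ₐ[K] Om K} {f : R} (hβ : β f ∉ π.V) (j0 : Fin c) : C.bp β ≠ 0 := by
  intro h0
  obtain ⟨hne, d, -, hd⟩ := spV_out C hβ j0
  apply hne
  funext i
  have h1 := hd i
  rw [h0, Pi.zero_apply, mul_zero] at h1
  exact h1.unique Rd.zero

theorem bp_ne_of_rd {π : Place K (Om K)} {β : R →ₐ[K] Om K} {b : R →ₐ[K] K} (hβ : RdP π β b) (h : C.bp b ≠ 0) : C.bp β ≠ 0 := by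
  intro h0
  apply h
  funext i
  have h1 := hβ (C.t i)
  have h2 : β (C.t i) = 0 := congrFun h0 i
  rw [h2] at h1
  exact h1.unique Rd.zero

/-- a row over a point which goes to infinity has a limit of class zero if there is a singular fibre at infinity -/
theorem out_lim [CharZero K] (hX : X.Ok) (hk : 0 < k) {j0 : Fin c} (hinf : dd (X.W j0) C.inf = 0) {T : Fin k → Row s c K} (hT : ∀ l, OnX X (T l)) (i : Fin k)
    {π : Place K (Om K)} {β : R →ₐ[K] Om K} {f : R} (hβ : β f ∉ π.V) {r : Row s c (Om K)} (hr : OnX X r) (hrβ : r.β = C.bp β) :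
    ∃ r0 : Row s c K, SpR X π r r0 ∧ clsX X (Function.update T i r0) = 0 := by
  obtain ⟨q, hq⟩ := SpR_exists hX π hr
  have h1 : SpR X π r ⟨C.inf, q.P⟩ := ⟨by rw [hrβ]; exact spV_out C hβ j0, hq.P⟩
  have h2 := SpR_onX hX hr h1
  refine ⟨_, h1, clsX_sing hX hk (i := i) (j := j0) ?_ ?_⟩
  · intro l
    by_cases hl : l = i
    · rw [hl, Function.update_self]
      exact h2
    · rw [Function.update_of_ne hl]
      exact hT l
  · rw [Function.update_self]
    exact hinf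

omit [IsAlgClosed K] in
/-- relations in one slot -/
theorem slotR_eq {T : Fin k → Row s c K} (hT : ∀ l, OnX X (T l)) (i : Fin k) {A : Multiset (Row s c (Om K))} {B B' : Multiset (Row s c K)}
    {π π' : Place K (Om K)} (hA : ∀ r ∈ A, OnX X r) (hG : ∀ σ : Om K ≃ₐ[RatFunc K] Om K, A.map (Row.map σ) = A)
    (h : Multiset.Rel (SpR X π) A B) (h' : Multiset.Rel (SpR X π') A B') :
    (B.map (fun r => clsX X (Function.update T i r))).sum = (B'.map (fun r => clsX X (Function.update T i r))).sum := by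
  set F : Row s c (Om K) → Fin k → Row s c (Om K) := fun r => Function.update (fun l => (T l).map (algebraMap K (Om K))) i r with hF
  have hsp : ∀ (π : Place K (Om K)) (r : Row s c (Om K)) (q : Row s c K), SpR X π r q → SpX X π (F r) (Function.update T i q) := by
    intro π r q hq l
    simp only [hF]
    by_cases hl : l = i
    · subst hl
      rw [Function.update_self, Function.update_self]
      exact hq
    · rw [Function.update_of_ne hl, Function.update_of_ne hl]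
      exact SpR_cst π (hT l)
  refine LimX.eq (S := A.map F) (π := π) (π' := π') ?_ ?_ ?_ ?_
  · intro Q hQ l
    obtain ⟨r, hr, rfl⟩ := Multiset.mem_map.1 hQ
    simp only [hF]
    by_cases hl : l = i
    · subst hl
      rw [Function.update_self]
      exact hA r hr
    · rw [Function.update_of_ne hl]
      exact OnX_cst (hT l)
  · intro σ
    rw [Multiset.map_map]
    have e : ((fun (Q : Fin k → Row s c (Om K)) l => (Q l).map σ) ∘ F) = F ∘ Row.map σ := by
      funext r l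
      simp only [Function.comp, hF]
      by_cases hl : l = i
      · subst hl
        rw [Function.update_self, Function.update_self]
      · rw [Function.update_of_ne hl, Function.update_of_ne hl]
        exact map_cstR σ (T l)
    rw [e, ← Multiset.map_map, hG σ]
  · exact LimX.map h _ _ (fun r _ q _ hq => hsp π r q hq)
  · exact LimX.map h' _ _ (fun r _ q _ hq => hsp π' r q hq)

/-- the equation of the moving points -/
noncomputable def NNe (p Q : R) (v : Om K) : Om K ⊗[K] R := ((1 : Om K) ⊗ₜ[K] p + v ⊗ₜ[K] (1 : R)) ^ 2 - (1 : Om K) ⊗ₜ[K] Q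

omit [IsAlgClosed K] in
theorem ev_NNe (p Q : R) (v : Om K) (β : R →ₐ[K] Om K) : evF β (NNe p Q v) = (β p + v) ^ 2 - β Q := by
  unfold NNe
  rw [map_sub, map_pow, map_add, evF_tmul, evF_tmul, evF_tmul, map_one, mul_one, one_mul, one_mul]

omit [IsAlgClosed K] in
theorem gal_NNe (p Q : R) {v : Om K} (σ : Om K ≃ₐ[K] Om K) (h : σ v = v) : gal σ (NNe p Q v) = NNe p Q v := by
  have e1 : ∀ (c : Om K) (f : R), gal σ (c ⊗ₜ[K] f) = (σ c) ⊗ₜ[K] f := fun c f => rfl
  unfold NNe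
  rw [map_sub, map_pow, map_add, e1, e1, e1, map_one, h]

omit [IsAlgClosed K] in
theorem rdR_sub {π : Place K (Om K)} {x y : Om K ⊗[K] R} {x' y' : R} (hx : RdR π P x x')
    (hy : RdR π P y y') : RdR π P (x - y) (x' - y') := by
  rw [sub_eq_add_neg, sub_eq_add_neg]
  exact hx.add hy.neg

omit [IsAlgClosed K] in
theorem rd_NNe {π : Place K (Om K)} (p Q : R) {v : Om K} (hv : Rd π.V π.φ v 0) : RdR π P (NNe p Q v) (p ^ 2 - Q) := by
  have h1 : RdR π P ((1 : Om K) ⊗ₜ[K] p + v ⊗ₜ[K] (1 : R)) p := by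
    have h := (RdR.one_tmul (π := π) (P := P) p).add (RdR.tmul (P := P) hv 1)
    rwa [zero_smul, add_zero] at h
  unfold NNe
  rw [pow_two, pow_two]
  exact rdR_sub (h1.mul h1) (RdR.one_tmul Q)

omit [IsAlgClosed K] in
theorem rd_NNe' {π : Place K (Om K)} (p Q : R) {v t : Om K} (ht : Rd π.V π.φ t 0) (hv : Rd π.V π.φ (t * v) 1) :
    RdR π P ((t ^ 2) ⊗ₜ[K] (1 : R) * NNe p Q v) 1 := by
  have h1 : RdR π P (t ⊗ₜ[K] p + (t * v) ⊗ₜ[K] (1 : R)) 1 := by
    have h := (RdR.tmul (P := P) ht p).add (RdR.tmul (P := P) hv 1)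
    rwa [zero_smul, zero_add, one_smul] at h
  have h2 : RdR π P ((t ^ 2) ⊗ₜ[K] Q) 0 := by
    have h := RdR.tmul (P := P) (ht.pow 2) Q
    rwa [zero_pow (by norm_num), zero_smul] at h
  have e : (t ^ 2) ⊗ₜ[K] (1 : R) * NNe p Q v = (t ⊗ₜ[K] p + (t * v) ⊗ₜ[K] (1 : R)) * (t ⊗ₜ[K] p + (t * v) ⊗ₜ[K] (1 : R)) - (t ^ 2) ⊗ₜ[K] Q := by
    have e7 : t ⊗ₜ[K] p + (t * v) ⊗ₜ[K] (1 : R) = t ⊗ₜ[K] (1 : R) * ((1 : Om K) ⊗ₜ[K] p + v ⊗ₜ[K] (1 : R)) := by
      rw [mul_add, Algebra.TensorProduct.tmul_mul_tmul, Algebra.TensorProduct.tmul_mul_tmul, mul_one, one_mul, mul_one]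
    have e8 : (t ^ 2) ⊗ₜ[K] (1 : R) = t ⊗ₜ[K] (1 : R) * t ⊗ₜ[K] (1 : R) := by
      rw [Algebra.TensorProduct.tmul_mul_tmul, one_mul, pow_two]
    have e9 : (t ^ 2) ⊗ₜ[K] Q = (t ^ 2) ⊗ₜ[K] (1 : R) * (1 : Om K) ⊗ₜ[K] Q := by
      rw [Algebra.TensorProduct.tmul_mul_tmul, mul_one, one_mul]
    unfold NNe
    rw [e7, e9, e8]
    ring
  rw [e]
  have h := rdR_sub (h1.mul h1) h2
  rwa [one_mul, sub_zero] at h

private theorem fe_rel {α β : Type} {r : α → β → Prop} {q : β → Prop} (S : Multiset α)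
    (h : ∀ a ∈ S, ∃ b, r a b ∧ q b) : ∃ t : Multiset β, Multiset.Rel r S t ∧ ∀ b ∈ t, q b := by
  induction S using Multiset.induction with
  | empty => exact ⟨0, Multiset.rel_zero_left.2 rfl, fun b hb => absurd hb (Multiset.notMem_zero b)⟩
  | cons a S ih =>
    obtain ⟨t, h1, h2⟩ := ih fun a' ha' => h a' (Multiset.mem_cons_of_mem ha')
    obtain ⟨b, h3, h4⟩ := h a (Multiset.mem_cons_self _ _)
    refine ⟨b ::ₘ t, h1.cons h3, fun b' hb' => ?_⟩
    rcases Multiset.mem_cons.1 hb' with rfl | hb'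
    · exact h4
    · exact h2 b' hb'

/-- the solutions over the zeros -/
private noncomputable def JJ (x : Fin c → K) (p : R) (v : Om K) (Z : Multiset (R →ₐ[K] Om K)) : Multiset ((R →ₐ[K] Om K) × (Fin c → Om K)) :=
  Z.bind fun β => (solM (fun j => β (rhs C x j)) (β p + v)).map fun y => (β, y)

private theorem mem_JJ {x : Fin c → K} {p : R} {v : Om K} {Z : Multiset (R →ₐ[K] Om K)} {q : (R →ₐ[K] Om K) × (Fin c → Om K)} :
    q ∈ JJ C x p v Z ↔ q.1 ∈ Z ∧ (∀ j, q.2 j ^ 2 = q.1 (rhs C x j)) ∧ ∏ j, q.2 j = q.1 p + v := by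
  unfold JJ
  rw [Multiset.mem_bind]
  constructor
  · rintro ⟨β, hβ, h⟩
    obtain ⟨y, hy, rfl⟩ := Multiset.mem_map.1 h
    exact ⟨hβ, mem_solM.1 hy⟩
  · rintro ⟨h1, h2⟩
    exact ⟨q.1, h1, Multiset.mem_map.2 ⟨q.2, mem_solM.2 h2, rfl⟩⟩

theorem fam_e [CharZero K] (hX : X.Ok) (hk : 0 < k) {j0 : Fin c} (hinf : dd (X.W j0) C.inf = 0) {T : Fin k → Row s c K} (hT : ∀ l, OnX X (T l)) (i : Fin k)
    (x : Fin c → K) (p : R) (h0 : p ^ 2 - ∏ j, rhs C x j ≠ 0) (hU : ∀ b ∈ zk K (p ^ 2 - ∏ j, rhs C x j), C.bp b ≠ 0) :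
    ∃ I : Multiset ((R →ₐ[K] K) × (Fin c → K)),
      (∀ q ∈ I, q.1 ∈ zk K (p ^ 2 - ∏ j, rhs C x j) ∧ q.2 ∈ solM (fun j => q.1 (rhs C x j)) (q.1 p)) ∧
      (∀ b ∈ zk K (p ^ 2 - ∏ j, rhs C x j), ∃ q ∈ I, q.1 = b) ∧
      (I.map (fun q => clsX X (Function.update T i (rowc C q.1 x q.2)))).sum = 0 := by
  classical
  obtain ⟨π1, π0, r1, n0, r0, -⟩ := two_places K
  set cs : K →+* Om K := algebraMap K (Om K) with hcs
  have hτ0 : tt K ≠ 0 := by
    intro h
    exact tt_ne K 0 (h.trans (map_zero (algebraMap K (Om K))).symm)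
  set v : Om K := (tt K)⁻¹ - 1 with hv
  set Q : R := ∏ j, rhs C x j with hQ
  have hv1 : Rd π1.V π1.φ v 0 := by
    have h := r1.sub Rd.one
    rwa [sub_self] at h
  have hv0 : Rd π0.V π0.φ (tt K * v) 1 := by
    have e : tt K * v = 1 - tt K := by
      rw [hv, mul_sub, mul_inv_cancel₀ hτ0, mul_one]
    rw [e]
    have h := (Rd.one (V := π0.V) (φ := π0.φ)).sub r0
    rwa [sub_zero] at h
  have hR1 := rd_NNe (P := P) p Q hv1
  have hR0 := rd_NNe' (P := P) p Q r0 hv0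
  have hN0 : NNe p Q v ≠ 0 := by
    intro h
    rw [h] at hR1
    apply h0
    have h2 : ∀ j, P.e.repr (p ^ 2 - Q) j = 0 := by
      intro j
      have h3 := hR1 j
      rw [map_zero, Finsupp.zero_apply] at h3
      exact (Rd.zero.unique h3).symm
    have h4 : P.e.repr (p ^ 2 - Q) = 0 := Finsupp.ext h2
    exact (LinearEquiv.map_eq_zero_iff _).1 h4
  set Z := zr (NNe p Q v) with hZ
  -- the rows
  set J := JJ C x p v Z with hJ
  set f : (R →ₐ[K] Om K) × (Fin c → Om K) → Row s c (Om K) := fun q => rowc C q.1 (fun j => cs (x j)) q.2 with hf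
  -- the place `π1`
  obtain ⟨S, T', hST, hrS, hrT⟩ := zr_rd P hR1 h0 hN0
  obtain ⟨g, hg⟩ : ∃ g : R, 0 < P.deg g := by
    obtain ⟨N, hN⟩ := P.big
    obtain ⟨g, _, hg⟩ := hN (N + 1) (Nat.le_succ N)
    exact ⟨g, by omega⟩
  have hbp : ∀ β ∈ Z, C.bp β ≠ 0 := by
    intro β hβ
    rw [hZ, hST, Multiset.mem_add] at hβ
    rcases hβ with hβ | hβ
    · obtain ⟨b, hb, hr⟩ := Multiset.exists_mem_of_rel_of_mem hrS hβ
      exact bp_ne_of_rd C hr (hU b hb)
    · exact bp_ne_of_out C (hrT β hβ g hg) j0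
  have hon : ∀ q ∈ J, OnX X (f q) := by
    intro q hq
    obtain ⟨h1, h2, -⟩ := (mem_JJ C).1 hq
    exact rowc_on C (hbp _ h1) h2
  have hG : ∀ σ : Om K ≃ₐ[RatFunc K] Om K, (J.map f).map (Row.map σ) = J.map f := by
    intro σ
    have e1 : ∀ c : K, σ (cs c) = cs c := fun c => sigma_cst σ c
    have e2 : σ v = v := by
      rw [hv, map_sub, map_one, map_inv₀, sigma_tt]
    set σ' : Om K ≃ₐ[K] Om K := σ.restrictScalars K with hσ
    set act : (R →ₐ[K] Om K) × (Fin c → Om K) → (R →ₐ[K] Om K) × (Fin c → Om K) := fun q => ((σ' : Om K →ₐ[K] Om K).comp q.1, fun j => σ (q.2 j)) with hact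
    have h2 : Z.map (fun β => (σ' : Om K →ₐ[K] Om K).comp β) = Z := by
      have h3 := zr_gal P σ' hN0
      rw [gal_NNe p Q σ' (show σ' v = v from e2)] at h3
      exact h3
    have h4 : J.map act = J := by
      rw [hJ]
      unfold JJ
      rw [Multiset.map_bind]
      conv_rhs => rw [← h2, Multiset.bind_map]
      refine Multiset.bind_congr fun β _ => ?_
      rw [Multiset.map_map]
      have h5 := solM_map (σ : Om K ≃+* Om K) (fun j => β (rhs C x j)) (β p + v)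
      have h6 : (σ : Om K ≃+* Om K) (β p + v) = ((σ' : Om K →ₐ[K] Om K).comp β) p + v := by
        rw [map_add]
        show σ (β p) + σ v = σ (β p) + v
        rw [e2]
      rw [h6] at h5
      have h7 : (fun j => (σ : Om K ≃+* Om K) (β (rhs C x j))) = fun j => ((σ' : Om K →ₐ[K] Om K).comp β) (rhs C x j) := rfl
      rw [h7] at h5
      rw [← h5, Multiset.map_map]
      rfl
    have h8 : Row.map σ ∘ f = f ∘ act := by
      funext q
      refine Row.ext rfl ?_
      funext j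
      refine Pt.ext rfl ?_ rfl
      exact e1 (x j)
    rw [Multiset.map_map, h8, ← Multiset.map_map, h4]
  -- the limits at `π1`
  have hsplit : J = JJ C x p v S + JJ C x p v T' := by
    rw [hJ, hZ, hST]
    unfold JJ
    rw [Multiset.add_bind]
  have hT'Z : ∀ β ∈ T', β ∈ Z := by
    intro β hβ
    rw [hZ, hST]
    exact Multiset.mem_add.2 (Or.inr hβ)
  have hSZ : ∀ β ∈ S, β ∈ Z := by
    intro β hβ
    rw [hZ, hST]
    exact Multiset.mem_add.2 (Or.inl hβ)
  obtain ⟨I, hI, hI2⟩ := fe_rel (r := fun (a : (R →ₐ[K] Om K) × (Fin c → Om K)) (b : (R →ₐ[K] K) × (Fin c → K)) => RdP π1 a.1 b.1 ∧ SpR X π1 (f a) (rowc C b.1 x b.2))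
    (q := fun b => b.1 ∈ zk K (p ^ 2 - Q) ∧ b.2 ∈ solM (fun j => b.1 (rhs C x j)) (b.1 p)) (JJ C x p v S) (by
    intro a ha
    obtain ⟨h1, h2, h3⟩ := (mem_JJ C).1 ha
    obtain ⟨b, hb, hr⟩ := Multiset.exists_mem_of_rel_of_mem hrS h1
    have hy : ∀ j, a.2 j ∈ π1.V := by
      intro j
      refine mem_of_pow (n := 2) (by norm_num) ?_
      rw [h2 j]
      exact (hr _).mem
    have hy2 : ∀ j, Rd π1.V π1.φ (a.2 j) (π1.φ ⟨_, hy j⟩) := fun j => Rd.of_mem (hy j)
    refine ⟨(b, fun j => π1.φ ⟨_, hy j⟩), ⟨hr, ?_, ?_⟩, hb, mem_solM.2 ⟨?_, ?_⟩⟩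
    · refine ⟨hU b hb, 1, one_ne_zero, fun l => ?_⟩
      rw [one_pow, one_mul]
      exact hr (C.t l)
    · intro j
      exact Sp_fin (Or.inl (hU b hb)) (fun l => hr (C.t l)) (rd_cst π1 (x j)) (hy2 j)
    · intro j
      have h4 := (hy2 j).pow 2
      rw [h2 j] at h4
      exact h4.unique (hr _)
    · have h4 : Rd π1.V π1.φ (∏ j, a.2 j) (∏ j, π1.φ ⟨_, hy j⟩) := by
        have h5 : ∀ S : Finset (Fin c), Rd π1.V π1.φ (∏ j ∈ S, a.2 j) (∏ j ∈ S, π1.φ ⟨_, hy j⟩) := by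
          intro S
          induction S using Finset.induction_on with
          | empty => rw [Finset.prod_empty, Finset.prod_empty]; exact Rd.one
          | insert l S hl ih =>
            rw [Finset.prod_insert hl, Finset.prod_insert hl]
            exact (hy2 l).mul ih
        exact h5 Finset.univ
      rw [h3] at h4
      have h5 := (hr p).add hv1
      rw [add_zero] at h5
      exact h4.unique h5)
  obtain ⟨BT, hBT, hBT0⟩ := fe_rel (r := SpR X π1) (q := fun r => clsX X (Function.update T i r) = 0) ((JJ C x p v T').map f) (by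
    intro r hr
    obtain ⟨q, hq, rfl⟩ := Multiset.mem_map.1 hr
    obtain ⟨h1, h2, -⟩ := (mem_JJ C).1 hq
    have hqJ : q ∈ J := by
      rw [hsplit]
      exact Multiset.mem_add.2 (Or.inr hq)
    exact out_lim C hX hk hinf hT i (hrT _ h1 g hg) (hon q hqJ) rfl)
  have hrel1 : Multiset.Rel (SpR X π1) (J.map f) (I.map (fun q => rowc C q.1 x q.2) + BT) := by
    rw [hsplit, Multiset.map_add]
    refine Multiset.Rel.add ?_ hBT
    rw [Multiset.rel_map]
    exact hI.mono fun a _ b _ h => h.2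
  -- the place `π0`
  have hN1 : ((tt K) ^ 2) ⊗ₜ[K] (1 : R) * NNe p Q v ≠ 0 := by
    intro h
    rw [h] at hR0
    have h2 : ∀ j, P.e.repr (1 : R) j = 0 := by
      intro j
      have h3 := hR0 j
      rw [map_zero, Finsupp.zero_apply] at h3
      exact (Rd.zero.unique h3).symm
    have h4 : P.e.repr (1 : R) = 0 := Finsupp.ext h2
    have h5 : (1 : R) = 0 := (LinearEquiv.map_eq_zero_iff _).1 h4
    have := nontrivial P
    exact one_ne_zero h5
  have h1ne : (1 : R) ≠ 0 := by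
    have := nontrivial P
    exact one_ne_zero
  obtain ⟨S0, T0, hST0, hrS0, hrT0⟩ := zr_rd P hR0 h1ne hN1
  have hzk1 : zk K (1 : R) = 0 := by
    rw [← Multiset.card_eq_zero, zk_card P h1ne, deg_one]
  rw [hzk1, Multiset.rel_zero_right] at hrS0
  have hZ0 : ∀ β ∈ Z, ∀ f : R, 0 < P.deg f → β f ∉ π0.V := by
    intro β hβ
    refine hrT0 β ?_
    have h1 : β ∈ zr (((tt K) ^ 2) ⊗ₜ[K] (1 : R) * NNe p Q v) := by
      rw [mem_zr P hN1, map_mul]
      have h2 : evF β (NNe p Q v) = 0 := (mem_zr P hN0 β).1 hβ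
      rw [h2, mul_zero]
    rw [hST0, hrS0, zero_add] at h1
    exact h1
  obtain ⟨B0, hB0, hB00⟩ := fe_rel (r := SpR X π0) (q := fun r => clsX X (Function.update T i r) = 0) (J.map f) (by
    intro r hr
    obtain ⟨q, hq, rfl⟩ := Multiset.mem_map.1 hr
    obtain ⟨h1, h2, -⟩ := (mem_JJ C).1 hq
    exact out_lim C hX hk hinf hT i (hZ0 _ h1 g hg) (hon q hq) rfl)
  have hA : ∀ r ∈ J.map f, OnX X r := by
    intro r hr
    obtain ⟨q, hq, rfl⟩ := Multiset.mem_map.1 hr
    exact hon q hq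
  have h := slotR_eq hT i hA hG hrel1 hB0
  rw [Multiset.map_add, Multiset.sum_add, Multiset.map_map] at h
  have h1 : (BT.map (fun r => clsX X (Function.update T i r))).sum = 0 := by
    apply Multiset.sum_eq_zero
    intro z hz
    obtain ⟨t, ht, rfl⟩ := Multiset.mem_map.1 hz
    exact hBT0 t ht
  have h2 : (B0.map (fun r => clsX X (Function.update T i r))).sum = 0 := by
    apply Multiset.sum_eq_zero
    intro z hz
    obtain ⟨t, ht, rfl⟩ := Multiset.mem_map.1 hz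
    exact hB00 t ht
  rw [h1, h2, add_zero] at h
  refine ⟨I, hI2, ?_, h⟩
  intro b hb
  obtain ⟨β, hβ, hr⟩ := Multiset.exists_mem_of_rel_of_mem (Multiset.rel_flip.2 hrS) hb
  have hr' : RdP π1 β b := hr
  have hev : (β p + v) ^ 2 = ∏ j, β (rhs C x j) := by
    have h3 := (mem_zr P hN0 β).1 (hSZ β hβ)
    rw [ev_NNe, hQ, map_prod] at h3
    exact sub_eq_zero.1 h3
  obtain ⟨y, hy⟩ := sol_ex j0 hev
  have hq : (β, y) ∈ JJ C x p v S := (mem_JJ C).2 ⟨hβ, mem_solM.1 hy⟩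
  obtain ⟨q, hqI, hq1, -⟩ := Multiset.exists_mem_of_rel_of_mem hI hq
  exact ⟨q, hqI, hq1.unique hr'⟩

end FX
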