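import Pool.Agent.H67.ES.StSc
import Pool.Agent.H67.ES.FacFin
import Pool.Agent.H67.ES.FacTot
import Pool.Agent.H67.ES.PsiEq
import Pool.Agent.H67.ES.StXX

/-! # EX.Ord : factorisations in a given order of the base points -/

namespace ES

open Polynomial H68.BB

section
variable {K : Type} [Field K] {s : ℕ} {W : Wm K s} {F : Type} [Field F] [CharZero F] [IsAlgClosed F] [Algebra K F]

/-- a good matrix has a factorisation in every order of the base points -/
theorem fac_exists_ord {k : ℕ} {M : Mat F} {l : List (Fin s → F)}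
    (hg : Good k ((l : Multiset (Fin s → F)).map (lab W)) M) :
    ∃ f : List (Lk s F), f.map Prod.fst = l ∧ (∀ g ∈ f, g.2.ab = lab W g.1) ∧ XX (f.map Prod.snd) = M := by
  induction k generalizing M l with
  | zero =>
    have hl : (l : Multiset (Fin s → F)) = 0 := Multiset.map_eq_zero.1 hg.1
    rw [Multiset.coe_eq_zero] at hl
    refine ⟨[], hl.symm, ?_, hg.2.symm⟩
    intro g hg'
    exact absurd hg' List.not_mem_nil
  | succ k ih =>
    cases l with
    | nil =>
      exfalso
      obtain ⟨c, hc⟩ := hg.1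
      simp at hc
    | cons β l =>
      have hc' : ((β :: l : List (Fin s → F)) : Multiset (Fin s → F)).map (lab W) =
          lab W β ::ₘ (l : Multiset (Fin s → F)).map (lab W) := by
        rw [← Multiset.cons_coe, Multiset.map_cons]
      obtain ⟨_, hh⟩ := hg.2 _ _ hc'
      obtain ⟨al, hal⟩ := IsAlgClosed.exists_pow_nat_eq ((lab W β).1 ^ 3) (n := 2) (by norm_num)
      obtain ⟨_, u, M', hu1, _, hM, hG⟩ := hh al hal
      obtain ⟨f1, h1, h2, h3⟩ := ih hG
      refine ⟨(β, u) :: f1, ?_, ?_, ?_⟩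
      · rw [List.map_cons, h1]
      · intro g hg'
        rcases List.mem_cons.1 hg' with rfl | h
        · exact hu1
        · exact h2 g h
      · change u.sand (XX (f1.map Prod.snd)) = M
        rw [h3, hM]

omit [CharZero F] [IsAlgClosed F] in
/-- the labels of a good matrix are nondegenerate -/
theorem good_nd' {k : ℕ} {t : Multiset (F × F)} {M : Mat F} (h : Good k t M) : ∀ c ∈ t, ND c := by
  intro c hc
  cases k with
  | zero =>
    rw [h.1] at hc
    exact absurd hc (Multiset.notMem_zero _)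
  | succ k =>
    obtain ⟨t', ht⟩ := Multiset.exists_cons_of_mem hc
    exact (h.2 c t' ht).1

/-- a good factorisation with a given cusp can be reordered -/
theorem fac_ord {k : ℕ} (hk : 0 < k) {m : Ms s F} {w v : F} {f0 : List (Lk s F)} (hlen : f0.length = k)
    (hf : f0 ∈ FacS W m w v) (hw : w ≠ 0) (hv : v ≠ 0) (hg : Good k (m.B.map (lab W)) (XX (f0.map Prod.snd)))
    {l : List (Fin s → F)} (hl : (l : Multiset (Fin s → F)) = m.B) :
    ∃ f1 : List (Lk s F), f1 ∈ FacS W m w v ∧ f1.map Prod.fst = l ∧ XX (f1.map Prod.snd) = XX (f0.map Prod.snd) := by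
  obtain ⟨hB, hlab, ⟨c, hc, hX⟩, ht⟩ := hf
  rw [← hl] at hg
  obtain ⟨g, hg1, hg2, hg3⟩ := fac_exists_ord hg
  have hgl : g.length = k := by
    have h := congrArg Multiset.card (hl.trans hB.symm)
    rw [Multiset.coe_card, Multiset.coe_card, List.length_map, ← hg1, List.length_map, hlen] at h
    exact h
  have hprod : ∀ f : List (Lk s F), (∀ a ∈ f, a.2.ab = lab W a.1) →
      ((f.map Prod.snd).map (fun u : Vtx F => u.ab.1)).prod =
      (((f.map Prod.fst : List (Fin s → F)) : Multiset (Fin s → F)).map (fun β => (lab W β).1)).prod := by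
    intro f hf
    rw [Multiset.map_coe, Multiset.prod_coe, List.map_map, List.map_map]
    congr 1
    refine List.map_congr_left fun a ha => ?_
    change a.2.ab.1 = (lab W a.1).1
    rw [hf a ha]
  have hgB : ((g.map Prod.fst : List (Fin s → F)) : Multiset (Fin s → F)) = m.B := by rw [hg1, hl]
  have hwv : (w * v) ^ 2 = ((tot (g.map Prod.snd)).w * (tot (g.map Prod.snd)).v) ^ 2 := by
    have h := tot_wv (f0.map Prod.snd)
    rw [ht] at h
    rw [tot_wv, hprod g hg2, hgB, ← hB, ← hprod f0 hlab, ← h]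
  obtain ⟨t00, -, t01, t10⟩ := XX_top (f0.map Prod.snd)
  rw [List.length_map, ht, hlen] at t00 t01 t10
  obtain ⟨f', h1, h2, h3⟩ := fac_tot (f := g) (w := w) (v := v) (y := m.y)
    (by
      rintro rfl
      rw [List.length_nil] at hgl
      omega)
    (by
      intro a ha
      rw [hg2 a ha]
      refine good_nd' hg _ (Multiset.mem_map_of_mem _ ?_)
      rw [← hg1]
      exact Multiset.mem_coe.2 (List.mem_map_of_mem ha))
    hw hv hwv
    (by rw [hg3, hgl]; exact t00)
    (by rw [hg3, hgl]; exact t01)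
    (by rw [hg3, hgl]; exact t10)
  have hfst : f'.map Prod.fst = l := by
    rw [← hg1]
    have h := congrArg (List.map Prod.fst) h1
    rw [List.map_map, List.map_map] at h
    exact h
  have hX' : XX (f'.map Prod.snd) = XX (f0.map Prod.snd) := h2.trans hg3
  refine ⟨f', ⟨by rw [hfst, hl], ?_, ⟨c, hc, hX'.trans hX⟩, h3⟩, hfst, hX'⟩
  intro a ha
  have h : (a.1, a.2.ab) ∈ f'.map (fun g => (g.1, g.2.ab)) := List.mem_map.2 ⟨a, ha, rfl⟩
  rw [h1] at h
  obtain ⟨b, hb, hab⟩ := List.mem_map.1 h
  obtain ⟨e1, e2⟩ := Prod.mk.inj hab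
  rw [← e2, hg2 b hb, e1]

end

section
variable {K : Type} [Field K] [IsAlgClosed K] [CharZero K] {s : ℕ} {W : Wm K s}

/-- a good factorisation with a given cusp can be reordered, with the same class -/
theorem gfac_ord {k : ℕ} (hk : 0 < k) (h1 : CS1 W k) {m0 : Ms s K} (hm0 : OnS W k m0) (hsep : SepB W m0.B) {w v : K}
    {f0 : List (Lk s K)} (hf : GFac W k m0 w v f0) {l : List (Fin s → K)} (hl : (l : Multiset (Fin s → K)) = m0.B) :
    ∃ f1 : List (Lk s K), GFac W k m0 w v f1 ∧ f1.map Prod.fst = l ∧ Psi W k f1 = Psi W k f0 := by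
  have hlen : f0.length = k := by
    rw [FacS_len hf.mem]
    have h2 := hm0.st.card
    rwa [Multiset.card_map] at h2
  obtain ⟨f1, h2, h3, h4⟩ := fac_ord hk hlen hf.mem hf.w0 hf.v0 hf.good hl
  exact ⟨f1, ⟨h2, hf.w0, hf.v0, hf.m0, hf.ps0, by rw [h4]; exact hf.good⟩, h3, psi_eq h1 hm0 hsep hf h2 h4⟩

end

end ES
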