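import Pool.Agent.H67.ES.FOpen
import Pool.Agent.H67.ES.RotL
import Pool.Agent.H67.ES.FacSig
import Pool.Agent.H67.ES.CGo
import Pool.Agent.H67.EX.Ord

/-! # EX.Fco : ordered factorisations

`ordM B`: all lists with multiset `B` (each once).  `fco W m w v l`: the factorisations of the state `m` with the cusp `(w, v)` and the base list `l`. -/

namespace ES

open Polynomial H68.BB

section
variable {α β : Type}

open Classical in
/-- all orders of a multiset -/
noncomputable def ordM (B : Multiset α) : Multiset (List α) := ((B.toList.permutations : List (List α)) : Multiset (List α)).dedup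

theorem mem_ordM {B : Multiset α} {l : List α} : l ∈ ordM B ↔ (l : Multiset α) = B := by
  classical
  unfold ordM
  rw [Multiset.mem_dedup, Multiset.mem_coe, List.mem_permutations]
  constructor
  · intro h
    rw [← Multiset.coe_toList B]
    exact Multiset.coe_eq_coe.2 h
  · intro h
    apply Multiset.coe_eq_coe.1
    rw [Multiset.coe_toList, h]

theorem ordM_nodup (B : Multiset α) : (ordM B).Nodup := by
  classical
  exact Multiset.nodup_dedup _

theorem ordM_map {f : α → β} (hf : Function.Injective f) (B : Multiset α) : ordM (B.map f) = (ordM B).map (List.map f) := by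
  refine (Multiset.Nodup.ext (ordM_nodup _) ((ordM_nodup B).map (List.map_injective_iff.2 hf))).2 fun l => ?_
  rw [mem_ordM, Multiset.mem_map]
  constructor
  · intro h
    have h2 : ∀ b ∈ l, ∃ a ∈ B, f a = b := by
      intro b hb
      have : b ∈ B.map f := by
        rw [← h]
        exact Multiset.mem_coe.2 hb
      exact Multiset.mem_map.1 this
    obtain ⟨l', hl'⟩ : ∃ l' : List α, l'.map f = l := by
      have h3 : ∀ l : List β, (∀ b ∈ l, ∃ a ∈ B, f a = b) → ∃ l' : List α, l'.map f = l := by
        intro l
        induction l with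
        | nil => exact fun _ => ⟨[], rfl⟩
        | cons b l ih =>
          intro hb
          obtain ⟨a, _, ha⟩ := hb b List.mem_cons_self
          obtain ⟨l', hl'⟩ := ih fun b' hb' => hb b' (List.mem_cons_of_mem _ hb')
          exact ⟨a :: l', by rw [List.map_cons, ha, hl']⟩
      exact h3 l h2
    refine ⟨l', ?_, hl'⟩
    rw [mem_ordM]
    apply Multiset.map_injective hf
    rw [Multiset.map_coe, hl', h]
  · rintro ⟨l', hl', rfl⟩
    rw [mem_ordM] at hl'
    rw [← hl', Multiset.map_coe]

theorem ordM_card_pos (B : Multiset α) : 0 < Multiset.card (ordM B) := by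
  apply Multiset.card_pos_iff_exists_mem.2
  exact ⟨B.toList, mem_ordM.2 (Multiset.coe_toList B)⟩

end

section
variable {K : Type} [Field K] {s : ℕ} {F : Type} [Field F] [Algebra K F] {W : Wm K s}

open Classical in
/-- the factorisations with the cusp `(w, v)` and the base list `l` -/
noncomputable def fco (W : Wm K s) (m : Ms s F) (w v : F) (l : List (Fin s → F)) : Multiset (List (Lk s F)) :=
  (fcM W m w v).filter (fun f => f.map Prod.fst = l)

theorem fco_mem {m : Ms s F} {w v : F} {l : List (Fin s → F)} {f : List (Lk s F)} (h : f ∈ fco W m w v l) :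
    f ∈ FacS W m w v ∧ f.map Prod.fst = l := by
  classical
  unfold fco at h
  rw [Multiset.mem_filter] at h
  exact ⟨fcM_mem h.1, h.2⟩

theorem fco_iff {m : Ms s F} {w v : F} (hfin : (FacS W m w v).Finite) {l : List (Fin s → F)} {f : List (Lk s F)} :
    f ∈ fco W m w v l ↔ f ∈ FacS W m w v ∧ f.map Prod.fst = l := by
  classical
  unfold fco
  rw [Multiset.mem_filter, fcM_iff hfin]

/-- rotations permute the ordered factorisations -/
theorem fco_rot [CharZero F] {k : ℕ} {m : Ms s F} {w v : F} {l : List (Fin s → F)} (hk : ∀ f ∈ FacS W m w v, f.length = k) {z : Fin k → F}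
    (hz : ∀ i, z i ^ 6 = 1) (h1 : ∏ i, z i = 1) : (fco W m w v l).map (fun f => rotL k f z) = fco W m w v l := by
  classical
  have h := rotL_fcM hk hz h1
  unfold fco
  conv_rhs => rw [← h, Multiset.filter_map]
  congr 1
  refine Multiset.filter_congr fun f hf => ?_
  have hfl := hk f (fcM_mem hf)
  have e : (rotL k f z).map Prod.fst = f.map Prod.fst := by
    refine List.ext_getElem ?_ ?_
    · rw [List.length_map, List.length_map, rotL_length, hfl]
    · intro i h2 h3
      rw [List.length_map] at h3
      have hi : i < k := by rw [← hfl]; exact h3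
      rw [List.getElem_map, List.getElem_map]
      have h4 := nth_rotL f z ⟨i, hi⟩
      unfold nth at h4
      rw [List.getD_eq_getElem _ _ (by rw [rotL_length]; exact hi), List.getD_eq_getElem _ _ h3] at h4
      exact (congrArg Prod.fst h4 : _)
  simp only [Function.comp]
  rw [e]

end

section
variable {K : Type} [Field K] {s : ℕ} {W : Wm K s}

/-- automorphisms -/
theorem fco_sigma (σ : Om K ≃ₐ[RatFunc K] Om K) (m : Ms s (Om K)) (w v : Om K) (l : List (Fin s → Om K)) :
    fco W (m.map (σ : Om K →+* Om K)) (σ w) (σ v) (l.map fun β i => σ (β i)) = (fco W m w v l).map (List.map (Lk.map σ)) := by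
  classical
  unfold fco
  rw [fcM_sigma, Multiset.filter_map]
  congr 1
  refine Multiset.filter_congr fun f _ => ?_
  have e : (f.map (Lk.map σ)).map Prod.fst = (f.map Prod.fst).map (fun (β : Fin s → Om K) i => σ (β i)) := by
    rw [List.map_map, List.map_map]
    rfl
  have hinj : Function.Injective (List.map (fun (β : Fin s → Om K) i => σ (β i))) := by
    refine List.map_injective_iff.2 fun β β' h => ?_
    funext i
    exact σ.injective (congrFun h i)
  simp only [Function.comp]
  rw [e]
  exact hinj.eq_iff

end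

section
variable {K : Type} [Field K] [IsAlgClosed K] [CharZero K] {s : ℕ} {W : Wm K s} {π : Place K (Om K)}

/-- near a state with a good factorisation there are ordered factorisations for every order, and they reduce to good ones -/
theorem fco_open {k : ℕ} (hk : 0 < k) {m : Ms s (Om K)} {m0 : Ms s K} (hm : OnS W k m) (hm0 : OnS W k m0) (hr : RdS π m m0)
    {z : K} (hz : z ^ 3 = 1) {w v : Om K} {w0 v0 : K} (hw : Rd π.V π.φ w w0) (hv : Rd π.V π.φ v v0)
    (hwv : (w * v) ^ 2 = m.A W) (hx : algebraMap K (Om K) z * w ^ 2 + algebraMap K (Om K) z ^ 2 * v ^ 2 = m.x)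
    {f0 : List (Lk s K)} (hf : GFac W k m0 w0 v0 f0) {l : List (Fin s → Om K)} (hl : (l : Multiset (Fin s → Om K)) = m.B) :
    0 < Multiset.card (fco W m w v l) ∧ ∀ f ∈ fco W m w v l, ∃ f1 : List (Lk s K),
      List.Forall₂ (RdLk π) f f1 ∧ GFac W k m0 w0 v0 f1 ∧ XX (f1.map Prod.snd) = XX (f0.map Prod.snd) := by
  classical
  have := π.isLocal
  obtain ⟨hfin, ⟨f, hf1⟩, hred⟩ := fac_open hk hm hm0 hr hz hw hv hwv hx hf
  refine ⟨?_, fun f hf2 => hred f (fco_mem hf2).1⟩
  have hlen : f.length = k := by
    rw [FacS_len hf1, ← hm.st.card, Multiset.card_map]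
  obtain ⟨f1, h1, h2, h3⟩ := hred f hf1
  have hX : RdMt π (XX (f.map Prod.snd)) (XX (f1.map Prod.snd)) := by
    apply XX_rd
    rw [List.forall₂_map_left_iff, List.forall₂_map_right_iff]
    exact h1.imp fun a b hab => hab.2
  have hmul : ((f.map Prod.snd).map Vtx.ab : Multiset (Om K × Om K)) = m.B.map (lab W) := by
    rw [← hf1.1, Multiset.map_coe, List.map_map, List.map_map]
    congr 1
    exact List.map_congr_left fun g hg => hf1.2.1 g hg
  have hst := st_XX (f.map Prod.snd)
  rw [List.length_map, hlen, hmul] at hst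
  have hrel : Multiset.Rel (RdLb π) (m.B.map (lab W)) (m0.B.map (lab W)) := by
    rw [Multiset.rel_map]
    exact hr.B.mono fun β _ β0 _ h => ⟨rd_ev W.a h, rd_ev W.b h⟩
  have hgood : Good k (m.B.map (lab W)) (XX (f.map Prod.snd)) := good_open hst hrel hX h2.good
  have hw0 : w ≠ 0 := by
    rintro rfl
    exact hf.w0 (hw.unique Rd.zero)
  have hv0 : v ≠ 0 := by
    rintro rfl
    exact hf.v0 (hv.unique Rd.zero)
  obtain ⟨f2, h4, h5, h6⟩ := fac_ord hk hlen hf1 hw0 hv0 hgood hl
  apply Multiset.card_pos_iff_exists_mem.2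
  exact ⟨f2, (fco_iff hfin).2 ⟨h4, h5⟩⟩

end

end ES
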