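import Pool.Agent.H67.EX.MachH
import Pool.Agent.H34.ES.NestF
import Pool.Agent.H67.ES.ExtS
import Pool.Agent.H67.ES.ExtN
import Pool.Agent.H36.ES.Cs4

/-! # EX.FibreH : all tuples over generic base points, for a homomorphism `h : AA k W →+ B` into a torsion-free group
(copy of `ES.Fibre` with `RelO` instead of a family)

`fibre_h`: if the relation of the eight cusps holds for `h` and all states of lists `f` over `β` (in the order of `β`) with total vertex in general
position, then `h (cls P) = 0` for all tuples `P` of points of `W` over `β`. -/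

namespace ES

open H68.BB Polynomial

variable {K : Type} [Field K] [IsAlgClosed K] [CharZero K] {s k : ℕ} {W : Wm K s}

private theorem cls_fin_h {B : Type} [AddCommGroup B] (hB0 : ∀ (x : B) (n : ℕ), 0 < n → n • x = 0 → x = 0) (q : AA k W →+ B)
    (hW : W.Ok) (hk0 : 0 < k) {f : List (Lk s K)} (hf : ∀ g ∈ f, g.Ok W) (h0 : ∀ g ∈ f, g.1 ≠ 0)
    (hk : f.length = k) (h : ∀ S : Finset (Fin k), q (Psi W k (swpL S f)) = 0) :
    q (cls W (fun i : Fin k => (nth f i).pt)) = 0 := by
  classical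
  have h1 := congrArg q (Psi_swp hW hk0 hf h0 hk)
  rw [map_zsmul, map_zsmul, map_sum, Finset.sum_eq_zero (fun S _ => h S), smul_zero] at h1
  apply hB0 _ (4 * 6 ^ k) (by positivity)
  rw [← natCast_zsmul, Nat.cast_mul, Nat.cast_pow]
  exact h1.symm

omit [IsAlgClosed K] [CharZero K] in
private theorem fb_extP_mem {F0 f : List (Lk s K)} (hl : f.length = F0.length) (h : ExtP F0 f) {g : Lk s K} (hg : g ∈ f) :
    ∃ g0 ∈ F0, g.1 = g0.1 ∧ g.2.ab = g0.2.ab := by
  have h1 := h.lab
  rw [hl, List.take_length] at h1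
  have h2 : (g.1, g.2.ab) ∈ F0.map (fun g => (g.1, g.2.ab)) := by
    rw [← h1]
    exact List.mem_map.2 ⟨g, hg, rfl⟩
  obtain ⟨g0, h3, h4⟩ := List.mem_map.1 h2
  exact ⟨g0, h3, (congrArg Prod.fst h4).symm, (congrArg Prod.snd h4).symm⟩

omit [IsAlgClosed K] [CharZero K] in
private theorem fb_extP_fst {F0 f : List (Lk s K)} (hl : f.length = F0.length) (h : ExtP F0 f) :
    f.map Prod.fst = F0.map Prod.fst := by
  have h1 := h.lab
  rw [hl, List.take_length] at h1
  have h2 := congrArg (List.map Prod.fst) h1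
  rw [List.map_map, List.map_map] at h2
  exact h2

omit [IsAlgClosed K] [CharZero K] in
private theorem fb_swpL_fst {f : List (Lk s K)} (hl : f.length = k) (S : Finset (Fin k)) : (swpL S f).map Prod.fst = f.map Prod.fst := by
  refine List.ext_getElem (by rw [List.length_map, List.length_map, swpL_length, hl]) ?_
  intro i h1 h2
  rw [List.getElem_map, List.getElem_map]
  have hi : i < k := by rw [List.length_map, hl] at h2; exact h2
  have h3 := nth_swpL S f ⟨i, hi⟩
  have e1 : (swpL S f)[i]'(by rw [swpL_length]; exact hi) = nth (swpL S f) i := by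
    unfold nth
    rw [List.getD_eq_getElem _ _ (by rw [swpL_length]; exact hi)]
  have e2 : f[i]'(by rw [hl]; exact hi) = nth f i := by
    unfold nth
    rw [List.getD_eq_getElem _ _ (by rw [hl]; exact hi)]
  rw [e1, e2]
  have h4 : nth (swpL S f) i = if (⟨i, hi⟩ : Fin k) ∈ S then (nth f i).swp else nth f i := h3
  rw [h4]
  split_ifs
  · rfl
  · rfl

theorem fibre_h {B : Type} [AddCommGroup B] (hB0 : ∀ (x : B) (n : ℕ), 0 < n → n • x = 0 → x = 0) (q : AA k W →+ B)
    (hW : W.Ok) (h1 : CS1 W k) (h2 : CS2 W k) (h3 : CS3 W k) (hk : 0 < k) {β : Fin k → Fin s → K}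
    (hI : ∀ j, ∀ q ∈ W.I, ev q (β j) = 0) (hne : ∀ j, β j ≠ 0) (hnd : ∀ j, ND (lab W (β j) : K × K))
    (hsep : ∀ i j, i ≠ j → Sep (lab W (β i) : K × K) (lab W (β j)))
    (hkap : ∀ κ : Fin k → K, (∀ j, Kap (lab W (β j)) (κ j)) → ∏ j, κ j ≠ 1)
    (hF : ∀ f : List (Lk s K), f.length = k → f.map Prod.fst = List.ofFn β → (∀ g ∈ f, g.2.ab = lab W g.1) →
      ∀ T : Vtx K, T = tot (f.map Prod.snd) → (T.p ≠ 0 ∧ T.ps ≠ 0 ∧ T.m ≠ 0 ∧ T.ms ≠ 0) → T.y ≠ 0 → ∀ z : K, z ^ 3 = 1 →
      RelO W k q (List.ofFn β) z ⟨((f.map Prod.fst : List (Fin s → K)) : Multiset (Fin s → K)), z * T.w ^ 2 + z ^ 2 * T.v ^ 2, T.y,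
        XX (f.map Prod.snd)⟩)
    {P : Fin k → Pt s K} (hP : ∀ j, OnW W (P j)) (hb : ∀ j, (P j).β = β j) : q (cls W P) = 0 := by
  have hex : ∀ j, ∃ x : K, x ^ 2 = (lab W (β j) : K × K).1 ^ 3 := fun j =>
    IsAlgClosed.exists_pow_nat_eq _ (by norm_num)
  choose al hal using hex
  obtain ⟨F0, hF0, hB, hFd⟩ := base_exists hI hne hnd hsep hkap hal
  have hal0 : ∀ j, al j ≠ 0 := by
    intro j h
    have h4 := hal j
    rw [h, zero_pow two_ne_zero] at h4
    exact pow_ne_zero 3 (hnd j).a h4.symm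
  have hF0β : F0.map Prod.fst = List.ofFn β := by
    refine List.ext_getElem (by rw [List.length_map, List.length_ofFn, hF0]) ?_
    intro i h4 h5
    rw [List.getElem_map, List.getElem_ofFn]
    have hi : i < F0.length := by rw [List.length_map] at h4; exact h4
    have hik : i < k := by rw [← hF0]; exact hi
    have h6 : (nth F0 i).1 = β ⟨i, hik⟩ := (hFd ⟨i, hik⟩).1
    rw [← h6]
    unfold nth
    rw [List.getD_eq_getElem _ _ hi]
  refine nest_fib hW hne (al := al) hal hal0 q (ExtP F0) (ext_nil hB) ?_ ?_ P hP hb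
  · intro pre hl hpre
    have h4 := ext_step hB hpre (by rw [hF0]; exact hl)
    obtain ⟨e1, e2, e3⟩ := hFd ⟨pre.length, hl⟩
    have e1' : (nth F0 pre.length).1 = β ⟨pre.length, hl⟩ := e1
    have e2' : (nth F0 pre.length).2.ab = lab W (β ⟨pre.length, hl⟩) := e2
    have e3' : (nth F0 pre.length).2.al = al ⟨pre.length, hl⟩ := e3
    rw [e1', e2', e3'] at h4
    exact h4
  · intro f hfl hf
    have hlF : f.length = F0.length := by rw [hfl, hF0]
    refine cls_fin_h hB0 q hW hk ?_ ?_ hfl ?_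
    · intro g hg
      obtain ⟨g0, h4, h5, h6⟩ := fb_extP_mem hlF hf hg
      have h7 := (hB.ok g0 h4)
      exact ⟨by rw [h5]; exact h7.I, by rw [h5, h6]; exact h7.ab⟩
    · intro g hg
      obtain ⟨g0, h4, h5, h6⟩ := fb_extP_mem hlF hf hg
      rw [h5]
      exact hB.ne g0 h4
    · intro S
      have hV := ext_vg hk hB hF0 hfl hf S
      have hfst : (swpL S f).map Prod.fst = List.ofFn β := by
        rw [fb_swpL_fst hfl S, fb_extP_fst hlF hf, hF0β]
      refine mach_h hB0 h1 h2 h3 hV rfl ?_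
      intro z hz
      rw [hfst]
      have h9 := hF (swpL S f) hV.len hfst (fun g hg => (hV.ok g hg).ab) _ rfl
        ⟨hV.cg.p, hV.cg.ps, hV.cg.m, hV.cg.ms⟩ hV.y z hz
      rw [hfst] at h9
      exact h9

end ES
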