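import Pool.Agent.H67.EX.RelX
import Pool.Agent.H67.EX.CsX
import Pool.Agent.H67.EX.FibreH
import Pool.Agent.H34.ES.Mir
import Pool.Agent.H36.ES.Cs4

/-! # EX.FibreX : all tuples of rows over generic base points

Induction over the columns: `StC` columns (sums over the cusps and the rotations of good factorisations of a state) are replaced by `PtC` columns (one
arbitrary tuple) with `fibre_h` for the fibre model and `theta`. -/

namespace FX

open ES H68.BB Polynomial

variable {K : Type} [Field K] [IsAlgClosed K] [CharZero K] {s c k : ℕ} {X : XD K s c}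

/-- the data of a state column over `β`: a list with total vertex in general position, a cube root of one, good factorisations for all cusps -/
structure StD (X : XD K s c) (k : ℕ) (β : Fin k → Fin s → K) (j : Fin c) where
  f : List (Lk s K)
  len : f.length = k
  fst : f.map Prod.fst = List.ofFn β
  lb : ∀ g ∈ f, g.2.ab = lab (X.W j) g.1
  T : Vtx K
  hT : T = tot (f.map Prod.snd)
  h4 : T.p ≠ 0 ∧ T.ps ≠ 0 ∧ T.m ≠ 0 ∧ T.ms ≠ 0
  y : T.y ≠ 0
  z : K
  z3 : z ^ 3 = 1
  F : K × K → List (Lk s K)
  hF : ∀ q ∈ cuM z (z * T.w ^ 2 + z ^ 2 * T.v ^ 2)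
      ((⟨((List.ofFn β : List (Fin s → K)) : Multiset (Fin s → K)), z * T.w ^ 2 + z ^ 2 * T.v ^ 2, T.y, XX (f.map Prod.snd)⟩ : Ms s K).A (X.W j)),
    GFac (X.W j) k ⟨((List.ofFn β : List (Fin s → K)) : Multiset (Fin s → K)), z * T.w ^ 2 + z ^ 2 * T.v ^ 2, T.y, XX (f.map Prod.snd)⟩
      q.1 q.2 (F q) ∧ (F q).map Prod.fst = List.ofFn β

/-- the cusps of a state column -/
noncomputable def StD.cu {β : Fin k → Fin s → K} {j : Fin c} (d : StD X k β j) : Multiset (K × K) :=
  cuM d.z (d.z * d.T.w ^ 2 + d.z ^ 2 * d.T.v ^ 2)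
      ((⟨((List.ofFn β : List (Fin s → K)) : Multiset (Fin s → K)), d.z * d.T.w ^ 2 + d.z ^ 2 * d.T.v ^ 2, d.T.y,
        XX (d.f.map Prod.snd)⟩ : Ms s K).A (X.W j))

/-- the tuples of a state column -/
noncomputable def StD.col {β : Fin k → Fin s → K} {j : Fin c} (d : StD X k β j) : Multiset (Fin k → Pt s K) :=
  d.cu.bind fun q => (Z6 k K).val.map (tup k (d.F q))

/-- state columns -/
def StC (X : XD K s c) (β : Fin k → Fin s → K) (j : Fin c) (A : Multiset (Fin k → Pt s K)) : Prop :=
  ∃ d : StD X k β j, A = d.col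

/-- point columns -/
def PtC (X : XD K s c) (β : Fin k → Fin s → K) (j : Fin c) (A : Multiset (Fin k → Pt s K)) : Prop :=
  ∃ Q : Fin k → Pt s K, (∀ i, OnW (X.W j) (Q i) ∧ (Q i).β = β i) ∧ A = {Q}

theorem StC.on {β : Fin k → Fin s → K} {j : Fin c} {A : Multiset (Fin k → Pt s K)} (hI : ∀ i, ∀ q ∈ X.I, ev q (β i) = 0)
    (h0 : ∀ i, β i ≠ 0) (h : StC X β j A) : ∀ Q ∈ A, ∀ i, OnW (X.W j) (Q i) ∧ (Q i).β = β i := by
  obtain ⟨d, rfl⟩ := h
  intro Q hQ i
  unfold StD.col at hQ
  rw [Multiset.mem_bind] at hQ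
  obtain ⟨q, hq, hQ⟩ := hQ
  obtain ⟨ζ, hζ, rfl⟩ := Multiset.mem_map.1 hQ
  obtain ⟨h1, h2⟩ := d.hF q hq
  exact tup_on h2 hI h0 h1.mem.2.1 (Finset.mem_def.2 hζ) i

omit [IsAlgClosed K] [CharZero K] in
theorem PtC.on {β : Fin k → Fin s → K} {j : Fin c} {A : Multiset (Fin k → Pt s K)} (h : PtC X β j A) :
    ∀ Q ∈ A, ∀ i, OnW (X.W j) (Q i) ∧ (Q i).β = β i := by
  obtain ⟨Q, hQ, rfl⟩ := h
  intro Q' hQ'
  rw [Multiset.mem_singleton] at hQ'
  rw [hQ']
  exact hQ

/-- the family hypothesis -/
def HF (X : XD K s c) (k : ℕ) (β : Fin k → Fin s → K) : Prop :=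
  ∀ f : Fin c → List (Lk s K), (∀ j, (f j).length = k) → (∀ j, (f j).map Prod.fst = List.ofFn β) →
    (∀ j, ∀ g ∈ f j, g.2.ab = lab (X.W j) g.1) → ∀ T : Fin c → Vtx K, (∀ j, T j = tot ((f j).map Prod.snd)) →
    (∀ j, (T j).p ≠ 0 ∧ (T j).ps ≠ 0 ∧ (T j).m ≠ 0 ∧ (T j).ms ≠ 0) → (∀ j, (T j).y ≠ 0) → ∀ z : Fin c → K, (∀ j, z j ^ 3 = 1) →
    FamX X k z ⟨((List.ofFn β : List (Fin s → K)) : Multiset (Fin s → K)), fun j => z j * (T j).w ^ 2 + z j ^ 2 * (T j).v ^ 2,
      fun j => (T j).y, fun j => XX ((f j).map Prod.snd)⟩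

private theorem fx_onS {W : Wm K s} {β : Fin k → Fin s → K} (hI : ∀ i, ∀ q ∈ W.I, ev q (β i) = 0) (h0 : ∀ i, β i ≠ 0)
    {f : List (Lk s K)} (hfst : f.map Prod.fst = List.ofFn β) (hlen : f.length = k) (hl : ∀ g ∈ f, g.2.ab = lab W g.1)
    {z : K} (hz : z ^ 3 = 1) {T : Vtx K} (hT : T = tot (f.map Prod.snd)) :
    OnS W k ⟨((List.ofFn β : List (Fin s → K)) : Multiset (Fin s → K)), z * T.w ^ 2 + z ^ 2 * T.v ^ 2, T.y, XX (f.map Prod.snd)⟩ := by
  have hmul : (((f.map Prod.snd).map Vtx.ab : List (K × K)) : Multiset (K × K)) =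
      ((List.ofFn β : List (Fin s → K)) : Multiset (Fin s → K)).map (lab W) := by
    rw [← hfst, Multiset.map_coe, List.map_map, List.map_map]
    congr 1
    exact List.map_congr_left fun g hg => hl g hg
  have hA : (((List.ofFn β : List (Fin s → K)) : Multiset (Fin s → K)).map (fun β => ev W.a β)).prod =
      ((tot (f.map Prod.snd)).w * (tot (f.map Prod.snd)).v) ^ 2 := by
    rw [tot_wv, ← hfst, Multiset.map_coe, Multiset.prod_coe, List.map_map, List.map_map]
    congr 1
    refine List.map_congr_left fun g hg => ?_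
    exact (congrArg Prod.fst (hl g hg)).symm
  refine ⟨?_, ?_, ?_, ?_⟩
  · intro b hb
    obtain ⟨i, rfl⟩ := (List.mem_ofFn' _ _).1 (Multiset.mem_coe.1 hb)
    exact hI i
  · intro b hb
    obtain ⟨i, rfl⟩ := (List.mem_ofFn' _ _).1 (Multiset.mem_coe.1 hb)
    exact h0 i
  · have h := st_XX (f.map Prod.snd)
    rw [List.length_map, hlen, hmul] at h
    exact h
  · have h := (XX_top (f.map Prod.snd)).1
    rw [List.length_map, hlen, ← hT] at h
    rw [← hT] at hA
    show T.y ^ 2 = (z * T.w ^ 2 + z ^ 2 * T.v ^ 2) ^ 3 -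
      3 * (((List.ofFn β : List (Fin s → K)) : Multiset (Fin s → K)).map (fun β => ev W.a β)).prod *
        (z * T.w ^ 2 + z ^ 2 * T.v ^ 2) - 2 * (XX (f.map Prod.snd) 0 0).coeff (2 * k)
    rw [hA, h]
    field_simp
    linear_combination (-(T.w ^ 6 + (z ^ 3 + 1) * T.v ^ 6 + 3 * (T.w * T.v) ^ 2 *
      (z * T.w ^ 2 + z ^ 2 * T.v ^ 2))) * hz

theorem fibreX (hX : X.Ok) (hk : 0 < k) (hc : 0 < c) {β : Fin k → Fin s → K} (hI : ∀ i, ∀ q ∈ X.I, ev q (β i) = 0)
    (h0 : ∀ i, β i ≠ 0) (hnd : ∀ j i, ND (lab (X.W j) (β i) : K × K))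
    (hsep : ∀ j, ∀ i i', i ≠ i' → Sep (lab (X.W j) (β i) : K × K) (lab (X.W j) (β i')))
    (hkap : ∀ j, ∀ κ : Fin k → K, (∀ i, Kap (lab (X.W j) (β i)) (κ i)) → ∏ i, κ i ≠ 1) (hF : HF X k β)
    {P : Fin c → Fin k → Pt s K} (hP : ∀ j i, OnW (X.W j) (P j i) ∧ (P j i).β = β i) :
    IsOfFinAddOrder (clsX X (rows β P)) := by
  classical
  let q : AAX k X →+ AAX k X ⧸ AddCommGroup.torsion (AAX k X) := QuotientAddGroup.mk' (AddCommGroup.torsion (AAX k X))
  have hq : ∀ x : AAX k X, q x = 0 ↔ IsOfFinAddOrder x := fun x =>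
    (QuotientAddGroup.eq_zero_iff (N := AddCommGroup.torsion (AAX k X)) x).trans Iff.rfl
  have htf : ∀ (x : AAX k X ⧸ AddCommGroup.torsion (AAX k X)) (n : ℕ), 0 < n → n • x = 0 → x = 0 := by
    intro x n hn hx
    obtain ⟨y, rfl⟩ := QuotientAddGroup.mk'_surjective _ x
    rw [← map_nsmul] at hx
    have h1 := (hq _).1 hx
    apply (hq _).2
    rw [isOfFinAddOrder_iff_nsmul_eq_zero] at h1 ⊢
    obtain ⟨m, hm, h2⟩ := h1
    exact ⟨m * n, Nat.mul_pos hm hn, by rw [mul_smul]; exact h2⟩
  let φ : (Fin c → Fin k → Pt s K) → AAX k X ⧸ AddCommGroup.torsion (AAX k X) := fun P => q (clsX X (rows β P))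
  have hsepB : ∀ j, SepB (X.W j) ((List.ofFn β : List (Fin s → K)) : Multiset (Fin s → K)) := by
    intro j l hl
    have hp : l.Perm (List.ofFn β) := Multiset.coe_eq_coe.1 hl
    have h1 : ((List.ofFn β).map (lab (X.W j) : (Fin s → K) → K × K)).Pairwise Sep := by
      rw [List.map_ofFn, List.pairwise_ofFn]
      intro i i' hii
      exact hsep j i i' (ne_of_lt hii)
    have hsym : ∀ {x y : K × K}, Sep x y → Sep y x := fun h => Ne.symm h
    exact ((hp.map (lab (X.W j) : (Fin s → K) → K × K)).pairwise_iff hsym).2 h1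
  -- the induction over the columns
  have key : ∀ S : Finset (Fin c), ∀ D : Fin c → Multiset (Fin k → Pt s K), (∀ j ∈ S, PtC X β j (D j)) →
      (∀ j, j ∉ S → StC X β j (D j)) → sumV φ D = 0 := by
    intro S
    induction S using Finset.induction_on with
    | empty =>
      intro D _ hD
      choose d hd using fun j => hD j (Finset.notMem_empty j)
      obtain rfl : D = fun j => (d j).col := funext hd
      have h1 := relX hX hk hc (csX hX hk hc (List.ofFn β))
        (m0 := ⟨((List.ofFn β : List (Fin s → K)) : Multiset (Fin s → K)), fun j => (d j).z * (d j).T.w ^ 2 + (d j).z ^ 2 * (d j).T.v ^ 2,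
          fun j => (d j).T.y, fun j => XX ((d j).f.map Prod.snd)⟩)
        (fun j => fx_onS hI h0 (d j).fst (d j).len (d j).lb (d j).z3 (d j).hT) hsepB rfl (z := fun j => (d j).z) (fun j => (d j).z3)
        (hF (fun j => (d j).f) (fun j => (d j).len) (fun j => (d j).fst) (fun j => (d j).lb) (fun j => (d j).T) (fun j => (d j).hT)
          (fun j => (d j).h4) (fun j => (d j).y) (fun j => (d j).z) (fun j => (d j).z3))
        (fun j => (d j).F) (fun j => (d j).hF)
      have h2 := (hq _).2 h1
      rw [map_multiset_sum, Multiset.map_map] at h2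
      show sumV φ (fun j => (d j).cu.bind fun q => (Z6 k K).val.map (tup k ((d j).F q))) = 0
      rw [sumV_bind]
      refine Eq.trans ?_ h2
      congr 1
      refine Multiset.map_congr rfl fun q0 _ => ?_
      rw [sumV_map]
      unfold PsiX sumV
      simp only [Function.comp]
      rw [piM_finset (fun _ : Fin c => Z6 k K), map_sum, Finset.sum]
      congr 1
      refine Multiset.map_congr rfl fun ζ _ => ?_
      show q (clsX X (rows β _)) = q (clsX X (rows (bas k (List.ofFn β)) _))
      congr 3
      funext i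
      unfold bas
      rw [List.getD_eq_getElem _ _ (by rw [List.length_ofFn]; exact i.2), List.getElem_ofFn]
    | insert j0 S hj0 ih =>
      intro D hDp hDs
      obtain ⟨Q0, hQ0, hD0⟩ := hDp j0 (Finset.mem_insert_self _ _)
      have hon : ∀ P ∈ piM c D, ∀ j i, OnW (X.W j) (P j i) ∧ (P j i).β = β i := by
        intro P hP j
        by_cases hj : j ∈ insert j0 S
        · exact (hDp j hj).on _ (mem_piM.1 hP j)
        · exact (hDs j hj).on hI h0 _ (mem_piM.1 hP j)
      -- the homomorphism
      have hex : ∀ P : Fin c → Fin k → Pt s K, ∃ θ : AA k (FMj X β j0) →+ AAX k X, (∀ j i, OnW (X.W j) (P j i) ∧ (P j i).β = β i) →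
          ∀ (σ : Equiv.Perm (Fin k)) (Q : Fin k → Pt 2 K), (∀ i, (Q i).β = bv ((σ i : Fin k) : ℕ)) →
            θ (cls (FMj X β j0) Q) = (Equiv.Perm.sign σ : ℤ) • clsX X (rows β (Function.update P j0
              (fun i => ⟨β i, (Q (σ.symm i)).x, (Q (σ.symm i)).y⟩))) := by
        intro P
        by_cases h : ∀ j i, OnW (X.W j) (P j i) ∧ (P j i).β = β i
        · obtain ⟨θ, hθ⟩ := theta hX hk (rows_onX hI h0 h) j0
          exact ⟨θ, fun _ => hθ⟩
        · exact ⟨0, fun h' => absurd h' h⟩
      choose th hth using hex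
      let H : AA k (FMj X β j0) →+ AAX k X ⧸ AddCommGroup.torsion (AAX k X) := ((piM c D).map (fun P => q.comp (th P))).sum
      have hH : ∀ x, H x = ((piM c D).map (fun P => q (th P x))).sum := by
        intro x
        have h1 := map_multiset_sum (AddMonoidHom.eval x :
          (AA k (FMj X β j0) →+ AAX k X ⧸ AddCommGroup.torsion (AAX k X)) →+ _) ((piM c D).map (fun P => q.comp (th P)))
        rw [Multiset.map_map] at h1
        exact h1
      have hlab := fm_lab X β j0
      have hFI := FM_I (F := K) (fun i => ev (X.a j0) (β i)) (fun i => ev (X.b j0) (β i))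
      have hFok := FM_ok hk (fun i => ev (X.a j0) (β i)) (fun i => ev (X.b j0) (β i))
      have hcs1 : CS1 (FMj X β j0) k := fun f f' e h h1 h2 h3 h4 => cs1 hFok h h1 h2 h3 h4
      have hcs2 : CS2 (FMj X β j0) k := by
        intro c' f f' T hl hk0 hf hne hnd' hR hT hp hps hm hms hy hc' ht
        subst hT
        exact cs2 hFok c' f f' hl hk0 hf hne hnd' hR hp hps hm hms hy hc' ht
      have hcs3 : CS3 (FMj X β j0) k := fun g f hf h0 hl om hom => Psi_rot3 hFok hf h0 hl hom
      have hmain := fibre_h htf H hFok hcs1 hcs2 hcs3 hk (β := fun i : Fin k => (bv (i : ℕ) : Fin 2 → K)) hFI (fun i => bv_ne _)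
        (fun i => by rw [← hlab i]; exact hnd j0 i) (fun i i' hii => by rw [← hlab i, ← hlab i']; exact hsep j0 i i' hii)
        (fun κ hκ => hkap j0 κ fun i => by rw [hlab i]; exact hκ i)
        (fun f'' hlen'' hfst'' hlb'' T hT h4 hy z hz => by
          intro F'' hF''
          -- transport to the column `j0`
          have hs := hlab.symm
          have hid : f''.map Prod.fst = List.ofFn fun i : Fin k => (bv ((id i : Fin k) : ℕ) : Fin 2 → K) := hfst''
          have hBB : ((f''.map Prod.fst : List (Fin 2 → K)) : Multiset (Fin 2 → K)) =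
            ((List.ofFn (fun i : Fin k => (bv (i : ℕ) : Fin 2 → K)) : List (Fin 2 → K)) : Multiset (Fin 2 → K)) := by rw [hfst'']
          let m1 : Ms s K := ⟨((List.ofFn β : List (Fin s → K)) : Multiset (Fin s → K)), z * T.w ^ 2 + z ^ 2 * T.v ^ 2, T.y,
            XX ((trL β f'').map Prod.snd)⟩
          have hX1 : XX ((trL β f'').map Prod.snd) = XX (f''.map Prod.snd) := by rw [trL_snd β hlen'']
          have hA1 : (⟨((f''.map Prod.fst : List (Fin 2 → K)) : Multiset (Fin 2 → K)), z * T.w ^ 2 + z ^ 2 * T.v ^ 2, T.y,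
              XX (f''.map Prod.snd)⟩ : Ms 2 K).A (FMj X β j0) = m1.A (X.W j0) := trL_A hlab rfl hBB
          rw [hA1] at hF'' ⊢
          let d : StD X k β j0 :=
            { f := trL β f''
              len := trL_length β f''
              fst := trL_fst β f''
              lb := trL_lab hs id hid hlb''
              T := T
              hT := by rw [trL_snd β hlen'']; exact hT
              h4 := h4
              y := hy
              z := z
              z3 := hz
              F := fun q => trL β (F'' q)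
              hF := fun q hq' => ⟨trL_gfac (p := id) hs hBB rfl Function.bijective_id rfl hX1 (hF'' q hq').2 (hF'' q hq').1,
                trL_fst β (F'' q)⟩ }
          have h5 := ih (Function.update D j0 d.col)
            (fun j hj => by
              have hne : j ≠ j0 := fun h => hj0 (h ▸ hj)
              rw [Function.update_of_ne hne]
              exact hDp j (Finset.mem_insert_of_mem hj))
            (fun j hj => by
              by_cases hne : j = j0
              · subst hne
                rw [Function.update_self]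
                exact ⟨d, rfl⟩
              · rw [Function.update_of_ne hne]
                exact hDs j (by rw [Finset.mem_insert]; tauto))
          rw [sumV_update φ D j0 d.col Q0] at h5
          have e1 : Function.update D j0 {Q0} = D := by rw [← hD0, Function.update_eq_self]
          rw [e1] at h5
          refine Eq.trans ?_ h5
          -- exchange the sums
          have e2 : ∀ q' ∈ cuM z (z * T.w ^ 2 + z ^ 2 * T.v ^ 2) (m1.A (X.W j0)), H (Psi (FMj X β j0) k (F'' q')) =
              ((piM c D).map fun P => ((Z6 k K).val.map fun ζ => φ (Function.update P j0 (tup k (trL β (F'' q')) ζ))).sum).sum := by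
            intro q' hq'
            rw [hH]
            congr 1
            refine Multiset.map_congr rfl fun P hPm => ?_
            have h6 := theta_psi (hth P (hon P hPm)) 1 (F'' q')
            have e3 : trL (fun i : Fin k => (bv (((1 : Equiv.Perm (Fin k)) i : Fin k) : ℕ) : Fin 2 → K)) (F'' q') = F'' q' :=
              trL_self (hF'' q' hq').2
            rw [e3, Equiv.Perm.sign_one, Units.val_one, one_smul] at h6
            rw [h6, map_multiset_sum, Multiset.map_map]
            congr 1
            refine Multiset.map_congr rfl fun ζ _ => ?_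
            rw [tup_trL]
            rfl
          rw [Multiset.map_congr rfl e2, Multiset.sum_map_sum_map]
          congr 1
          refine Multiset.map_congr rfl fun P _ => ?_
          show _ = (Multiset.map _ (d.cu.bind fun q => (Z6 k K).val.map (tup k (d.F q)))).sum
          rw [Multiset.map_bind, Multiset.sum_bind]
          congr 1
          refine Multiset.map_congr rfl fun q' _ => ?_
          rw [Multiset.map_map]
          rfl)
        (P := fun i => ⟨bv (i : ℕ), (Q0 i).x, (Q0 i).y⟩)
        (fun i => by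
          have h1 := (FM_on (F := K) (A := fun i => ev (X.a j0) (β i)) (B := fun i => ev (X.b j0) (β i)) i (x := (Q0 i).x) (y := (Q0 i).y)).2
          apply h1
          have h2 := (hQ0 i).1.2.2
          rw [(hQ0 i).2] at h2
          exact h2)
        (fun i => rfl)
      rw [hH] at hmain
      refine Eq.trans ?_ hmain
      unfold sumV
      congr 1
      refine Multiset.map_congr rfl fun P hPm => ?_
      have h6 := hth P (hon P hPm) 1 (fun i => ⟨bv (i : ℕ), (Q0 i).x, (Q0 i).y⟩) (fun i => rfl)
      rw [Equiv.Perm.sign_one, Units.val_one, one_smul] at h6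
      rw [h6]
      show q (clsX X (rows β P)) = _
      congr 3
      have hPj : P j0 = Q0 := by
        have h7 := mem_piM.1 hPm j0
        rw [hD0, Multiset.mem_singleton] at h7
        exact h7
      funext j
      by_cases hj : j = j0
      · subst hj
        rw [Function.update_self]
        funext i
        rw [hPj]
        exact Pt.ext (hQ0 i).2 rfl rfl
      · rw [Function.update_of_ne hj]
  have h1 := key Finset.univ (fun j => {P j}) (fun j _ => ⟨P j, hP j, rfl⟩) (fun j hj => absurd (Finset.mem_univ j) hj)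
  have h2 : sumV φ (fun j => ({P j} : Multiset (Fin k → Pt s K))) = φ P := by
    have e : (fun j => ({P j} : Multiset (Fin k → Pt s K))) = fun j => ({()} : Multiset Unit).map (fun _ => P j) := by
      funext j
      rw [Multiset.map_singleton]
    rw [e, sumV_map]
    unfold sumV
    have h3 : piM c (fun _ : Fin c => ({()} : Multiset Unit)) = {fun _ => ()} := by
      have h4 := card_piM (fun _ : Fin c => ({()} : Multiset Unit))
      rw [Multiset.card_singleton, Finset.prod_const_one] at h4
      obtain ⟨a, ha⟩ := Multiset.card_eq_one.1 h4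
      rw [ha]
    rw [h3, Multiset.map_singleton, Multiset.sum_singleton]
  rw [h2] at h1
  exact (hq _).1 h1

end FX
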