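import Mathlib

/-! # EX.PiM : products of finitely many multisets -/

namespace ES

/-- the product of the multisets `A i`, `i : Fin c` -/
def piM {α : Type} : (c : ℕ) → (Fin c → Multiset α) → Multiset (Fin c → α)
  | 0, _ => {Fin.elim0}
  | c + 1, A => (A 0).bind fun a => (piM c (Fin.tail A)).map (Fin.cons (α := fun _ => α) a)

variable {α β γ : Type}

theorem piM_succ (c : ℕ) (A : Fin (c + 1) → Multiset α) :
    piM (c + 1) A = (A 0).bind fun a => (piM c (Fin.tail A)).map (Fin.cons (α := fun _ => α) a) := rfl

theorem mem_piM {c : ℕ} {A : Fin c → Multiset α} {f : Fin c → α} : f ∈ piM c A ↔ ∀ i, f i ∈ A i := by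
  induction c with
  | zero =>
    constructor
    · intro _ i
      exact i.elim0
    · intro _
      have e : f = Fin.elim0 := Subsingleton.elim _ _
      rw [e]
      exact Multiset.mem_singleton_self _
  | succ c ih =>
    rw [piM_succ, Multiset.mem_bind]
    constructor
    · rintro ⟨a, ha, hf⟩
      obtain ⟨g, hg, rfl⟩ := Multiset.mem_map.1 hf
      intro i
      refine Fin.cases ?_ (fun i => ?_) i
      · rw [Fin.cons_zero]
        exact ha
      · rw [Fin.cons_succ]
        exact ih.1 hg i
    · intro h
      refine ⟨f 0, h 0, Multiset.mem_map.2 ⟨Fin.tail f, ih.2 fun i => h i.succ, ?_⟩⟩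
      exact Fin.cons_self_tail f

theorem card_piM {c : ℕ} (A : Fin c → Multiset α) : Multiset.card (piM c A) = ∏ i, Multiset.card (A i) := by
  induction c with
  | zero =>
    rw [Fin.prod_univ_zero]
    rfl
  | succ c ih =>
    rw [piM_succ, Multiset.card_bind, Fin.prod_univ_succ]
    have e : ((fun x => Multiset.card x) ∘ fun a => (piM c (Fin.tail A)).map (Fin.cons (α := fun _ => α) a)) =
        fun _ => ∏ i : Fin c, Multiset.card (A i.succ) := by
      funext a
      simp only [Function.comp, Multiset.card_map]
      rw [ih]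
      rfl
    rw [e, Multiset.map_const', Multiset.sum_replicate, smul_eq_mul]

theorem piM_map {c : ℕ} (A : Fin c → Multiset α) (g : Fin c → α → β) :
    piM c (fun i => (A i).map (g i)) = (piM c A).map (fun f i => g i (f i)) := by
  induction c with
  | zero =>
    show ({Fin.elim0} : Multiset (Fin 0 → β)) = Multiset.map _ {Fin.elim0}
    rw [Multiset.map_singleton]
    congr 1
    exact Subsingleton.elim _ _
  | succ c ih =>
    rw [piM_succ, piM_succ, Multiset.map_bind, Multiset.bind_map]
    refine Multiset.bind_congr fun a _ => ?_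
    have h := ih (Fin.tail A) (Fin.tail g)
    have e : Fin.tail (fun i => (A i).map (g i)) = fun i => (Fin.tail A i).map (Fin.tail g i) := rfl
    rw [e, h, Multiset.map_map, Multiset.map_map]
    refine Multiset.map_congr rfl fun f _ => ?_
    funext i
    refine Fin.cases ?_ (fun i => ?_) i
    · simp [Function.comp]
    · simp [Function.comp, Fin.tail]

theorem piM_rel {c : ℕ} {A : Fin c → Multiset α} {B : Fin c → Multiset β} {r : Fin c → α → β → Prop}
    (h : ∀ i, Multiset.Rel (r i) (A i) (B i)) : Multiset.Rel (fun f g => ∀ i, r i (f i) (g i)) (piM c A) (piM c B) := by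
  induction c with
  | zero =>
    refine Multiset.Rel.cons (fun i => i.elim0) Multiset.Rel.zero
  | succ c ih =>
    rw [piM_succ, piM_succ]
    have h1 := ih (A := Fin.tail A) (B := Fin.tail B) (r := Fin.tail r) fun i => h i.succ
    refine Multiset.rel_bind ?_ (h 0)
    intro a b hab
    rw [Multiset.rel_map]
    refine h1.mono fun f _ g _ hfg => ?_
    intro i
    refine Fin.cases ?_ (fun i => ?_) i
    · simpa using hab
    · rw [Fin.cons_succ, Fin.cons_succ]
      exact hfg i

theorem piM_nodup {c : ℕ} {A : Fin c → Multiset α} (h : ∀ i, (A i).Nodup) : (piM c A).Nodup := by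
  induction c with
  | zero => exact Multiset.nodup_singleton _
  | succ c ih =>
    rw [piM_succ, Multiset.nodup_bind]
    refine ⟨fun a _ => ?_, ?_⟩
    · refine (ih (A := Fin.tail A) fun i => h i.succ).map ?_
      exact Fin.cons_right_injective (α := fun _ => α) a
    · refine Multiset.Nodup.pairwise (fun a _ b _ hab => ?_) (h 0)
      rw [Function.onFun, Multiset.disjoint_left]
      intro f hf hf'
      obtain ⟨g, _, rfl⟩ := Multiset.mem_map.1 hf
      obtain ⟨g', _, hg'⟩ := Multiset.mem_map.1 hf'
      apply hab
      have h1 := congrFun hg' 0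
      rw [Fin.cons_zero, Fin.cons_zero] at h1
      exact h1.symm

/-- products of finite sets -/
theorem piM_finset {c : ℕ} (S : Fin c → Finset α) : piM c (fun i => (S i).val) = (Fintype.piFinset S).val := by
  refine (Multiset.Nodup.ext (piM_nodup fun i => (S i).nodup) (Finset.nodup _)).2 fun f => ?_
  rw [mem_piM, Finset.mem_val, Fintype.mem_piFinset]
  rfl

/-- expansion of a multilinear map -/
theorem piM_multi {c : ℕ} {M : Fin c → Type} [∀ i, AddCommGroup (M i)] {N : Type} [AddCommGroup N]
    (Φ : MultilinearMap ℤ M N) (A : Fin c → Multiset α) (g : ∀ i, α → M i) :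
    Φ (fun i => ((A i).map (g i)).sum) = ((piM c A).map (fun f => Φ (fun i => g i (f i)))).sum := by
  induction c with
  | zero =>
    show _ = (Multiset.map _ {Fin.elim0}).sum
    rw [Multiset.map_singleton, Multiset.sum_singleton]
    congr 1
    funext i
    exact i.elim0
  | succ c ih =>
    have key : ∀ a : α, Φ (Fin.cons (g 0 a) (fun i : Fin c => ((A i.succ).map (g i.succ)).sum)) =
        ((piM c (Fin.tail A)).map (fun f => Φ (Fin.cons (g 0 a) (fun i : Fin c => g i.succ (f i))))).sum := by
      intro a
      exact ih (Φ.curryLeft (g 0 a)) (Fin.tail A) (fun i => g i.succ)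
    have e1 : (fun i => ((A i).map (g i)).sum) =
        Fin.cons ((A 0).map (g 0)).sum (fun i : Fin c => ((A i.succ).map (g i.succ)).sum) := by
      funext i
      refine Fin.cases ?_ (fun i => ?_) i
      · rw [Fin.cons_zero]
      · rw [Fin.cons_succ]
    have e2 : ∀ B : Multiset α, Φ (Fin.cons (B.map (g 0)).sum (fun i : Fin c => ((A i.succ).map (g i.succ)).sum)) =
        (B.map (fun a => Φ (Fin.cons (g 0 a) (fun i : Fin c => ((A i.succ).map (g i.succ)).sum)))).sum := by
      intro B
      induction B using Multiset.induction_on with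
      | empty =>
        rw [Multiset.map_zero, Multiset.map_zero, Multiset.sum_zero, Multiset.sum_zero]
        exact Φ.map_coord_zero 0 (by rw [Fin.cons_zero])
      | cons b B ihB =>
        rw [Multiset.map_cons, Multiset.map_cons, Multiset.sum_cons, Multiset.sum_cons, ← ihB]
        exact Φ.cons_add _ _ _
    rw [e1, e2, piM_succ, Multiset.map_bind, Multiset.sum_bind]
    congr 1
    refine Multiset.map_congr rfl fun a _ => ?_
    rw [key a, Multiset.map_map]
    congr 1
    refine Multiset.map_congr rfl fun f _ => ?_
    show Φ _ = Φ _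
    congr 1
    funext i
    refine Fin.cases ?_ (fun i => ?_) i
    · rw [Fin.cons_zero, Fin.cons_zero]
    · rw [Fin.cons_succ, Fin.cons_succ]

end ES
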