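import Pool.Agent.H8.FX.PsiX
import Pool.Agent.H67.EX.PiM
import Pool.Agent.H67.EX.Fco
import Pool.Agent.H67.EX.MachH

/-! # EX.MsX : states with `c` columns over the same base points, families, the class `PsiX` (definitions and trivial facts, complete)

A state `m = (B; (x_j, y_j, M_j)_j)`: a multiset of base points common to all columns, and for every column a point and a matrix; `m.st j` is the
state of the `j`-th column (`ES.Ms`).  `FamX X k z m0`: a Galois stable family of states over `Om K` which reduces to `m0` at one place, and such that at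
another place every member has a column `j` all of whose factorisations contain a point which makes every tuple zero.
`PsiX`, `rowsL`, `NulX`: see `H8/FX/PsiX`. -/

namespace FX

open ES H68.BB Polynomial

/-- a state with `c` columns -/
@[ext] structure MsX (s c : ℕ) (F : Type) [Field F] where
  B : Multiset (Fin s → F)
  x : Fin c → F
  y : Fin c → F
  M : Fin c → Mat F

/-- apply a homomorphism -/
noncomputable def MsX.map {s c : ℕ} {F G : Type} [Field F] [Field G] (σ : F →+* G) (m : MsX s c F) : MsX s c G :=
  ⟨m.B.map (fun β i => σ (β i)), fun j => σ (m.x j), fun j => σ (m.y j), fun j => (m.M j).map (Polynomial.map σ)⟩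

/-- the state of the `j`-th column -/
def MsX.st {s c : ℕ} {F : Type} [Field F] (m : MsX s c F) (j : Fin c) : Ms s F := ⟨m.B, m.x j, m.y j, m.M j⟩

theorem MsX.st_map {s c : ℕ} {F G : Type} [Field F] [Field G] (σ : F →+* G) (m : MsX s c F) (j : Fin c) :
    (m.map σ).st j = (m.st j).map σ := rfl

section
variable {K : Type} [Field K] {s c : ℕ}

/-- every row on `X` over the base point of `P` with the point `P` in the `j`-th column makes every tuple zero -/
def NulC (X : XD K s c) (k : ℕ) (π : Place K (Om K)) (j : Fin c) (P : Pt s (Om K)) : Prop :=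
  ∀ R : Row s c (Om K), OnX X R → R.P j = P → R.β = P.β → NulX X k π R

/-- a family of states through `m0` -/
def FamX (X : XD K s c) (k : ℕ) (z : Fin c → K) (m0 : MsX s c K) : Prop :=
  ∃ (M : Multiset (MsX s c (Om K))) (π0 π1 : Place K (Om K)), M ≠ 0 ∧ (∀ m ∈ M, ∀ j, OnS (X.W j) k (m.st j)) ∧
    (∀ σ : Om K ≃ₐ[RatFunc K] Om K, M.map (MsX.map (σ : Om K →+* Om K)) = M) ∧ (∀ m ∈ M, ∀ j, RdS π0 (m.st j) (m0.st j)) ∧
    (∀ m ∈ M, ∃ j, ∀ w v : Om K, algebraMap K (Om K) (z j) * w ^ 2 + algebraMap K (Om K) (z j) ^ 2 * v ^ 2 = m.x j →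
      ∀ f ∈ FacS (X.W j) (m.st j) w v, ∃ g ∈ f, NulC X k π1 j g.pt)

/-- good factorisations of the columns with the same cusps have the same class, in every common order (to be proved with the transport) -/
def CSX (X : XD K s c) (k : ℕ) (l : List (Fin s → K)) : Prop :=
  ∀ (m0 : MsX s c K) (w v : Fin c → K) (l' : List (Fin s → K)) (f f' : Fin c → List (Lk s K)),
    (l : Multiset (Fin s → K)) = m0.B → (l' : Multiset (Fin s → K)) = m0.B → (∀ j, OnS (X.W j) k (m0.st j)) →
    (∀ j, SepB (X.W j) m0.B) → (∀ j, GFac (X.W j) k (m0.st j) (w j) (v j) (f j)) → (∀ j, (f j).map Prod.fst = l) →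
    (∀ j, GFac (X.W j) k (m0.st j) (w j) (v j) (f' j)) → (∀ j, (f' j).map Prod.fst = l') →
    PsiX X k l' f' = PsiX X k l f

end

end FX
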