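import Pool.Agent.H67.EX.NestX
import Pool.Agent.H67.EX.FibreX
import Pool.Agent.H99.GX.FamBX

/-! # FX.MainX : the main theorem over a chart of an arbitrary base curve (complete)

`nest_x` + `fibreX` + `famX`. -/

namespace FX

open ES H68.BB GB Module

theorem main_x (K : Type) [Field K] [IsAlgClosed K] [CharZero K] : MainStmt K := by
  intro s c k X R _ _ P C hX hc hg Q hQ hIn
  have hk : 0 < k := by
    have h1 := hg.k
    have h2 : 0 < ∑ j, X.n j := by
      have h3 : X.n ⟨0, hc⟩ ≤ ∑ j, X.n j := Finset.single_le_sum (f := fun j => X.n j) (fun _ _ => Nat.zero_le _) (Finset.mem_univ _)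
      exact lt_of_lt_of_le (hX.n ⟨0, hc⟩) h3
    have h4 := Nat.mul_pos h2 hg.d
    omega
  let q : AAX k X →+ AAX k X ⧸ AddCommGroup.torsion (AAX k X) := QuotientAddGroup.mk' (AddCommGroup.torsion (AAX k X))
  have hq : ∀ x : AAX k X, q x = 0 ↔ IsOfFinAddOrder x := fun x =>
    (QuotientAddGroup.eq_zero_iff (N := AddCommGroup.torsion (AAX k X)) x).trans Iff.rfl
  have htf : ∀ (x : AAX k X ⧸ AddCommGroup.torsion (AAX k X)) (n : ℕ), 0 < n → n • x = 0 → x = 0 := by
    intro x n hn hx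
    obtain ⟨y, rfl⟩ := QuotientAddGroup.mk'_surjective _ x
    rw [← map_nsmul] at hx
    have h1 := (hq _).1 hx
    apply (hq _).2
    rw [isOfFinAddOrder_iff_nsmul_eq_zero] at h1 ⊢
    obtain ⟨m, hm, h2⟩ := h1
    exact ⟨m * n, Nat.mul_pos hm hn, by rw [mul_smul]; exact h2⟩
  rw [← hq]
  refine nest_x C hX hg.inf hg.ab hk htf q ?_ hQ hIn
  intro b hnd hsep hkap Q hQ hQβ
  by_cases hz : ∃ i j, ((Q i).P j).β = 0
  · obtain ⟨i, j, hij⟩ := hz
    rw [clsX_zero hX hQ hij, map_zero]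
  push Not at hz
  rw [hq]
  -- normalisation of the points
  have hN : ∀ i j, ∃ d : K, d ≠ 0 ∧ (((Q i).P j).smul (X.W j) d).β = C.bp (b i) := by
    intro i j
    rcases (hQ i).ov j with h0 | ⟨d, hd, he⟩
    · exact absurd h0 (hz i j)
    · refine ⟨d⁻¹, inv_ne_zero hd, ?_⟩
      funext l
      show d⁻¹ ^ X.v l * ((Q i).P j).β l = C.bp (b i) l
      rw [he, hQβ i]
      show d⁻¹ ^ X.v l * (d ^ X.v l * C.bp (b i) l) = C.bp (b i) l
      rw [← mul_assoc, ← mul_pow, inv_mul_cancel₀ hd, one_pow, one_mul]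
  choose d hd hP using hN
  have hcls : clsX X Q = clsX X (rows (fun i => C.bp (b i)) fun j i => ((Q i).P j).smul (X.W j) (d i j)) := by
    symm
    exact cls_scale_all hQ (fun i => (hQβ i).symm) (fun i j => ⟨d i j, hd i j, rfl⟩)
  rw [hcls]
  have hinj : Function.Injective b := by
    intro i i' hii
    by_contra hne
    exact hsep ⟨0, hc⟩ i i' hne (by rw [hii])
  obtain ⟨j0, hj0⟩ := hg.inf
  refine fibreX hX hk hc (β := fun i => C.bp (b i)) ?_ ?_ hnd hsep hkap ?_ ?_
  · intro i f hf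
    have h3 : ev f (C.bp (b i)) = b i (MvPolynomial.aeval C.t f) := MvPolynomial.comp_aeval_apply C.t (b i) f |>.symm
    rw [h3, C.I f hf, map_zero]
  · intro i
    show C.bp (b i) ≠ 0
    rw [← hQβ i]
    exact (hQ i).ne
  · intro f _ hf hl T hT h4 hy z hz
    exact famX C hX hj0 hg.ab hg.d hg.k hinj (fun i j => hnd j i) hf hl hT h4 hy hz
  · intro j i
    exact ⟨OnW_smul (hX.W j) ((hQ i).on j) (hd i j), hP i j⟩

end FX
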