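import Pool.Agent.H67.EX.ExtX
import Pool.Agent.H79.FX.Chx
import Pool.Agent.H67.ES.ExtD

/-! # FX.NestX : from tuples over generic base points to all tuples over the chart (complete)

`nest_gen`: one slot after the other with `ext_x`.  `nest_x`: the conditions `ND`, `Sep`, `Kap` for all columns exclude finitely many base points in every step. -/

namespace FX

open ES H68.BB GB Module

variable {K : Type} [Field K] [IsAlgClosed K] {s c k : ℕ} {X : XD K s c} {R : Type} [CommRing R] [Algebra K R] {P : OnePt K R} (C : Cht X P)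

private theorem nx_pt (P : OnePt K R) : Nonempty (R →ₐ[K] K) := by
  obtain ⟨N, hN⟩ := P.big
  obtain ⟨f, hf, hd⟩ := hN (N + 1) (Nat.le_succ N)
  have h1 : 0 < (zk K f).card := by
    rw [zk_card P hf, hd]
    exact Nat.succ_pos N
  obtain ⟨c, _⟩ := Multiset.card_pos_iff_exists_mem.1 h1
  exact ⟨c⟩

theorem bp_U (hX : X.Ok) {b : R →ₐ[K] K} (hb : b ∈ C.U) : C.bp b = 0 := by
  funext l
  change b (C.t l) = 0
  by_cases h0 : C.t l = 0
  · rw [h0, map_zero]
  · have h1 := C.ord l h0
    have h2 : b ∈ X.v l • C.U := Multiset.mem_nsmul.mpr ⟨(hX.v l).ne', hb⟩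
    exact (mem_zk P h0 b).mp (Multiset.mem_of_le h1 h2)

omit [IsAlgClosed K] in
theorem dd_scale {W : Wm K s} (hW : W.Ok) {β : Fin s → K} (c : K) (h : dd W β = 0) :
    dd W (fun i => c ^ W.v i * β i) = 0 := by
  unfold dd at h ⊢
  rw [ev_scale hW.a, ev_scale hW.b]
  have e1 : (c ^ (6 * W.n)) ^ 2 = c ^ (12 * W.n) := by
    rw [← pow_mul]
    congr 1
    ring
  have e2 : (c ^ (4 * W.n)) ^ 3 = c ^ (12 * W.n) := by
    rw [← pow_mul]
    congr 1
    ring
  rw [mul_pow, mul_pow, e1, e2, ← mul_sub, h, mul_zero]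

theorem nest_gen [CharZero K] (hX : X.Ok) (hinf : ∃ j, dd (X.W j) C.inf = 0) {B' : Type} [AddCommGroup B']
    (hB : ∀ (x : B') (n : ℕ), 0 < n → n • x = 0 → x = 0) (h : AAX k X →+ B')
    (E : ℕ → (Fin k → (R →ₐ[K] K)) → Prop) (h0 : ∀ b, E 0 b)
    (hs : ∀ (i : Fin k) (b : Fin k → (R →ₐ[K] K)), E i b → {b' : R →ₐ[K] K | ¬ E (i + 1) (Function.update b i b')}.Finite)
    (hE : ∀ b : Fin k → (R →ₐ[K] K), E k b → ∀ Q : Fin k → Row s c K, (∀ i, OnX X (Q i)) → (∀ i, (Q i).β = C.bp (b i)) →
      h (clsX X Q) = 0)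
    {Q : Fin k → Row s c K} (hQ : ∀ i, OnX X (Q i)) (hIn : ∀ i, C.In (Q i).β) : h (clsX X Q) = 0 := by
  classical
  obtain ⟨b0⟩ := nx_pt P
  have key : ∀ n m : ℕ, m + n = k → ∀ (Q : Fin k → Row s c K) (b : Fin k → (R →ₐ[K] K)), (∀ i, OnX X (Q i)) →
      (∀ i, C.In (Q i).β) → (∀ j : Fin k, (j : ℕ) < m → (Q j).β = C.bp (b j)) → E m b → h (clsX X Q) = 0 := by
    intro n
    induction n with
    | zero =>
      intro m hm Q b hQ _ h1 h2
      rw [add_zero] at hm
      subst hm
      exact hE b h2 Q hQ fun i => h1 i i.2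
    | succ n ih =>
      intro m hm Q b hQ hIn h1 h2
      have hmk : m < k := by omega
      set i : Fin k := ⟨m, hmk⟩ with hi
      have hk : 0 < k := by omega
      rcases hIn i with ⟨e, he, b1, hb1, hβ⟩ | ⟨e, he, hβ⟩
      · -- normalise the base vector
        have he' : e⁻¹ ≠ 0 := inv_ne_zero he
        have hcl := clsX_scaleβ hQ i he'
        set r : Row s c K := ⟨fun l => e⁻¹ ^ X.v l * (Q i).β l, (Q i).P⟩ with hr
        have hrβ : r.β = C.bp b1 := by
          funext l
          show e⁻¹ ^ X.v l * (Q i).β l = C.bp b1 l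
          rw [hβ, ← mul_assoc, ← mul_pow, inv_mul_cancel₀ he, one_pow, one_mul]
        have hron : OnX X r := by
          have hq := hQ i
          have hne : C.bp b1 ≠ 0 := by
            intro h3
            apply hq.ne
            rw [hβ, h3]
            funext l
            exact mul_zero _
          refine ⟨by rw [hrβ]; exact hne, fun f hf => ?_, hq.on, fun j => ?_⟩
          · rw [hrβ]
            show ev f (C.bp b1) = 0
            have h3 : ev f (C.bp b1) = b1 (MvPolynomial.aeval C.t f) := MvPolynomial.comp_aeval_apply C.t b1 f |>.symm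
            rw [h3, C.I f hf, map_zero]
          · rcases hq.ov j with h3 | ⟨d, hd, h3⟩
            · exact Or.inl h3
            · refine Or.inr ⟨d * e, mul_ne_zero hd he, ?_⟩
              rw [hrβ]
              show ((Q i).P j).β = fun l => (d * e) ^ X.v l * C.bp b1 l
              rw [h3]
              funext l
              rw [hβ, mul_pow]
              ring
        rw [← hcl]
        refine ext_x C hX hinf hQ i hB h ?_ hron hrβ
        refine (hs i b h2).subset ?_
        rintro b' ⟨r', hr', hr'β, hne⟩ hEE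
        apply hne
        refine ih (m + 1) (by omega) (Function.update Q i r') (Function.update b i b') ?_ ?_ ?_ hEE
        · intro l
          by_cases hl : l = i
          · rw [hl, Function.update_self]
            exact hr'
          · rw [Function.update_of_ne hl]
            exact hQ l
        · intro l
          by_cases hl : l = i
          · rw [hl, Function.update_self, hr'β]
            left
            refine ⟨1, one_ne_zero, b', ?_, ?_⟩
            · intro hU
              apply hr'.ne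
              rw [hr'β]
              exact bp_U C hX hU
            · funext l
              rw [one_pow, one_mul]
          · rw [Function.update_of_ne hl]
            exact hIn l
        · intro l hl
          by_cases hli : l = i
          · rw [hli, Function.update_self, Function.update_self]
            exact hr'β
          · rw [Function.update_of_ne hli, Function.update_of_ne hli]
            have h3 : (l : ℕ) ≠ m := fun hh => hli (Fin.ext hh)
            exact h1 l (by omega)
      · obtain ⟨j0, hj0⟩ := hinf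
        rw [clsX_sing hX hk hQ (i := i) (j := j0) (by rw [hβ]; exact dd_scale (hX.W j0) e hj0), map_zero]
  exact key k 0 (Nat.zero_add k) Q (fun _ => b0) hQ hIn (fun j hj => absurd hj (Nat.not_lt_zero _)) (h0 _)

private theorem nx_fin {j : Fin c} (hab : ∀ e e' : K, e • C.A j ^ 3 = e' • C.B j ^ 2 → e = 0 ∧ e' = 0) {e e' : K}
    (hcd : ¬ (e = 0 ∧ e' = 0)) : {b : R →ₐ[K] K | e' * b (C.B j) ^ 2 = e * b (C.A j) ^ 3}.Finite := by
  classical
  have h0 : e • C.A j ^ 3 - e' • C.B j ^ 2 ≠ 0 := fun h => hcd (hab e e' (sub_eq_zero.1 h))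
  refine (zk K (e • C.A j ^ 3 - e' • C.B j ^ 2)).toFinset.finite_toSet.subset fun b hb => ?_
  rw [Finset.mem_coe, Multiset.mem_toFinset, mem_zk P h0]
  rw [map_sub, map_smul, map_smul, map_pow, map_pow, smul_eq_mul, smul_eq_mul]
  exact sub_eq_zero.2 (Eq.symm hb)

omit [IsAlgClosed K] in
/-- the values of `κ` for a label with `a ≠ 0` -/
private theorem nx_kap {c : K × K} (hc : c.1 ≠ 0) : {x : K | Kap c x}.Finite := by
  classical
  set p : Polynomial K := Polynomial.C (c.1 ^ 3) * (Polynomial.X + 1) ^ 2 - Polynomial.C (4 * c.2 ^ 2) * Polynomial.X with hp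
  have hp0 : p ≠ 0 := by
    intro h0
    have h1 := congrArg (fun q : Polynomial K => q.eval 0) h0
    simp only [hp, Polynomial.eval_sub, Polynomial.eval_mul, Polynomial.eval_C, Polynomial.eval_pow, Polynomial.eval_add,
      Polynomial.eval_X, Polynomial.eval_one, Polynomial.eval_zero] at h1
    exact pow_ne_zero 3 hc (by linear_combination h1)
  refine (Polynomial.finite_setOf_isRoot hp0).subset fun x hx => ?_
  show p.eval x = 0
  simp only [hp, Polynomial.eval_sub, Polynomial.eval_mul, Polynomial.eval_C, Polynomial.eval_pow, Polynomial.eval_add,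
      Polynomial.eval_X, Polynomial.eval_one]
  have h2 := hx.2
  linear_combination h2

theorem lab_bp (j : Fin c) (b : R →ₐ[K] K) : (lab (X.W j) (C.bp b) : K × K) = (b (C.A j), b (C.B j)) := by
  unfold lab
  have h1 := ev_bp (C.col j) b (X.W j).a
  have h2 := ev_bp (C.col j) b (X.W j).b
  rw [Cht.col_bp] at h1 h2
  rw [h1, h2]
  rfl

/-- the conditions on the first `m` base points -/
structure GenE (k m : ℕ) (b : Fin k → (R →ₐ[K] K)) : Prop where
  nd : ∀ (j : Fin c) (i : Fin k), (i : ℕ) < m → ES.ND (lab (X.W j) (C.bp (b i)) : K × K)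
  sep : ∀ (j : Fin c) (i i' : Fin k), (i : ℕ) < m → (i' : ℕ) < m → i ≠ i' →
    Sep (lab (X.W j) (C.bp (b i)) : K × K) (lab (X.W j) (C.bp (b i')))
  kap : m = k → ∀ (j : Fin c) (κ : Fin k → K), (∀ i, Kap (lab (X.W j) (C.bp (b i))) (κ i)) → ∏ i, κ i ≠ 1

theorem genE_step [CharZero K] (hab : ∀ j, ∀ e e' : K, e • C.A j ^ 3 = e' • C.B j ^ 2 → e = 0 ∧ e' = 0) (i : Fin k)
    (b : Fin k → (R →ₐ[K] K)) (hb : GenE C k i b) : {b' : R →ₐ[K] K | ¬ GenE C k (i + 1) (Function.update b i b')}.Finite := by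
  classical
  have hb1 : (⋃ j : Fin c, {b' : R →ₐ[K] K | (0 : K) * b' (C.B j) ^ 2 = 1 * b' (C.A j) ^ 3}).Finite :=
    Set.finite_iUnion fun j => nx_fin C (hab j) (fun hh => one_ne_zero hh.1)
  have hb2 : (⋃ j : Fin c, {b' : R →ₐ[K] K | (1 : K) * b' (C.B j) ^ 2 = 0 * b' (C.A j) ^ 3}).Finite :=
    Set.finite_iUnion fun j => nx_fin C (hab j) (fun hh => one_ne_zero hh.2)
  have hb3 : (⋃ j : Fin c, {b' : R →ₐ[K] K | (1 : K) * b' (C.B j) ^ 2 = 1 * b' (C.A j) ^ 3}).Finite :=
    Set.finite_iUnion fun j => nx_fin C (hab j) (fun hh => one_ne_zero hh.1)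
  have hb4 : (⋃ j : Fin c, ⋃ l : {l : Fin k // (l : ℕ) < i},
      {b' : R →ₐ[K] K | (b l.1 (C.A j)) ^ 3 * b' (C.B j) ^ 2 = (b l.1 (C.B j)) ^ 2 * b' (C.A j) ^ 3}).Finite := by
    refine Set.finite_iUnion fun j => Set.finite_iUnion fun l => nx_fin C (hab j) (fun hh => ?_)
    have hnd' := (hb.nd j l.1 l.2).a
    rw [lab_bp] at hnd'
    exact pow_ne_zero 3 hnd' hh.2
  -- the possible values of `κ_i`
  set T : Fin c → Set K := fun j => {x : K | ((i : ℕ) + 1 = k) ∧ x ≠ 0 ∧ ∃ κ : Fin k → K,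
    (∀ l, l ≠ i → Kap (lab (X.W j) (C.bp (b l))) (κ l)) ∧ κ i = x ∧ ∏ l, κ l = 1} with hT
  have hTfin : ∀ j, (T j).Finite := by
    intro j
    by_cases hik : (i : ℕ) + 1 = k
    · have hpi : (Set.pi Set.univ fun l : Fin k => if l = i then ({1} : Set K) else {x : K | Kap (lab (X.W j) (C.bp (b l))) x}).Finite := by
        refine Set.Finite.pi fun l => ?_
        split_ifs with hl
        · exact Set.finite_singleton _
        · have hli : (l : ℕ) < i := by
            have h1 : (l : ℕ) ≠ i := fun hh => hl (Fin.ext hh)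
            have h2 := l.2
            omega
          exact nx_kap (hb.nd j l hli).a
      refine (hpi.image fun κ => (∏ l, κ l)⁻¹).subset ?_
      rintro x ⟨-, hx0, κ, h1, h2, h3⟩
      refine ⟨Function.update κ i 1, ?_, ?_⟩
      · rw [Set.mem_pi]
        intro l _
        by_cases hl : l = i
        · rw [if_pos hl, hl, Function.update_self]
          exact Set.mem_singleton _
        · rw [if_neg hl, Function.update_of_ne hl]
          exact h1 l hl
      · show (∏ l, Function.update κ i 1 l)⁻¹ = x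
        rw [Finset.prod_update_of_mem (Finset.mem_univ i), one_mul]
        have h4 : x * ∏ l ∈ Finset.univ \ {i}, κ l = 1 := by
          rw [← h3, ← h2, Finset.sdiff_singleton_eq_erase]
          exact Finset.mul_prod_erase _ _ (Finset.mem_univ i)
        exact inv_eq_of_mul_eq_one_left h4
    · refine Set.finite_empty.subset ?_
      rintro x ⟨h1, -⟩
      exact absurd h1 hik
  have hb5 : (⋃ j : Fin c, ⋃ x ∈ T j, {b' : R →ₐ[K] K | (4 * x) * b' (C.B j) ^ 2 = (x + 1) ^ 2 * b' (C.A j) ^ 3}).Finite := by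
    refine Set.finite_iUnion fun j => (hTfin j).biUnion fun x hx => nx_fin C (hab j) (fun hh => ?_)
    have h4 : (4 : K) * x ≠ 0 := mul_ne_zero (by norm_num) hx.2.1
    exact h4 hh.2
  refine ((((hb1.union hb2).union hb3).union hb4).union hb5).subset ?_
  intro b' hbad
  by_contra hgood
  apply hbad
  simp only [Set.mem_union, not_or] at hgood
  obtain ⟨⟨⟨⟨g1, g2⟩, g3⟩, g4⟩, g5⟩ := hgood
  have ga : ∀ j, b' (C.A j) ≠ 0 := by
    intro j hz
    apply g1
    refine Set.mem_iUnion.2 ⟨j, ?_⟩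
    show 0 * b' (C.B j) ^ 2 = 1 * b' (C.A j) ^ 3
    rw [hz]
    ring
  have gb : ∀ j, b' (C.B j) ≠ 0 := by
    intro j hz
    apply g2
    refine Set.mem_iUnion.2 ⟨j, ?_⟩
    show 1 * b' (C.B j) ^ 2 = 0 * b' (C.A j) ^ 3
    rw [hz]
    ring
  have gd : ∀ j, b' (C.B j) ^ 2 ≠ b' (C.A j) ^ 3 := by
    intro j hz
    apply g3
    refine Set.mem_iUnion.2 ⟨j, ?_⟩
    show 1 * b' (C.B j) ^ 2 = 1 * b' (C.A j) ^ 3
    rw [one_mul, one_mul]
    exact hz
  have gj : ∀ (j : Fin c) (l : Fin k), (l : ℕ) < i → (b l (C.A j)) ^ 3 * b' (C.B j) ^ 2 ≠ (b l (C.B j)) ^ 2 * b' (C.A j) ^ 3 := by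
    intro j l hl hz
    apply g4
    exact Set.mem_iUnion.2 ⟨j, Set.mem_iUnion.2 ⟨⟨l, hl⟩, hz⟩⟩
  have hlt : ∀ l : Fin k, (l : ℕ) < i + 1 → l ≠ i → (l : ℕ) < i := by
    intro l hl hli
    have : (l : ℕ) ≠ i := fun hh => hli (Fin.ext hh)
    omega
  refine ⟨fun j l hl => ?_, fun j l l' hl hl' hll => ?_, fun hk j κ hκ hprod => ?_⟩
  · by_cases hli : l = i
    · rw [hli, Function.update_self, lab_bp]
      exact ⟨ga j, gb j, gd j⟩
    · rw [Function.update_of_ne hli]
      exact hb.nd j l (hlt l hl hli)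
  · unfold ES.Sep
    by_cases hli : l = i
    · have hli' : l' ≠ i := fun hh => hll (hli.trans hh.symm)
      rw [hli, Function.update_self, Function.update_of_ne hli', lab_bp, lab_bp]
      intro hz
      apply gj j l' (hlt l' hl' hli')
      rw [mul_comm]
      exact hz
    · by_cases hli' : l' = i
      · rw [hli', Function.update_self, Function.update_of_ne hli, lab_bp, lab_bp]
        intro hz
        apply gj j l (hlt l hl hli)
        rw [mul_comm]
        exact hz.symm
      · rw [Function.update_of_ne hli, Function.update_of_ne hli']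
        exact hb.sep j l l' (hlt l hl hli) (hlt l' hl' hli') hll
  · apply g5
    have h1 := hκ i
    rw [Function.update_self, lab_bp] at h1
    refine Set.mem_iUnion.2 ⟨j, ?_⟩
    rw [Set.mem_iUnion₂]
    refine ⟨κ i, ⟨hk, h1.1, κ, fun l hl => ?_, rfl, hprod⟩, ?_⟩
    · have h2 := hκ l
      rwa [Function.update_of_ne hl] at h2
    · have h2 := h1.2
      show (4 * κ i) * b' (C.B j) ^ 2 = (κ i + 1) ^ 2 * b' (C.A j) ^ 3
      linear_combination -h2

theorem nest_x [CharZero K] (hX : X.Ok) (hinf : ∃ j, dd (X.W j) C.inf = 0)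
    (hab : ∀ j, ∀ e e' : K, e • C.A j ^ 3 = e' • C.B j ^ 2 → e = 0 ∧ e' = 0) (hk : 0 < k) {B' : Type} [AddCommGroup B']
    (hB : ∀ (x : B') (n : ℕ), 0 < n → n • x = 0 → x = 0) (h : AAX k X →+ B')
    (hG : ∀ b : Fin k → (R →ₐ[K] K), (∀ j i, ES.ND (lab (X.W j) (C.bp (b i)) : K × K)) →
      (∀ j i i', i ≠ i' → Sep (lab (X.W j) (C.bp (b i)) : K × K) (lab (X.W j) (C.bp (b i')))) →
      (∀ j, ∀ κ : Fin k → K, (∀ i, Kap (lab (X.W j) (C.bp (b i))) (κ i)) → ∏ i, κ i ≠ 1) →
      ∀ Q : Fin k → Row s c K, (∀ i, OnX X (Q i)) → (∀ i, (Q i).β = C.bp (b i)) → h (clsX X Q) = 0)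
    {Q : Fin k → Row s c K} (hQ : ∀ i, OnX X (Q i)) (hIn : ∀ i, C.In (Q i).β) : h (clsX X Q) = 0 := by
  refine nest_gen C hX hinf hB h (GenE C k) (fun b => ⟨fun j i hi => absurd hi (Nat.not_lt_zero _),
    fun j i i' hi => absurd hi (Nat.not_lt_zero _), fun hk' => absurd hk' (by omega)⟩)
    (fun i b hb => genE_step C hab i b hb) ?_ hQ hIn
  intro b hb Q hQ hQβ
  exact hG b (fun j i => hb.nd j i i.2) (fun j i i' hii => hb.sep j i i' i.2 i'.2 hii) (hb.kap rfl) Q hQ hQβ

end FX
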