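import Pool.Agent.H67.EX.MsX
import Pool.Agent.H67.ES.FacLim

/-! # EX.RedX : the limit of the ordered factorisations of a state with `c` columns, for a given order and given cusps

`redX`: `A := piM c (fco ..)` is not empty and `(card (Z6 k K))^c • A.map (rowsL k l)` has the limit `card A • PsiX X k l0 f0`, where `f0 j` is a good
factorisation of the `j`-th column of `m0` in the order `l0` (copy of `ES.fac_lim` with `c` columns; `CSX` instead of `psi_eq`). -/

namespace FX

open ES H68.BB Polynomial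

variable {K : Type} [Field K] [IsAlgClosed K] [CharZero K] {s c k : ℕ} {X : XD K s c} {π : Place K (Om K)}

omit [IsAlgClosed K] [CharZero K] in
private theorem rx_Z6 {z : Fin k → K} (h : z ∈ Z6 k K) : (∀ i, z i ^ 6 = 1) ∧ ∏ i, z i = 1 := by
  classical
  unfold Z6 at h
  rw [Finset.mem_filter, Fintype.mem_piFinset] at h
  refine ⟨fun i => ?_, h.2⟩
  have h1 := h.1 i
  unfold mu6 at h1
  rwa [Polynomial.mem_nthRootsFinset (by norm_num)] at h1

omit [IsAlgClosed K] [CharZero K] in
private theorem rx_nth {F : Type} [Field F] {f : List (Lk s F)} (hf : f.length = k) (i : Fin k) :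
    nth f i = f[(i : ℕ)]'(by rw [hf]; exact i.2) := by
  unfold nth
  exact List.getD_eq_getElem _ _ _

omit [IsAlgClosed K] [CharZero K] in
private theorem rx_red {f : List (Lk s (Om K))} {f1 : List (Lk s K)} (h : List.Forall₂ (RdLk π) f f1)
    (hf : f.length = k) (i : Fin k) : RdLk π (nth f i) (nth f1 i) := by
  have hf1 : f1.length = k := by rw [← h.length_eq, hf]
  rw [rx_nth hf, rx_nth hf1]
  exact (List.forall₂_iff_get.1 h).2 i (by rw [hf]; exact i.2) (by rw [hf1]; exact i.2)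

omit [IsAlgClosed K] [CharZero K] in
/-- the base list of the reduction is determined by the base list -/
private theorem rx_base {f f' : List (Lk s (Om K))} {f1 f1' : List (Lk s K)} (h : List.Forall₂ (RdLk π) f f1)
    (h' : List.Forall₂ (RdLk π) f' f1') (hff : f.map Prod.fst = f'.map Prod.fst) : f1.map Prod.fst = f1'.map Prod.fst := by
  have := π.isLocal
  have a1 : List.Forall₂ (fun (β : Fin s → Om K) (β0 : Fin s → K) => ∀ i, Rd π.V π.φ (β i) (β0 i)) (f.map Prod.fst) (f1.map Prod.fst) := by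
    rw [List.forall₂_map_left_iff, List.forall₂_map_right_iff]
    exact h.imp fun a b hab => hab.1
  have a2 : List.Forall₂ (fun (β : Fin s → Om K) (β0 : Fin s → K) => ∀ i, Rd π.V π.φ (β i) (β0 i)) (f'.map Prod.fst) (f1'.map Prod.fst) := by
    rw [List.forall₂_map_left_iff, List.forall₂_map_right_iff]
    exact h'.imp fun a b hab => hab.1
  rw [← hff] at a2
  have key : ∀ (l : List (Fin s → Om K)) (u v : List (Fin s → K)),
      List.Forall₂ (fun (β : Fin s → Om K) (β0 : Fin s → K) => ∀ i, Rd π.V π.φ (β i) (β0 i)) l u →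
      List.Forall₂ (fun (β : Fin s → Om K) (β0 : Fin s → K) => ∀ i, Rd π.V π.φ (β i) (β0 i)) l v → u = v := by
    intro l
    induction l with
    | nil =>
      intro u v hu hv
      rw [List.forall₂_nil_left_iff] at hu hv
      rw [hu, hv]
    | cons b l ih =>
      intro u v hu hv
      obtain ⟨b1, u1, hb1, hu1, rfl⟩ := List.forall₂_cons_left_iff.1 hu
      obtain ⟨b2, v1, hb2, hv1, rfl⟩ := List.forall₂_cons_left_iff.1 hv
      rw [ih u1 v1 hu1 hv1]
      congr 1
      funext i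
      exact (hb1 i).unique (hb2 i)
  exact key _ _ _ a1 a2

private theorem rx_bind {α β : Type} (A : Multiset α) (b : Multiset β) : A.bind (fun _ => b) = Multiset.card A • b := by
  induction A using Multiset.induction_on with
  | empty => simp
  | cons x A ih => rw [Multiset.cons_bind, ih, Multiset.card_cons, succ_nsmul']

theorem redX (hk : 0 < k) (hc : 0 < c) {l0 : List (Fin s → K)} (hC : CSX X k l0) {m : MsX s c (Om K)} {m0 : MsX s c K}
    (hm : ∀ j, OnS (X.W j) k (m.st j)) (hm0 : ∀ j, OnS (X.W j) k (m0.st j))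
    (hsep : ∀ j, SepB (X.W j) m0.B) (hl0 : (l0 : Multiset (Fin s → K)) = m0.B)
    (hr : ∀ j, RdS π (m.st j) (m0.st j)) {z : Fin c → K} (hz : ∀ j, z j ^ 3 = 1) {q : Fin c → Om K × Om K} {q0 : Fin c → K × K}
    (hq : ∀ j, Rd π.V π.φ (q j).1 (q0 j).1 ∧ Rd π.V π.φ (q j).2 (q0 j).2)
    (hwv : ∀ j, ((q j).1 * (q j).2) ^ 2 = (m.st j).A (X.W j))
    (hx : ∀ j, algebraMap K (Om K) (z j) * (q j).1 ^ 2 + algebraMap K (Om K) (z j) ^ 2 * (q j).2 ^ 2 = m.x j)
    {f0 : Fin c → List (Lk s K)} (hf : ∀ j, GFac (X.W j) k (m0.st j) (q0 j).1 (q0 j).2 (f0 j))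
    (hf0 : ∀ j, (f0 j).map Prod.fst = l0) {l : List (Fin s → Om K)} (hl : (l : Multiset (Fin s → Om K)) = m.B) :
    0 < Multiset.card (piM c (fun j => fco (X.W j) (m.st j) (q j).1 (q j).2 l)) ∧
      LimX X π ((Z6 k K).card ^ c • (piM c (fun j => fco (X.W j) (m.st j) (q j).1 (q j).2 l)).map (rowsL k l))
        (Multiset.card (piM c (fun j => fco (X.W j) (m.st j) (q j).1 (q j).2 l)) • PsiX X k l0 f0) := by
  classical
  have := π.isLocal
  have hop := fun j => fco_open (W := X.W j) hk (hm j) (hm0 j) (hr j) (hz j) (hq j).1 (hq j).2 (hwv j) (hx j) (hf j) (l := l) hl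
  have hlen : ∀ j, ∀ f ∈ FacS (X.W j) (m.st j) (q j).1 (q j).2, f.length = k := by
    intro j f h
    rw [FacS_len h, ← (hm j).st.card, Multiset.card_map]
  have hll : l.length = k := by
    have h1 := congrArg Multiset.card hl
    rw [Multiset.coe_card] at h1
    rw [h1, ← (hm ⟨0, hc⟩).st.card, Multiset.card_map]
    rfl
  refine ⟨?_, ?_⟩
  · rw [card_piM]
    exact Finset.prod_pos fun j _ => (hop j).1
  set A := piM c (fun j => fco (X.W j) (m.st j) (q j).1 (q j).2 l) with hA
  -- averaging over the rotations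
  have key : (Z6 k K).card ^ c • A.map (rowsL k l) = A.bind fun f => (piM c (fun _ => (Z6 k K).val)).map fun ζ =>
      rowsL k l (fun j => rotL k (f j) fun i => algebraMap K (Om K) (ζ j i)) := by
    rw [Multiset.bind_map_comm]
    have e5 := rx_bind (piM c (fun _ => (Z6 k K).val)) (A.map (rowsL k l))
    rw [card_piM, Finset.prod_const, Finset.card_univ, Fintype.card_fin, Finset.card_val] at e5
    rw [← e5]
    refine Multiset.bind_congr fun ζ hζ => ?_
    rw [mem_piM] at hζ
    have e := piM_map (fun j => fco (X.W j) (m.st j) (q j).1 (q j).2 l)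
      (fun j f => rotL k f fun i => algebraMap K (Om K) (ζ j i))
    have e2 : (fun j => (fco (X.W j) (m.st j) (q j).1 (q j).2 l).map
        (fun f => rotL k f fun i => algebraMap K (Om K) (ζ j i))) =
        fun j => fco (X.W j) (m.st j) (q j).1 (q j).2 l := by
      funext j
      obtain ⟨hy6, hy1⟩ := rx_Z6 (Finset.mem_def.2 (hζ j))
      exact fco_rot (hlen j) (fun i => by rw [← map_pow, hy6 i, map_one]) (by rw [← map_prod, hy1, map_one])
    rw [e2, ← hA] at e
    conv_lhs => rw [e]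
    rw [Multiset.map_map]
    rfl
  rw [key]
  refine LimX.bind_const _ _ _ fun f hfm => ?_
  rw [hA, mem_piM] at hfm
  choose f1 hf1 hg1 hX1 using fun j => (hop j).2 (f j) (hfm j)
  have hfl : ∀ j, (f j).length = k := fun j => hlen j _ (fco_mem (hfm j)).1
  have hfb : ∀ j, (f j).map Prod.fst = l := fun j => (fco_mem (hfm j)).2
  have hf1l : ∀ j, (f1 j).length = k := fun j => by rw [← (hf1 j).length_eq, hfl j]
  -- the base points of the reductions
  obtain ⟨l1, hl1⟩ : ∃ l1, l1 = (f1 ⟨0, hc⟩).map Prod.fst := ⟨_, rfl⟩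
  have hbase : ∀ j, (f1 j).map Prod.fst = l1 := fun j => by
    rw [hl1]
    exact rx_base (hf1 j) (hf1 ⟨0, hc⟩) (by rw [hfb j, hfb])
  have hl1B : (l1 : Multiset (Fin s → K)) = m0.B := by
    rw [hl1]
    exact (hg1 ⟨0, hc⟩).mem.1
  have hl1k : l1.length = k := by rw [hl1, List.length_map, hf1l]
  rw [← hC m0 (fun j => (q0 j).1) (fun j => (q0 j).2) l1 f0 f1 hl0 hl1B hm0 hsep hf hf0 hg1 hbase]
  unfold PsiX
  have e6 : ∑ z ∈ Fintype.piFinset (fun _ : Fin c => Z6 k K), clsX X (rows (bas k l1) (fun j => tup k (f1 j) (z j))) =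
      ((piM c (fun _ => (Z6 k K).val)).map (fun ζ => clsX X (rows (bas k l1) fun j => tup k (f1 j) (ζ j)))).sum := by
    rw [piM_finset (fun _ : Fin c => Z6 k K)]
    rfl
  rw [e6]
  refine LimX.map (r := fun x y => x = y) (Multiset.rel_eq.2 rfl) _ _ ?_
  rintro ζ hζ ζ' - rfl
  rw [mem_piM] at hζ
  intro i
  have hib : ∀ j, (nth (f1 j) i).1 = bas k l1 i := by
    intro j
    have h1 : ((f1 j).map Prod.fst)[(i : ℕ)]'(by rw [List.length_map, hf1l j]; exact i.2) =
        l1[(i : ℕ)]'(by rw [hl1k]; exact i.2) := List.getElem_of_eq (hbase j) _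
    unfold bas
    rw [List.getD_eq_getElem _ _ (by rw [hl1k]; exact i.2), rx_nth (hf1l j), ← h1, List.getElem_map]
  have hil : ∀ j, (nth (f j) i).1 = bas k l i := by
    intro j
    have h1 : l[(i : ℕ)]'(by rw [hll]; exact i.2) = ((f j)[(i : ℕ)]'(by rw [hfl j]; exact i.2)).1 := by
      rw [List.getElem_of_eq (hfb j).symm, List.getElem_map]
    unfold bas
    rw [List.getD_eq_getElem _ _ (by rw [hll]; exact i.2), h1, rx_nth (hfl j)]
  have hβ0 : bas k l1 i ≠ 0 := by
    refine (hm0 ⟨0, hc⟩).ne _ ?_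
    show bas k l1 i ∈ m0.B
    rw [← hl1B]
    unfold bas
    rw [List.getD_eq_getElem _ _ (by rw [hl1k]; exact i.2)]
    exact Multiset.mem_coe.2 (List.getElem_mem _)
  refine ⟨⟨hβ0, 1, one_ne_zero, fun a => ?_⟩, fun j => ?_⟩
  · rw [one_pow, one_mul]
    have h1 := (rx_red (hf1 ⟨0, hc⟩) (hfl _) i).1 a
    rw [hib, hil] at h1
    exact h1
  · obtain ⟨hy6, hy1⟩ := rx_Z6 (Finset.mem_def.2 (hζ j))
    have hy0 : ζ j i ≠ 0 := by
      intro h0
      have h1 := hy6 i
      rw [h0] at h1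
      norm_num at h1
    have hyy : Rd π.V π.φ (algebraMap K (Om K) (ζ j i)) (ζ j i) := π.const _
    have hR := rx_red (hf1 j) (hfl j) i
    have e4 : ((rowsL k l (fun j => rotL k (f j) fun i => algebraMap K (Om K) (ζ j i))) i).P j
        = Lk.pt ((nth (f j) i).1, (nth (f j) i).2.rot (algebraMap K (Om K) (ζ j i))) := by
      show (nth (rotL k (f j) fun i => algebraMap K (Om K) (ζ j i)) i).pt = _
      rw [nth_rotL]
    rw [e4]
    refine Sp_fin (Or.inl ?_) ?_ ?_ ?_
    · show (nth (f1 j) i).1 ≠ 0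
      rw [hib]
      exact hβ0
    · intro a
      exact hR.1 a
    · show Rd π.V π.φ ((algebraMap K (Om K) (ζ j i) * (nth (f j) i).2.w) ^ 2 + ((algebraMap K (Om K) (ζ j i))⁻¹ * (nth (f j) i).2.v) ^ 2)
        ((ζ j i * (nth (f1 j) i).2.w) ^ 2 + ((ζ j i)⁻¹ * (nth (f1 j) i).2.v) ^ 2)
      exact ((hyy.mul hR.2.w).pow 2).add (((hyy.inv hy0).mul hR.2.v).pow 2)
    · show Rd π.V π.φ (algebraMap K (Om K) (ζ j i) ^ 3 * (nth (f j) i).2.y) (ζ j i ^ 3 * (nth (f1 j) i).2.y)
      exact (hyy.pow 3).mul hR.2.y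

end FX
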