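import Pool.Agent.H67.EX.MsX
import Pool.Agent.H67.ES.Stab

/-! # EX.StabX : the weighted multiset of all ordered factorisations of a family of states with `c` columns is Galois stable -/

namespace FX

open ES H68.BB Polynomial

variable {K : Type} [Field K] [IsAlgClosed K] [CharZero K] {s c : ℕ}

/-- the cusps of all columns -/
noncomputable def cuX (X : XD K s c) (z : Fin c → K) (m : MsX s c (Om K)) : Multiset (Fin c → Om K × Om K) :=
  piM c (fun j => cuM (algebraMap K (Om K) (z j)) (m.x j) ((m.st j).A (X.W j)))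

/-- the ordered factorisations of all columns with given cusps -/
noncomputable def fcX (X : XD K s c) (m : MsX s c (Om K)) (l : List (Fin s → Om K)) (q : Fin c → Om K × Om K) :
    Multiset (Fin c → List (Lk s (Om K))) :=
  piM c (fun j => fco (X.W j) (m.st j) (q j).1 (q j).2 l)

/-- the rows of all ordered factorisations, with weights -/
noncomputable def SSX (X : XD K s c) (k : ℕ) (z : Fin c → K) (L1 L2 : ℕ) (M : Multiset (MsX s c (Om K))) :
    Multiset (Fin k → Row s c (Om K)) :=
  M.bind fun m => (L2 / Multiset.card (ordM m.B)) • (ordM m.B).bind fun l => (cuX X z m).bind fun q =>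
    (L1 / Multiset.card (fcX X m l q)) • ((Z6 k K).card ^ c • (fcX X m l q).map (rowsL k l))

theorem rowsL_sigma {k : ℕ} (σ : Om K ≃ₐ[RatFunc K] Om K) {l : List (Fin s → Om K)} {f : Fin c → List (Lk s (Om K))}
    (hf : ∀ j, (f j).length = k) :
    rowsL k (l.map fun β i => σ (β i)) (fun j => (f j).map (Lk.map σ)) = fun i => (rowsL k l f i).map σ := by
  funext i
  unfold rowsL rows Row.map
  ext1
  · show (l.map fun (β : Fin s → Om K) a => σ (β a)).getD i (fun _ => (0 : Om K)) =
      (fun (β : Fin s → Om K) a => σ (β a)) (l.getD (i : ℕ) fun _ => 0)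
    have e : (fun _ => (0 : Om K) : Fin s → Om K) = (fun (β : Fin s → Om K) a => σ (β a)) (fun _ => 0) := by
      funext a
      exact (map_zero σ).symm
    conv_lhs => rw [e]
    rw [List.getD_map]
  · funext j
    show ptsL k ((f j).map (Lk.map σ)) i = (ptsL k (f j) i).map σ
    rw [ptsL_sigma σ (hf j)]

theorem fcX_sigma {X : XD K s c} (σ : Om K ≃ₐ[RatFunc K] Om K) (m : MsX s c (Om K)) (l : List (Fin s → Om K))
    (q : Fin c → Om K × Om K) :
    fcX X (m.map (σ : Om K →+* Om K)) (l.map fun β i => σ (β i)) (fun j => (σ (q j).1, σ (q j).2)) =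
      (fcX X m l q).map (fun f j => (f j).map (Lk.map σ)) := by
  unfold fcX
  rw [← piM_map (fun j => fco (X.W j) (m.st j) (q j).1 (q j).2 l) (fun _ f => f.map (Lk.map σ))]
  congr 1
  funext j
  exact fco_sigma σ (m.st j) (q j).1 (q j).2 l

theorem cuX_sigma {X : XD K s c} {z : Fin c → K} (σ : Om K ≃ₐ[RatFunc K] Om K) (m : MsX s c (Om K)) :
    cuX X z (m.map (σ : Om K →+* Om K)) = (cuX X z m).map (fun q j => (σ (q j).1, σ (q j).2)) := by
  unfold cuX
  rw [← piM_map (fun j => cuM (algebraMap K (Om K) (z j)) (m.x j) ((m.st j).A (X.W j))) (fun _ q => (σ q.1, σ q.2))]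
  congr 1
  funext j
  have h1 : ((m.map (σ : Om K →+* Om K)).st j).A (X.W j) = σ ((m.st j).A (X.W j)) := A_sigma σ (m.st j)
  rw [h1]
  exact (cu_sigma σ (z j) (m.x j) ((m.st j).A (X.W j))).symm

theorem SSX_stab {X : XD K s c} {k : ℕ} {z : Fin c → K} {L1 L2 : ℕ} {M : Multiset (MsX s c (Om K))}
    (hlen : ∀ m ∈ M, Multiset.card m.B = k)
    (hM : ∀ σ : Om K ≃ₐ[RatFunc K] Om K, M.map (MsX.map (σ : Om K →+* Om K)) = M) : GalX (SSX X k z L1 L2 M) := by
  intro σ
  have hone : ∀ m ∈ M, (((L2 / Multiset.card (ordM m.B)) • (ordM m.B).bind fun l => (cuX X z m).bind fun q =>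
      (L1 / Multiset.card (fcX X m l q)) • ((Z6 k K).card ^ c • (fcX X m l q).map (rowsL k l))).map
        (fun (R : Fin k → Row s c (Om K)) i => (R i).map σ)) =
      ((L2 / Multiset.card (ordM (m.map (σ : Om K →+* Om K)).B)) • (ordM (m.map (σ : Om K →+* Om K)).B).bind fun l =>
        (cuX X z (m.map (σ : Om K →+* Om K))).bind fun q =>
      (L1 / Multiset.card (fcX X (m.map (σ : Om K →+* Om K)) l q)) •
        ((Z6 k K).card ^ c • (fcX X (m.map (σ : Om K →+* Om K)) l q).map (rowsL k l))) := by
    intro m hm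
    have hB : ordM (m.map (σ : Om K →+* Om K)).B = (ordM m.B).map (List.map fun (β : Fin s → Om K) i => σ (β i)) := by
      refine ordM_map (fun β β' h => ?_) m.B
      funext i
      exact σ.injective (congrFun h i)
    rw [hB, Multiset.card_map, Multiset.map_nsmul, Multiset.map_bind, Multiset.bind_map]
    congr 1
    refine Multiset.bind_congr fun l hl => ?_
    rw [cuX_sigma, Multiset.map_bind, Multiset.bind_map]
    refine Multiset.bind_congr fun q _ => ?_
    rw [fcX_sigma, Multiset.card_map, Multiset.map_nsmul, Multiset.map_nsmul, Multiset.map_map, Multiset.map_map]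
    congr 2
    refine Multiset.map_congr rfl fun f hf => ?_
    have hfl : ∀ j, (f j).length = k := by
      intro j
      have h1 := (fco_mem (mem_piM.1 hf j)).1
      rw [FacS_len h1]
      exact hlen m hm
    simp only [Function.comp_apply]
    exact (rowsL_sigma σ hfl).symm
  unfold SSX
  rw [Multiset.map_bind, Multiset.bind_congr hone]
  conv_rhs => rw [← hM σ]
  rw [Multiset.bind_map]

end FX
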