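import Pool.Agent.H67.EX.RedX
import Pool.Agent.H67.EX.StabX
import Pool.Agent.H8.FX.Bas

/-! # EX.RelX : THE RELATION T_0: the sum of the classes over all cusps of all columns of a state which moves in a family

Copy of `ES.rel` with `c` columns. -/

namespace FX

open ES H68.BB Polynomial

variable {K : Type} [Field K] [IsAlgClosed K] [CharZero K] {s c k : ℕ} {X : XD K s c}

omit [IsAlgClosed K] [CharZero K] in
private theorem A_rd {π : Place K (Om K)} {B : Multiset (Fin s → Om K)} {B0 : Multiset (Fin s → K)}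
    (h : Multiset.Rel (fun (β : Fin s → Om K) (β0 : Fin s → K) => ∀ i, Rd π.V π.φ (β i) (β0 i)) B B0)
    (q : MvPolynomial (Fin s) K) :
    Rd π.V π.φ (B.map (fun β => ev q β)).prod (B0.map (fun β => ev q β)).prod := by
  induction h with
  | zero =>
    rw [Multiset.map_zero, Multiset.map_zero, Multiset.prod_zero, Multiset.prod_zero]
    exact Rd.one
  | cons hab hs ih =>
    rw [Multiset.map_cons, Multiset.prod_cons, Multiset.map_cons, Multiset.prod_cons]
    exact (rd_ev q hab).mul ih

omit [IsAlgClosed K] in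
/-- the point of a link of a factorisation is on the surface -/
private theorem link_on {W : Wm K s} {m : Ms s (Om K)} (hm : OnS W k m) {w v : Om K} {f : List (Lk s (Om K))}
    (hf : f ∈ FacS W m w v) {g : Lk s (Om K)} (hg : g ∈ f) : OnW W g.pt := by
  have hB : g.1 ∈ m.B := by
    rw [← hf.1]
    exact Multiset.mem_coe.2 (List.mem_map_of_mem hg)
  refine ⟨Or.inl (hm.ne _ hB), hm.I _ hB, ?_⟩
  have h1 := hf.2.1 g hg
  have ha : (g.2.w * g.2.v) ^ 2 = ev W.a g.1 := congrArg Prod.fst h1
  have hb : (g.2.w ^ 6 + g.2.v ^ 6 - g.2.y ^ 2) / 2 = ev W.b g.1 := congrArg Prod.snd h1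
  show g.2.y ^ 2 = (g.2.w ^ 2 + g.2.v ^ 2) ^ 3 - 3 * ev W.a g.1 * (g.2.w ^ 2 + g.2.v ^ 2) - 2 * ev W.b g.1
  rw [← ha, ← hb]
  field_simp
  ring

/-- the rows of a combined factorisation are on `X` -/
private theorem rows_on (hc : 0 < c) {m : MsX s c (Om K)} (hm : ∀ j, OnS (X.W j) k (m.st j)) {q : Fin c → Om K × Om K}
    {l : List (Fin s → Om K)} (hl : (l : Multiset (Fin s → Om K)) = m.B) {f : Fin c → List (Lk s (Om K))}
    (hf : f ∈ fcX X m l q) (i : Fin k) : OnX X (rowsL k l f i) ∧
      ∀ j, (rowsL k l f i).P j = (nth (f j) i).pt ∧ (rowsL k l f i).β = (nth (f j) i).1 ∧ nth (f j) i ∈ f j := by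
  unfold fcX at hf
  rw [mem_piM] at hf
  have hfS := fun j => (fco_mem (hf j)).1
  have hfb := fun j => (fco_mem (hf j)).2
  have hfl : ∀ j, (f j).length = k := by
    intro j
    rw [FacS_len (hfS j), ← (hm j).st.card, Multiset.card_map]
  have hll : l.length = k := by
    have h1 := congrArg Multiset.card hl
    rw [Multiset.coe_card] at h1
    rw [h1, ← (hm ⟨0, hc⟩).st.card, Multiset.card_map]
    rfl
  have hmem : ∀ j, nth (f j) i ∈ f j := fun j => by
    unfold nth
    rw [List.getD_eq_getElem _ _ (by rw [hfl j]; exact i.2)]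
    exact List.getElem_mem _
  have hβ : ∀ j, bas k l i = (nth (f j) i).1 := by
    intro j
    have h1 : l[(i : ℕ)]'(by rw [hll]; exact i.2) = ((f j)[(i : ℕ)]'(by rw [hfl j]; exact i.2)).1 := by
      rw [List.getElem_of_eq (hfb j).symm, List.getElem_map]
    unfold bas nth
    rw [List.getD_eq_getElem _ _ (by rw [hll]; exact i.2), h1, List.getD_eq_getElem _ _ (by rw [hfl j]; exact i.2)]
  have hβB : bas k l i ∈ m.B := by
    rw [hβ ⟨0, hc⟩]
    have h1 := (hfS ⟨0, hc⟩).1
    have h2 : (nth (f ⟨0, hc⟩) i).1 ∈ ((f ⟨0, hc⟩).map Prod.fst : Multiset (Fin s → Om K)) :=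
      Multiset.mem_coe.2 (List.mem_map_of_mem (hmem ⟨0, hc⟩))
    rw [h1] at h2
    exact h2
  refine ⟨⟨(hm ⟨0, hc⟩).ne _ hβB, (hm ⟨0, hc⟩).I _ hβB, fun j => link_on (hm j) (hfS j) (hmem j), fun j => ?_⟩,
    fun j => ⟨rfl, hβ j, hmem j⟩⟩
  refine Or.inr ⟨1, one_ne_zero, ?_⟩
  funext a
  rw [one_pow, one_mul]
  show (nth (f j) i).1 a = bas k l i a
  rw [hβ j]

theorem relX (hX : X.Ok) (hk : 0 < k) (hc : 0 < c) {l0 : List (Fin s → K)} (hC : CSX X k l0) {m0 : MsX s c K}
    (hm0 : ∀ j, OnS (X.W j) k (m0.st j)) (hsep : ∀ j, SepB (X.W j) m0.B) (hl0 : (l0 : Multiset (Fin s → K)) = m0.B)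
    {z : Fin c → K} (hz : ∀ j, z j ^ 3 = 1) (hF : FamX X k z m0) (F : Fin c → K × K → List (Lk s K))
    (hFg : ∀ j, ∀ q ∈ cuM (z j) (m0.x j) ((m0.st j).A (X.W j)),
      GFac (X.W j) k (m0.st j) q.1 q.2 (F j q) ∧ (F j q).map Prod.fst = l0) :
    IsOfFinAddOrder ((piM c (fun j => cuM (z j) (m0.x j) ((m0.st j).A (X.W j)))).map
      (fun q => PsiX X k l0 (fun j => F j (q j)))).sum := by
  classical
  obtain ⟨M, π0, π1, hM0, hOn, hGal, hRd, hNul⟩ := hF
  have hz' : ∀ j, (algebraMap K (Om K) (z j)) ^ 3 = 1 := fun j => by rw [← map_pow, hz, map_one]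
  have hlen : ∀ m ∈ M, Multiset.card m.B = k := by
    intro m hm
    have h2 := (hOn m hm ⟨0, hc⟩).st.card
    rwa [Multiset.card_map] at h2
  -- the cusps of the members
  have hcu : ∀ m ∈ M, ∀ q ∈ cuX X z m, ∀ j, ((q j).1 * (q j).2) ^ 2 = (m.st j).A (X.W j) ∧
      algebraMap K (Om K) (z j) * (q j).1 ^ 2 + algebraMap K (Om K) (z j) ^ 2 * (q j).2 ^ 2 = m.x j := by
    intro m hm q hq j
    exact cu_mem (hz' j) (mem_piM.1 hq j)
  have hrel : ∀ m ∈ M, Multiset.Rel (fun (q : Fin c → Om K × Om K) (q0 : Fin c → K × K) =>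
      ∀ j, Rd π0.V π0.φ (q j).1 (q0 j).1 ∧ Rd π0.V π0.φ (q j).2 (q0 j).2)
      (cuX X z m) (piM c (fun j => cuM (z j) (m0.x j) ((m0.st j).A (X.W j)))) := by
    intro m hm
    exact piM_rel fun j => cu_rd (z j) (hRd m hm j).x (A_rd (hRd m hm j).B (X.W j).a)
  set N : MsX s c (Om K) → List (Fin s → Om K) → (Fin c → Om K × Om K) → ℕ := fun m l q => Multiset.card (fcX X m l q) with hN
  set L1 : ℕ := (M.bind (fun m => (ordM m.B).bind fun l => (cuX X z m).map (fun q => N m l q))).prod with hL1
  set L2 : ℕ := (M.map (fun m => Multiset.card (ordM m.B))).prod with hL2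
  have hlim : ∀ m ∈ M, ∀ l ∈ ordM m.B, ∀ q ∈ cuX X z m, ∀ q0 ∈ piM c (fun j => cuM (z j) (m0.x j) ((m0.st j).A (X.W j))),
      (∀ j, Rd π0.V π0.φ (q j).1 (q0 j).1 ∧ Rd π0.V π0.φ (q j).2 (q0 j).2) →
      0 < N m l q ∧ LimX X π0 ((Z6 k K).card ^ c • (fcX X m l q).map (rowsL k l))
        (N m l q • PsiX X k l0 (fun j => F j (q0 j))) := by
    intro m hm l hl q hq q0 hq0 hqq
    rw [mem_piM] at hq0
    exact redX hk hc hC (hOn m hm) hm0 hsep hl0 (hRd m hm) hz hqq (fun j => (hcu m hm q hq j).1)
      (fun j => (hcu m hm q hq j).2) (fun j => (hFg j _ (hq0 j)).1) (fun j => (hFg j _ (hq0 j)).2) (mem_ordM.1 hl)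
  have hNpos : ∀ m ∈ M, ∀ l ∈ ordM m.B, ∀ q ∈ cuX X z m, 0 < N m l q := by
    intro m hm l hl q hq
    obtain ⟨q0, hq0, he⟩ := Multiset.exists_mem_of_rel_of_mem (hrel m hm) hq
    exact (hlim m hm l hl q hq q0 hq0 he).1
  have hdvd : ∀ m ∈ M, ∀ l ∈ ordM m.B, ∀ q ∈ cuX X z m, N m l q ∣ L1 := by
    intro m hm l hl q hq
    apply Multiset.dvd_prod
    rw [Multiset.mem_bind]
    refine ⟨m, hm, ?_⟩
    rw [Multiset.mem_bind]
    exact ⟨l, hl, Multiset.mem_map_of_mem _ hq⟩
  have hL10 : 0 < L1 := by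
    rw [Nat.pos_iff_ne_zero]
    intro h0
    have h2 := Multiset.prod_eq_zero_iff.1 h0
    rw [Multiset.mem_bind] at h2
    obtain ⟨m, hm, h3⟩ := h2
    rw [Multiset.mem_bind] at h3
    obtain ⟨l, hl, h3⟩ := h3
    obtain ⟨q, hq, h4⟩ := Multiset.mem_map.1 h3
    have := hNpos m hm l hl q hq
    omega
  have hL20 : 0 < L2 := by
    rw [Nat.pos_iff_ne_zero]
    intro h0
    have h2 := Multiset.prod_eq_zero_iff.1 h0
    obtain ⟨m, hm, h3⟩ := Multiset.mem_map.1 h2
    have := ordM_card_pos m.B
    omega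
  have hdvd2 : ∀ m ∈ M, Multiset.card (ordM m.B) ∣ L2 := by
    intro m hm
    apply Multiset.dvd_prod
    exact Multiset.mem_map_of_mem _ hm
  have hcM : 0 < Multiset.card M := Multiset.card_pos.2 hM0
  set E : AAX k X := ((piM c (fun j => cuM (z j) (m0.x j) ((m0.st j).A (X.W j)))).map
      (fun q => PsiX X k l0 (fun j => F j (q j)))).sum with hE
  -- the limit at `π0`
  have hA : LimX X π0 (SSX X k z L1 L2 M) (Multiset.card M • (L2 • (L1 • E))) := by
    unfold SSX
    refine LimX.bind_const M _ _ fun m hm => ?_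
    have h1 : LimX X π0 ((ordM m.B).bind fun l => (cuX X z m).bind fun q =>
        (L1 / Multiset.card (fcX X m l q)) • ((Z6 k K).card ^ c • (fcX X m l q).map (rowsL k l)))
        (Multiset.card (ordM m.B) • (L1 • E)) := by
      refine LimX.bind_const _ _ _ fun l hl => ?_
      have h2 := LimX.bind (X := X) (π := π0) (hrel m hm) (fun q => (L1 / Multiset.card (fcX X m l q)) •
        ((Z6 k K).card ^ c • (fcX X m l q).map (rowsL k l))) (fun q0 => L1 • PsiX X k l0 (fun j => F j (q0 j)))
        (fun q hq q0 hq0 he => by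
          obtain ⟨h3, h4⟩ := hlim m hm l hl q hq q0 hq0 he
          have h5 := LimX.nsmul h4 (L1 / N m l q)
          have h6 : (L1 / N m l q) • (N m l q • PsiX X k l0 (fun j => F j (q0 j))) = L1 • PsiX X k l0 (fun j => F j (q0 j)) := by
            rw [← mul_nsmul', Nat.div_mul_cancel (hdvd m hm l hl q hq)]
          rw [h6] at h5
          exact h5)
      rw [Multiset.sum_map_nsmul, ← hE] at h2
      exact h2
    have h7 := LimX.nsmul h1 (L2 / Multiset.card (ordM m.B))
    rw [← mul_nsmul', Nat.div_mul_cancel (hdvd2 m hm)] at h7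
    exact h7
  -- the limit at `π1`
  have hB : LimX X π1 (SSX X k z L1 L2 M) 0 := by
    unfold SSX
    have h2 := LimX.bind_const (X := X) (π := π1) M (fun m => (L2 / Multiset.card (ordM m.B)) • (ordM m.B).bind fun l =>
      (cuX X z m).bind fun q => (L1 / Multiset.card (fcX X m l q)) • ((Z6 k K).card ^ c • (fcX X m l q).map (rowsL k l))) 0
      (fun m hm => by
        have h3 := LimX.bind_const (X := X) (π := π1) (ordM m.B) (fun l => (cuX X z m).bind fun q =>
          (L1 / Multiset.card (fcX X m l q)) • ((Z6 k K).card ^ c • (fcX X m l q).map (rowsL k l))) 0 (fun l hl => by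
            have h4 := LimX.bind_const (X := X) (π := π1) (cuX X z m) (fun q =>
              (L1 / Multiset.card (fcX X m l q)) • ((Z6 k K).card ^ c • (fcX X m l q).map (rowsL k l))) 0 (fun q hq => by
                have h5 : LimX X π1 ((fcX X m l q).map (rowsL k l)) 0 := by
                  refine LimX.map_zero _ _ fun f hf => ?_
                  obtain ⟨j, hj⟩ := hNul m hm
                  have hfj : f j ∈ FacS (X.W j) (m.st j) (q j).1 (q j).2 := (fco_mem (mem_piM.1 hf j)).1
                  obtain ⟨g, hg, hn⟩ := hj (q j).1 (q j).2 (hcu m hm q hq j).2 (f j) hfj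
                  have hon := rows_on (k := k) hc (hOn m hm) (mem_ordM.1 hl) hf
                  obtain ⟨i, hi, hgi⟩ := List.getElem_of_mem hg
                  have hfl : (f j).length = k := by
                    rw [FacS_len hfj]
                    exact hlen m hm
                  have hik : i < k := by rw [← hfl]; exact hi
                  have hnth : nth (f j) (⟨i, hik⟩ : Fin k) = g := by
                    unfold nth
                    rw [List.getD_eq_getElem _ _ hi]
                    exact hgi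
                  obtain ⟨r, hr1, hr2⟩ := hn (rowsL k l f ⟨i, hik⟩) (hon ⟨i, hik⟩).1
                    (by rw [((hon ⟨i, hik⟩).2 j).1, hnth]) (by rw [((hon ⟨i, hik⟩).2 j).2.1, hnth]; rfl)
                  have hex : ∀ i', ∃ r, SpR X π1 (rowsL k l f i') r := fun i' => SpR_exists hX π1 (hon i').1
                  choose Q hQ using hex
                  refine ⟨Function.update Q ⟨i, hik⟩ r, ?_, ?_⟩
                  · intro i'
                    by_cases h : i' = ⟨i, hik⟩
                    · subst h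
                      rw [Function.update_self]
                      exact hr1
                    · rw [Function.update_of_ne h]
                      exact hQ i'
                  · refine hr2 _ ⟨i, hik⟩ ?_ (by rw [Function.update_self])
                    intro i'
                    by_cases h : i' = ⟨i, hik⟩
                    · subst h
                      rw [Function.update_self]
                      exact SpR_onX hX (hon _).1 hr1
                    · rw [Function.update_of_ne h]
                      exact SpR_onX hX (hon _).1 (hQ i')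
                have h7 := LimX.nsmul (LimX.nsmul h5 ((Z6 k K).card ^ c)) (L1 / Multiset.card (fcX X m l q))
                rw [smul_zero, smul_zero] at h7
                exact h7)
            rw [smul_zero] at h4
            exact h4)
        rw [smul_zero] at h3
        have h8 := LimX.nsmul h3 (L2 / Multiset.card (ordM m.B))
        rw [smul_zero] at h8
        exact h8)
    rw [smul_zero] at h2
    exact h2
  have hon : AllOnX X (SSX X k z L1 L2 M) := by
    intro R hR i
    unfold SSX at hR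
    rw [Multiset.mem_bind] at hR
    obtain ⟨m, hm, hR⟩ := hR
    have hR := Multiset.mem_of_mem_nsmul hR
    rw [Multiset.mem_bind] at hR
    obtain ⟨l, hl, hR⟩ := hR
    rw [Multiset.mem_bind] at hR
    obtain ⟨q, hq, hR⟩ := hR
    obtain ⟨f, hf, rfl⟩ := Multiset.mem_map.1 (Multiset.mem_of_mem_nsmul (Multiset.mem_of_mem_nsmul hR))
    exact (rows_on (k := k) hc (hOn m hm) (mem_ordM.1 hl) hf i).1
  have h0 : Multiset.card M • (L2 • (L1 • E)) = 0 := LimX.eq hon (SSX_stab hlen hGal) hA hB
  rw [smul_smul, smul_smul] at h0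
  exact isOfFinAddOrder_iff_nsmul_eq_zero.2 ⟨Multiset.card M * (L2 * L1), by positivity, by rw [← mul_assoc]; exact h0⟩

end FX
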